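import Pool.Agent.H499.RL.Stm
import Pool.Agent.H499.SM.LIM

/-!
# Approximate extensions are near to split extensions (job APX of helper499; helper34)
-/

set_option autoImplicit false

namespace Pool.Agent.H34.RL

open Matrix Filter Topology Pool.Agent.H499.RL
open Pool.Agent.H499.SM (HMFin Act S_LIM)

section

variable {E : Type} [NontriviallyNormedField E] [IsUltrametricDist E] {G : Type} [Group G]
  {α β : Type} [Fintype α] [DecidableEq α] [Fintype β] [DecidableEq β]

theorem sum_le {κ : Type} (s : Finset κ) (f : κ → E) {t : ℝ} (ht : 0 ≤ t)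
    (h : ∀ i ∈ s, ‖f i‖ ≤ t) : ‖∑ i ∈ s, f i‖ ≤ t :=
  IsUltrametricDist.norm_sum_le_of_forall_le_of_nonneg ht h

omit [DecidableEq α] [Fintype β] [DecidableEq β] in
theorem mul_le_left {M : Matrix α α E} {X : Matrix α β E} {t : ℝ} (ht : 0 ≤ t)
    (hM : ∀ p q, ‖M p q‖ ≤ 1) (hX : ∀ p q, ‖X p q‖ ≤ t) (p : α) (q : β) :
    ‖(M * X) p q‖ ≤ t := by
  rw [Matrix.mul_apply]
  refine sum_le _ _ ht fun i _ => ?_
  rw [norm_mul]
  calc ‖M p i‖ * ‖X i q‖ ≤ 1 * t := mul_le_mul (hM p i) (hX i q) (norm_nonneg _) zero_le_one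
    _ = t := one_mul t

omit [Fintype α] [DecidableEq α] [DecidableEq β] in
theorem mul_le_right {X : Matrix α β E} {N : Matrix β β E} {t : ℝ} (ht : 0 ≤ t)
    (hN : ∀ p q, ‖N p q‖ ≤ 1) (hX : ∀ p q, ‖X p q‖ ≤ t) (p : α) (q : β) :
    ‖(X * N) p q‖ ≤ t := by
  rw [Matrix.mul_apply]
  refine sum_le _ _ ht fun i _ => ?_
  rw [norm_mul]
  calc ‖X p i‖ * ‖N i q‖ ≤ t * 1 := mul_le_mul (hX p i) (hN i q) (norm_nonneg _) ht
    _ = t := mul_one t

/-- the action on the matrices -/
def act (A : G →* Matrix α α E) (B : G →* Matrix β β E) : G →* Module.End E (α → β → E) where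
  toFun g :=
    { toFun := fun X => (A g * (Matrix.of X) * B g⁻¹ : Matrix α β E)
      map_add' := by
        intro X Y
        have : (Matrix.of (X + Y) : Matrix α β E) = Matrix.of X + Matrix.of Y := rfl
        rw [this, Matrix.mul_add, Matrix.add_mul]
        rfl
      map_smul' := by
        intro a X
        have : (Matrix.of (a • X) : Matrix α β E) = a • Matrix.of X := rfl
        rw [this, Matrix.mul_smul, Matrix.smul_mul]
        rfl }
  map_one' := by
    apply LinearMap.ext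
    intro X
    show (A 1 * (Matrix.of X) * B 1⁻¹ : Matrix α β E) = X
    rw [inv_one, map_one, map_one, Matrix.one_mul, Matrix.mul_one]
    rfl
  map_mul' g h := by
    apply LinearMap.ext
    intro X
    show (A (g * h) * (Matrix.of X) * B (g * h)⁻¹ : Matrix α β E) =
      (A g * (A h * (Matrix.of X) * B h⁻¹) * B g⁻¹ : Matrix α β E)
    rw [_root_.mul_inv_rev, map_mul, map_mul]
    simp only [Matrix.mul_assoc]

omit [IsUltrametricDist E] in
theorem act_apply (A : G →* Matrix α α E) (B : G →* Matrix β β E) (g : G) (X : α → β → E) :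
    act A B g X = (A g * (Matrix.of X) * B g⁻¹ : Matrix α β E) := rfl

omit [Group G] [DecidableEq α] [DecidableEq β] [IsUltrametricDist E] in
theorem norm_le_iff {X : α → β → E} {t : ℝ} (ht : 0 ≤ t) : ‖X‖ ≤ t ↔ ∀ p q, ‖X p q‖ ≤ t := by
  rw [pi_norm_le_iff_of_nonneg ht]
  refine forall_congr' fun p => ?_
  rw [pi_norm_le_iff_of_nonneg ht]

theorem act_Act [TopologicalSpace G] [IsTopologicalGroup G] {A : G →* Matrix α α E}
    {B : G →* Matrix β β E} (hA : ∀ g p q, ‖A g p q‖ ≤ 1) (hB : ∀ g p q, ‖B g p q‖ ≤ 1)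
    (hAc : ∀ p q, Continuous fun g => A g p q) (hBc : ∀ p q, Continuous fun g => B g p q) :
    Act (act A B) := by
  refine ⟨fun g X => ?_, fun X => ?_⟩
  · rw [act_apply, norm_le_iff (norm_nonneg _)]
    have hX : ∀ p q, ‖X p q‖ ≤ ‖X‖ := (norm_le_iff (norm_nonneg _)).1 le_rfl
    exact mul_le_right (norm_nonneg _) (hB g⁻¹) (mul_le_left (norm_nonneg _) (hA g) hX)
  · have h1 : Continuous fun g => A g := continuous_matrix hAc
    have h2 : Continuous fun g => B g := continuous_matrix hBc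
    have h3 : Continuous fun g : G => B g⁻¹ := h2.comp continuous_inv
    have h4 : Continuous fun g : G => (A g * (Matrix.of X) * B g⁻¹ : Matrix α β E) :=
      (h1.matrix_mul continuous_const).matrix_mul h3
    exact h4

end

theorem apx (hLIM : S_LIM) : S_APX := by
  intro E _ _ _ G _ _ _ _ I hI α β ι _ _ _ _ _ A B D f hA hB hAc hBc hf hExt T η hη
  by_contra hcon
  push Not at hcon
  choose c hc1 hc2 hc3 hc4 hc5 hc6 using fun m : ℕ => hcon (1 / ((m : ℝ) + 1)) (by positivity) m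
  set 𝓤 : Ultrafilter ℕ := hyperfilter ℕ with h𝓤
  have hle : (𝓤 : Filter ℕ) ≤ atTop := Nat.hyperfilter_le_atTop
  have hε : Tendsto (fun m : ℕ => 1 / ((m : ℝ) + 1)) 𝓤 (𝓝 0) :=
    tendsto_one_div_add_atTop_nhds_zero_nat.mono_left hle
  have hT : ∀ m g p q, ‖c m g p q‖ ≤ |T| := fun m g p q => (hc2 m g p q).trans (le_abs_self T)
  have hBcont : Continuous fun g => B g := continuous_matrix hBc
  have hBinv : Continuous fun g : G => B g⁻¹ := hBcont.comp continuous_inv
  have hBB : ∀ g : G, B g⁻¹ * B g = 1 := fun g => by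
    rw [← map_mul, inv_mul_cancel, map_one]
  have hBB' : ∀ g : G, B g * B g⁻¹ = 1 := fun g => by
    rw [← map_mul, mul_inv_cancel, map_one]
  let z : ℕ → G → (α → β → E) := fun m g => (c m g * B g⁻¹ : Matrix α β E)
  have hzdef : ∀ m g, z m g = (c m g * B g⁻¹ : Matrix α β E) := fun m g => rfl
  have hzc : ∀ m, Continuous (z m) := fun m => by
    have h1 : Continuous fun g => c m g := continuous_matrix (hc1 m)
    exact h1.matrix_mul hBinv
  have hzR : ∀ m g, ‖z m g‖ ≤ |T| := fun m g => by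
    rw [norm_le_iff (abs_nonneg T)]
    exact mul_le_right (abs_nonneg T) (hB g⁻¹) (hT m g)
  have hzI : ∀ m, ∀ g ∈ I, z m g = 0 := fun m g hg => by
    rw [hzdef, hc4 m g hg, Matrix.zero_mul]
    rfl
  have hzcoc : ∀ m g h, ‖z m (g * h) - z m g - act A B g (z m h)‖ ≤ 1 / ((m : ℝ) + 1) := by
    intro m g h
    have hpos : (0 : ℝ) ≤ 1 / ((m : ℝ) + 1) := by positivity
    rw [norm_le_iff hpos]
    have h1 : z m (g * h) - z m g - act A B g (z m h) =
        ((c m (g * h) - A g * c m h - c m g * B h) * B (g * h)⁻¹ : Matrix α β E) := by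
      have h2 : (c m g * B h * B (g * h)⁻¹ : Matrix α β E) = c m g * B g⁻¹ := by
        rw [Matrix.mul_assoc, ← map_mul, _root_.mul_inv_rev, ← mul_assoc, mul_inv_cancel, one_mul]
      have h3 : (A g * c m h * B (g * h)⁻¹ : Matrix α β E) = A g * (c m h * B h⁻¹) * B g⁻¹ := by
        rw [_root_.mul_inv_rev, map_mul]
        simp only [Matrix.mul_assoc]
      rw [Matrix.sub_mul, Matrix.sub_mul, h2, h3]
      show (c m (g * h) * B (g * h)⁻¹ : Matrix α β E) - c m g * B g⁻¹ -
        A g * (c m h * B h⁻¹) * B g⁻¹ = _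
      abel
    rw [h1]
    exact mul_le_right hpos (hB _) (hc3 m g h)
  obtain ⟨w, hw1, hw2, hw3, hw4⟩ := hLIM E (α → β → E) G I hI (act A B)
    (act_Act hA hB hAc hBc) 𝓤 |T| (fun m => 1 / ((m : ℝ) + 1)) z hε hzc hzR hzI hzcoc
  -- the limit extension
  let cc : G → Matrix α β E := fun g => Matrix.of (w g) * B g
  have hccdef : ∀ g, cc g = Matrix.of (w g) * B g := fun g => rfl
  have hcz : ∀ m g, c m g = Matrix.of (z m g) * B g := fun m g => by
    show c m g = (c m g * B g⁻¹) * B g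
    rw [Matrix.mul_assoc, hBB, Matrix.mul_one]
  have hdiff : ∀ η' : ℝ, 0 < η' → ∀ᶠ m in (𝓤 : Filter ℕ), ∀ g p q,
      ‖(c m g - cc g) p q‖ ≤ η' := by
    intro η' hη'
    refine (hw4 η' hη').mono fun m hm g p q => ?_
    have h1 : c m g - cc g = (Matrix.of (z m g - w g) : Matrix α β E) * B g := by
      rw [hcz m g, hccdef, ← Matrix.sub_mul]
      rfl
    rw [h1]
    exact mul_le_right hη'.le (hB g) ((norm_le_iff hη'.le).1 (hm g)) p q
  have hlimc : ∀ g p q, Tendsto (fun m => c m g p q) 𝓤 (𝓝 (cc g p q)) := by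
    intro g p q
    rw [Metric.tendsto_nhds]
    intro e he
    refine (hdiff (e / 2) (half_pos he)).mono fun m hm => ?_
    rw [dist_eq_norm]
    exact lt_of_le_of_lt (hm g p q) (half_lt_self he)
  have hccont : ∀ p q, Continuous fun g => cc g p q := by
    have h1 : Continuous fun g => (Matrix.of (w g) : Matrix α β E) := hw1
    have h2 : Continuous fun g => cc g := h1.matrix_mul hBcont
    intro p q
    exact h2.matrix_elem p q
  have hcoc : ∀ g h, cc (g * h) = A g * cc h + cc g * B h := by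
    intro g h
    have h1 : (Matrix.of (w (g * h)) : Matrix α β E) =
        Matrix.of (w g) + A g * Matrix.of (w h) * B g⁻¹ := by
      rw [hw2, act_apply]
      rfl
    rw [hccdef, hccdef, hccdef, h1, Matrix.add_mul, map_mul]
    have h2 : A g * (Matrix.of (w h) : Matrix α β E) * B g⁻¹ * (B g * B h) =
        A g * (Matrix.of (w h) * B h) := by
      rw [Matrix.mul_assoc, ← Matrix.mul_assoc (B g⁻¹), hBB, Matrix.one_mul, Matrix.mul_assoc]
    rw [h2, ← Matrix.mul_assoc, add_comm]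
  have hccI : ∀ g ∈ I, cc g = 0 := by
    intro g hg
    rw [hccdef, hw3 g hg]
    show (0 : Matrix α β E) * B g = 0
    rw [Matrix.zero_mul]
  -- the local conditions for vectors of norm at most one
  have hloc1 : ∀ i, ∀ y ∈ eig (fun g => B g) (D i) (f i), ‖y‖ ≤ 1 → ∃ u : α → E,
      ∀ d ∈ D i, A d *ᵥ u + cc d *ᵥ y = f i d • u := by
    intro i y hy hy1
    choose u hu1 hu2 using fun m => hc5 m i y hy hy1
    have hcomp := isCompact_closedBall (0 : α → E) T
    have hx : ∀ m, u m ∈ Metric.closedBall (0 : α → E) T := fun m => by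
      rw [mem_closedBall_zero_iff]
      exact hu1 m
    obtain ⟨v, hv, hlim⟩ := hcomp.ultrafilter_le_nhds (𝓤.map fun m => u m) (by
      rw [Ultrafilter.coe_map, le_principal_iff]
      exact Filter.mem_map.2 (Filter.univ_mem' hx))
    have hlim' : Tendsto (fun m => u m) 𝓤 (𝓝 v) := hlim
    refine ⟨v, fun d hd => ?_⟩
    have h2 : Tendsto (fun m => A d *ᵥ u m + c m d *ᵥ y - f i d • u m) 𝓤 (𝓝 0) :=
      squeeze_zero_norm (fun m => hu2 m d hd) hε
    have h3 : Tendsto (fun m => c m d *ᵥ y) 𝓤 (𝓝 (cc d *ᵥ y)) := by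
      rw [tendsto_pi_nhds]
      intro p
      simp only [Matrix.mulVec, dotProduct]
      exact tendsto_finsetSum _ fun q _ => (hlimc d p q).mul_const _
    have h4 : Tendsto (fun m => A d *ᵥ u m) 𝓤 (𝓝 (A d *ᵥ v)) := by
      have hcont : Continuous fun v : α → E => A d *ᵥ v :=
        continuous_const.matrix_mulVec continuous_id
      exact (hcont.tendsto v).comp hlim'
    have h5 : Tendsto (fun m => f i d • u m) 𝓤 (𝓝 (f i d • v)) := hlim'.const_smul _
    have h6 := (h4.add h3).sub h5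
    exact sub_eq_zero.1 (tendsto_nhds_unique h2 h6).symm
  have hloc : ∀ i, ∀ y ∈ eig (fun g => B g) (D i) (f i), ∃ u : α → E,
      ∀ d ∈ D i, A d *ᵥ u + cc d *ᵥ y = f i d • u := by
    intro i y hy
    obtain ⟨a, ha0, ha1⟩ := NormedField.exists_norm_lt E
      (show (0 : ℝ) < 1 / (‖y‖ + 1) by positivity)
    have ha : a ≠ 0 := norm_pos_iff.1 ha0
    have hn : ‖a • y‖ ≤ 1 := by
      rw [norm_smul]
      have h1 : ‖a‖ * ‖y‖ ≤ 1 / (‖y‖ + 1) * ‖y‖ :=
        mul_le_mul_of_nonneg_right ha1.le (norm_nonneg _)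
      refine h1.trans ?_
      rw [one_div, inv_mul_le_iff₀ (by positivity)]
      linarith
    obtain ⟨u, hu⟩ := hloc1 i (a • y) (Submodule.smul_mem _ a hy) hn
    refine ⟨a⁻¹ • u, fun d hd => ?_⟩
    have h1 := hu d hd
    rw [Matrix.mulVec_smul] at h1 ⊢
    have h2 := congrArg (fun v => a⁻¹ • v) h1
    simp only [smul_add] at h2
    rw [smul_smul a⁻¹ a, inv_mul_cancel₀ ha, one_smul, smul_comm a⁻¹ (f i d)] at h2
    exact h2
  obtain ⟨x, hx⟩ := hExt cc hccont hcoc hccI hloc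
  -- contradiction
  obtain ⟨M, hM⟩ := exists_nat_ge (∑ p, ∑ q, ‖x p q‖)
  have hbig : ∀ᶠ m in (𝓤 : Filter ℕ), M ≤ m := hle (Filter.eventually_ge_atTop M)
  obtain ⟨m, hm1, hm2⟩ := ((hdiff η hη).and hbig).exists
  have hxm : ∀ p q, ‖x p q‖ ≤ m := by
    intro p q
    have h1 : ‖x p q‖ ≤ ∑ q, ‖x p q‖ :=
      Finset.single_le_sum (f := fun q => ‖x p q‖) (fun _ _ => norm_nonneg _) (Finset.mem_univ q)
    have h2 : ∑ q, ‖x p q‖ ≤ ∑ p, ∑ q, ‖x p q‖ :=
      Finset.single_le_sum (f := fun p => ∑ q, ‖x p q‖)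
        (fun _ _ => Finset.sum_nonneg fun _ _ => norm_nonneg _) (Finset.mem_univ p)
    have h3 : (M : ℝ) ≤ m := by exact_mod_cast hm2
    linarith
  obtain ⟨g, p, q, hg⟩ := hc6 m x hxm
  rw [← hx g] at hg
  exact absurd (hm1 g p q) (not_le.2 hg)

theorem t_APX : S_APX := apx Pool.Agent.H230.SM.t_LIM

end Pool.Agent.H34.RL
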