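import Pool.Agent.H499.RL.Gal

/-! Direct sums of admissible representations. -/

set_option autoImplicit false
set_option linter.all false

namespace Pool.Agent.H499.RL

open Matrix Filter Topology Module NumberField IsDedekindDomain Polynomial
open Pool.Agent.W401.Cheb (GK IsFrob IsInert)
open Pool.Agent.H499.SM Pool.Agent.H499.CM Pool.Agent.H499.PW Pool.Agent.H499.IR

theorem det_bd {R : Type} [CommRing R] {s : ℕ} {d : Fin s → ℕ} (M : ∀ i, Matrix (Fin (d i)) (Fin (d i)) R) :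
    (Matrix.blockDiagonal' M).det = ∏ i, (M i).det := by
  have h : Matrix.BlockTriangular (Matrix.blockDiagonal' M) (Sigma.fst : (Σ i : Fin s, Fin (d i)) → Fin s) :=
    Matrix.blockTriangular_blockDiagonal' M
  rw [h.det_fintype]
  refine Finset.prod_congr rfl fun k _ => ?_
  rw [← Matrix.det_submatrix_equiv_self (Equiv.sigmaSubtype k).symm]
  congr 1
  ext p q
  show Matrix.blockDiagonal' M ⟨k, p⟩ ⟨k, q⟩ = M k p q
  rw [Matrix.blockDiagonal'_apply_eq]

theorem charpoly_bd {k : Type} [Field k] {s : ℕ} {d : Fin s → ℕ} (M : ∀ i, Matrix (Fin (d i)) (Fin (d i)) k) :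
    (Matrix.blockDiagonal' M).charpoly = ∏ i, (M i).charpoly := by
  have h : Matrix.charmatrix (Matrix.blockDiagonal' M) = Matrix.blockDiagonal' fun i => Matrix.charmatrix (M i) := by
    ext ⟨i, p⟩ ⟨j, q⟩ : 2
    by_cases hij : i = j
    · subst hij
      rw [Matrix.blockDiagonal'_apply_eq, Matrix.charmatrix_apply, Matrix.charmatrix_apply,
        Matrix.blockDiagonal'_apply_eq]
      congr 1
      by_cases hpq : p = q
      · subst hpq
        rw [Matrix.diagonal_apply_eq, Matrix.diagonal_apply_eq]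
      · rw [Matrix.diagonal_apply_ne _ hpq, Matrix.diagonal_apply_ne]
        intro h
        exact hpq (by simpa using h)
    · rw [Matrix.blockDiagonal'_apply_ne _ _ _ hij, Matrix.charmatrix_apply, Matrix.blockDiagonal'_apply_ne _ _ _ hij,
        Matrix.diagonal_apply_ne, map_zero, sub_zero]
      intro h
      exact hij (congrArg Sigma.fst h)
  rw [Matrix.charpoly, h, det_bd]
  rfl

section small

variable {k : Type} [NormedField k] [IsUltrametricDist k]

/-- integral coefficients -/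
def IntP (P : k[X]) : Prop := ∀ i, ‖P.coeff i‖ ≤ 1

/-- coefficients in the maximal ideal -/
def SmP (P : k[X]) : Prop := ∀ i, ‖P.coeff i‖ < 1

theorem IntP.mul {P Q : k[X]} (hP : IntP P) (hQ : IntP Q) : IntP (P * Q) := by
  intro i
  rw [Polynomial.coeff_mul]
  refine norm_sum_le' _ _ zero_le_one fun x _ => ?_
  rw [norm_mul]
  exact mul_le_one₀ (hP _) (norm_nonneg _) (hQ _)

theorem norm_sum_lt_one {κ : Type} (t : Finset κ) (f : κ → k) (h : ∀ x ∈ t, ‖f x‖ < 1) : ‖∑ x ∈ t, f x‖ < 1 := by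
  classical
  induction t using Finset.induction_on with
  | empty =>
    rw [Finset.sum_empty, norm_zero]
    exact one_pos
  | insert a t ha ih =>
    rw [Finset.sum_insert ha]
    exact lt_of_le_of_lt (IsUltrametricDist.norm_add_le_max _ _) (max_lt (h a (Finset.mem_insert_self a t))
      (ih fun x hx => h x (Finset.mem_insert_of_mem hx)))

theorem SmP.mul {P Q : k[X]} (hP : SmP P) (hQ : IntP Q) : SmP (P * Q) := by
  intro i
  rw [Polynomial.coeff_mul]
  refine norm_sum_lt_one _ _ fun x _ => ?_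
  rw [norm_mul]
  calc ‖P.coeff x.1‖ * ‖Q.coeff x.2‖ ≤ ‖P.coeff x.1‖ * 1 := mul_le_mul_of_nonneg_left (hQ _) (norm_nonneg _)
    _ = ‖P.coeff x.1‖ := mul_one _
    _ < 1 := hP _

theorem SmP.add {P Q : k[X]} (hP : SmP P) (hQ : SmP Q) : SmP (P + Q) := by
  intro i
  rw [Polynomial.coeff_add]
  exact lt_of_le_of_lt (IsUltrametricDist.norm_add_le_max _ _) (max_lt (hP i) (hQ i))

theorem SmP.int {P : k[X]} (hP : SmP P) : IntP P := fun i => (hP i).le

theorem IntP.add {P Q : k[X]} (hP : IntP P) (hQ : IntP Q) : IntP (P + Q) := by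
  intro i
  rw [Polynomial.coeff_add]
  exact (IsUltrametricDist.norm_add_le_max _ _).trans (max_le (hP i) (hQ i))

theorem intP_one : IntP (1 : k[X]) := by
  intro i
  rw [Polynomial.coeff_one]
  split_ifs
  · rw [norm_one]
  · rw [norm_zero]
    exact zero_le_one

theorem intP_lin : IntP (X - 1 : k[X]) := by
  intro i
  rw [Polynomial.coeff_sub, Polynomial.coeff_X, Polynomial.coeff_one]
  refine (sub_le_max _ _).trans (max_le ?_ ?_)
  · split_ifs
    · rw [norm_one]
    · rw [norm_zero]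
      exact zero_le_one
  · split_ifs
    · rw [norm_one]
    · rw [norm_zero]
      exact zero_le_one

theorem intP_pow (m : ℕ) : IntP ((X - 1) ^ m : k[X]) := by
  induction m with
  | zero => rw [pow_zero]; exact intP_one
  | succ m ih => rw [pow_succ]; exact ih.mul intP_lin

theorem smP_prod {σ : Type} (t : Finset σ) (P : σ → k[X]) (d : σ → ℕ) (h : ∀ i, SmP (P i - (X - 1) ^ d i)) :
    SmP (∏ i ∈ t, P i - (X - 1) ^ ∑ i ∈ t, d i) := by
  classical
  induction t using Finset.induction_on with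
  | empty =>
    rw [Finset.prod_empty, Finset.sum_empty, pow_zero, sub_self]
    intro i
    rw [Polynomial.coeff_zero, norm_zero]
    exact one_pos
  | insert a t ha ih =>
    rw [Finset.prod_insert ha, Finset.sum_insert ha, pow_add]
    have e : P a * ∏ i ∈ t, P i - (X - 1) ^ d a * (X - 1) ^ ∑ i ∈ t, d i =
        (P a - (X - 1) ^ d a) * ∏ i ∈ t, P i + (∏ i ∈ t, P i - (X - 1) ^ ∑ i ∈ t, d i) * (X - 1) ^ d a := by ring
    rw [e]
    have h1 : IntP (∏ i ∈ t, P i) := by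
      have : ∏ i ∈ t, P i = (∏ i ∈ t, P i - (X - 1) ^ ∑ i ∈ t, d i) + (X - 1) ^ ∑ i ∈ t, d i := by ring
      rw [this]
      exact ih.int.add (intP_pow _)
    exact ((h a).mul h1).add (ih.mul (intP_pow _))

end small

variable {K : Type} [Field K] [NumberField K] {ℓ : ℕ} [Fact ℓ.Prime]

/-- the direct sum as a representation of dimension `n` -/
theorem exists_sum {S : Set (HeightOneSpectrum (𝓞 K))} {U : Subgroup (GK K)} {s : ℕ} {d : Fin s → ℕ}
    {ρ : ∀ i, GK K →* GL (Fin (d i)) (PadicAlgCl ℓ)} (hρ : ∀ i, AdmAdic S U (ρ i)) {n : ℕ} (hn : n = ∑ i, d i) :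
    ∃ ρ₀ : GK K →* GL (Fin n) (PadicAlgCl ℓ), AdmAdic S U ρ₀ ∧
      ∀ g, (mt ρ₀ g).trace = ∑ i, (mt (ρ i) g).trace := by
  classical
  have hcard : Fintype.card (Fin n) = Fintype.card (Σ i, Fin (d i)) := by
    rw [Fintype.card_fin, Fintype.card_sigma, hn]
    exact Finset.sum_congr rfl fun i _ => (Fintype.card_fin _).symm
  let e : Fin n ≃ (Σ i, Fin (d i)) := Fintype.equivOfCardEq hcard
  set R : GK K →* Matrix (Fin n) (Fin n) (PadicAlgCl ℓ) := reM e.symm (bdR fun i => mt (ρ i)) with hR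
  have hRg : ∀ g, R g = (bdR (fun i => mt (ρ i)) g).submatrix e e := fun g => rfl
  have hRc : Continuous fun g => R g := by
    refine continuous_matrix fun i j => ?_
    exact bdR_cont (fun i p q => mt_cont (hρ i).1 p q) _ _
  refine ⟨R.toHomUnits, ⟨?_, fun v hv σ hσ => ?_, fun σ hσ i => ?_⟩, fun g => ?_⟩
  · rw [Units.continuous_iff]
    refine ⟨hRc, ?_⟩
    have h1 : ∀ g, ((R.toHomUnits g)⁻¹ : GL (Fin n) (PadicAlgCl ℓ)).val = R g⁻¹ := by
      intro g
      rw [← map_inv]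
      rfl
    show Continuous fun g => ((R.toHomUnits g)⁻¹ : GL (Fin n) (PadicAlgCl ℓ)).val
    simp only [h1]
    exact hRc.comp continuous_inv
  · apply Units.ext
    show R σ = 1
    rw [hRg]
    have h1 : bdR (fun i => mt (ρ i)) σ = 1 := by
      have h2 : ∀ i, mt (ρ i) σ = 1 := by
        intro i
        rw [mt_apply, (hρ i).2.1 v hv σ hσ, Units.val_one]
      show Matrix.blockDiagonal' (fun i => mt (ρ i) σ) = 1
      simp only [h2]
      exact Matrix.blockDiagonal'_one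
    rw [h1, Matrix.submatrix_one_equiv]
  · have h1 : (R σ).charpoly = ∏ i, (mt (ρ i) σ).charpoly := by
      have h2 : R σ = Matrix.reindex e.symm e.symm (Matrix.blockDiagonal' fun i => mt (ρ i) σ) := rfl
      rw [h2, Matrix.charpoly_reindex, charpoly_bd]
    have h2 := smP_prod Finset.univ (fun i => (mt (ρ i) σ).charpoly) d (fun i => (hρ i).2.2 σ hσ) i
    have h3 : ((R.toHomUnits σ : GL (Fin n) (PadicAlgCl ℓ)) : Matrix (Fin n) (Fin n) (PadicAlgCl ℓ)) = R σ := rfl
    rw [h3, h1, hn]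
    exact h2
  · show (R g).trace = _
    rw [← bdR_trace (fun i => mt (ρ i)) g]
    show ∑ i, bdR (fun i => mt (ρ i)) g (e i) (e i) = ∑ i, bdR (fun i => mt (ρ i)) g i i
    exact Fintype.sum_equiv e _ _ fun i => rfl

/-- the traces of representations which are congruent at most places -/
theorem traces_most' {S : Set (HeightOneSpectrum (𝓞 K))} (hS : S.Finite) {s : ℕ} {d : Fin s → ℕ}
    {ρ : ∀ i, GK K →* GL (Fin (d i)) (PadicAlgCl ℓ)} (hρ : ∀ i, Continuous (ρ i)) {n : ℕ}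
    {ρ' : GK K →* GL (Fin n) (PadicAlgCl ℓ)} (hρ' : Continuous ρ') (m : ℕ) (δ : ℝ)
    (hδ : δ * ((n ^ 2 + ∑ i, d i ^ 2 : ℕ) : ℝ) < 1) (h : UpperDensityLE (fun v => v ∉ S ∧
      ¬ ∀ σ, IsFrob v σ → ‖(mt ρ' σ⁻¹).trace - ∑ i, (mt (ρ i) σ⁻¹).trace‖ ≤ ‖(ℓ : PadicAlgCl ℓ)‖ ^ m) δ)
    (σ : GK K) : ‖(mt ρ' σ).trace - ∑ i, (mt (ρ i) σ).trace‖ ≤ ‖(ℓ : PadicAlgCl ℓ)‖ ^ m := by
  obtain ⟨N', hN'⟩ := exists_model ρ' hρ'
  choose N hN using fun i => exists_model (ρ i) (hρ i)
  obtain ⟨δ', hδ', hfew⟩ := few_all hS h (by positivity) hδ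
  have hsum : ∀ τ, ((∑ i, (N i τ).trace : OO ℓ) : PadicAlgCl ℓ) = ∑ i, (mt (ρ i) τ).trace := by
    intro τ
    have h1 : ((∑ i, (N i τ).trace : OO ℓ) : PadicAlgCl ℓ) = ∑ i, (((N i τ).trace : OO ℓ) : PadicAlgCl ℓ) :=
      map_sum (algebraMap (OO ℓ) (PadicAlgCl ℓ)) _ _
    rw [h1]
    exact Finset.sum_congr rfl fun i _ => (hN i).trace τ
  have key : ∀ τ, (((redRep N' m τ : GL (Fin n) (RR ℓ m)) : Matrix (Fin n) (Fin n) (RR ℓ m)).trace =
      ∑ i, 1 * ((redRep (N i) m τ : GL (Fin (d i)) (RR ℓ m)) : Matrix (Fin (d i)) (Fin (d i)) (RR ℓ m)).trace) ↔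
      ‖(mt ρ' τ).trace - ∑ i, (mt (ρ i) τ).trace‖ ≤ ‖(ℓ : PadicAlgCl ℓ)‖ ^ m := by
    intro τ
    have h1 : ∑ i, 1 * ((redRep (N i) m τ : GL (Fin (d i)) (RR ℓ m)) : Matrix (Fin (d i)) (Fin (d i)) (RR ℓ m)).trace =
        mk m (∑ i, (N i τ).trace) := by
      rw [map_sum]
      refine Finset.sum_congr rfl fun i _ => ?_
      rw [one_mul, redRep_trace]
    rw [h1, redRep_trace, mk_eq, hN'.trace, hsum]
    rfl
  have h1 := comb_eq_galois (chain_RR m) (redRep N' m) (hN'.isOpen_ker hρ' m) (k := s) d (fun _ => 1)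
    (fun i => redRep (N i) m) (fun i => (hN i).isOpen_ker (hρ i) m) _ δ' hδ' hfew (fun v hv τ hτ => by
      push Not at hv
      exact (key _).2 (hv.2 τ hτ)) σ
  exact (key σ).1 h1

end Pool.Agent.H499.RL
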