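import Pool.Agent.H499.RL.Bas

/-! Ribet's lemma for approximations: assembly. -/

set_option autoImplicit false
set_option linter.all false

namespace Pool.Agent.H499.RL

open Matrix Filter Topology Module NumberField IsDedekindDomain
open Pool.Agent.W401.Cheb (GK IsFrob IsInert)
open Pool.Agent.H499.SM Pool.Agent.H499.CM

/-- conjugation -/
noncomputable def cjM {G k ν : Type} [Group G] [Field k] [Fintype ν] [DecidableEq ν] (X : GL ν k)
    (ρ : G →* Matrix ν ν k) : G →* Matrix ν ν k where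
  toFun g := ((X⁻¹ : GL ν k) : Matrix ν ν k) * ρ g * (X : Matrix ν ν k)
  map_one' := by
    rw [map_one, mul_one, ← Units.val_mul, inv_mul_cancel, Units.val_one]
  map_mul' g h := by
    rw [map_mul]
    have : (X : Matrix ν ν k) * ((X⁻¹ : GL ν k) : Matrix ν ν k) = 1 := by
      rw [← Units.val_mul, mul_inv_cancel, Units.val_one]
    calc _ = ((X⁻¹ : GL ν k) : Matrix ν ν k) * ρ g * 1 * (ρ h * (X : Matrix ν ν k)) := by
            rw [mul_one, mul_assoc, mul_assoc, mul_assoc]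
      _ = _ := by rw [← this]; simp only [mul_assoc]

theorem cjM_apply {G k ν : Type} [Group G] [Field k] [Fintype ν] [DecidableEq ν] (X : GL ν k)
    (ρ : G →* Matrix ν ν k) (g : G) : cjM X ρ g = ((X⁻¹ : GL ν k) : Matrix ν ν k) * ρ g * (X : Matrix ν ν k) := rfl

theorem cjM_comm {G k ν : Type} [Group G] [Field k] [Fintype ν] [DecidableEq ν] (X : GL ν k)
    (ρ : G →* Matrix ν ν k) (g : G) : ρ g * (X : Matrix ν ν k) = (X : Matrix ν ν k) * cjM X ρ g := by
  rw [cjM_apply, ← mul_assoc, ← mul_assoc, ← Units.val_mul, mul_inv_cancel, Units.val_one, one_mul]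

/-- reindexing -/
def reM {G k ν μ : Type} [Group G] [Field k] [Fintype ν] [DecidableEq ν] [Fintype μ] [DecidableEq μ] (e : ν ≃ μ)
    (ρ : G →* Matrix ν ν k) : G →* Matrix μ μ k where
  toFun g := (ρ g).submatrix e.symm e.symm
  map_one' := by rw [map_one, Matrix.submatrix_one_equiv]
  map_mul' g h := by rw [map_mul, Matrix.submatrix_mul_equiv]

/-- the decomposition of the indices -/
def splitE {s : ℕ} (d : Fin s → ℕ) (T : Fin s → Prop) [DecidablePred T] :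
    (Σ i, Fin (d i)) ≃ (Σ i : {i // ¬ T i}, Fin (d i)) ⊕ (Σ i : {i // T i}, Fin (d i)) where
  toFun x := if h : T x.1 then Sum.inr ⟨⟨x.1, h⟩, x.2⟩ else Sum.inl ⟨⟨x.1, h⟩, x.2⟩
  invFun := Sum.elim (fun x => ⟨x.1.1, x.2⟩) (fun x => ⟨x.1.1, x.2⟩)
  left_inv := by
    rintro ⟨i, p⟩
    by_cases h : T i
    · simp only [h, dif_pos]
      rfl
    · simp only [h, not_false_eq_true, dif_neg]
      rfl
  right_inv := by
    rintro (⟨⟨i, h⟩, p⟩ | ⟨⟨i, h⟩, p⟩)
    · show (if h' : T i then _ else _) = _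
      rw [dif_neg h]
      rfl
    · show (if h' : T i then _ else _) = _
      rw [dif_pos h]
      rfl

theorem splitE_inl {s : ℕ} (d : Fin s → ℕ) (T : Fin s → Prop) [DecidablePred T] (x : Σ i : {i // ¬ T i}, Fin (d i)) :
    (splitE d T).symm (Sum.inl x) = ⟨x.1.1, x.2⟩ := rfl

theorem splitE_inr {s : ℕ} (d : Fin s → ℕ) (T : Fin s → Prop) [DecidablePred T] (x : Σ i : {i // T i}, Fin (d i)) :
    (splitE d T).symm (Sum.inr x) = ⟨x.1.1, x.2⟩ := rfl

section bd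

variable {G k : Type} [Group G] [Field k] {s : ℕ} {d : Fin s → ℕ} (ρ : ∀ i, G →* Matrix (Fin (d i)) (Fin (d i)) k)

theorem bdR_sub (Q : Fin s → Prop) [DecidablePred Q] (g : G) (x y : Σ i : {i // Q i}, Fin (d i)) :
    bdR ρ g ⟨x.1.1, x.2⟩ ⟨y.1.1, y.2⟩ = bdR (fun i : {i // Q i} => ρ i) g x y := by
  obtain ⟨⟨i, hi⟩, p⟩ := x
  obtain ⟨⟨j, hj⟩, q⟩ := y
  by_cases h : i = j
  · subst h
    show Matrix.blockDiagonal' (fun i => ρ i g) ⟨i, p⟩ ⟨i, q⟩ =
      Matrix.blockDiagonal' (fun i : {i // Q i} => ρ i g) ⟨⟨i, hi⟩, p⟩ ⟨⟨i, hi⟩, q⟩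
    rw [Matrix.blockDiagonal'_apply_eq, Matrix.blockDiagonal'_apply_eq]
  · have h1 : Matrix.blockDiagonal' (fun i => ρ i g) ⟨i, p⟩ ⟨j, q⟩ = 0 :=
      Matrix.blockDiagonal'_apply_ne (fun i => ρ i g) _ _ h
    have h2 : Matrix.blockDiagonal' (fun i : {i // Q i} => ρ i g) ⟨⟨i, hi⟩, p⟩ ⟨⟨j, hj⟩, q⟩ = 0 :=
      Matrix.blockDiagonal'_apply_ne (fun i : {i // Q i} => ρ i g) _ _ (fun h' => h (congrArg Subtype.val h'))
    exact h1.trans h2.symm

theorem bdR_off {i j : Fin s} (h : i ≠ j) (g : G) (p : Fin (d i)) (q : Fin (d j)) : bdR ρ g ⟨i, p⟩ ⟨j, q⟩ = 0 :=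
  Matrix.blockDiagonal'_apply_ne (fun i => ρ i g) _ _ h

end bd

theorem bdR_trace {G k σ : Type} [Group G] [Field k] [Fintype σ] [DecidableEq σ] {d : σ → ℕ}
    (ρ : ∀ i, G →* Matrix (Fin (d i)) (Fin (d i)) k) (g : G) : (bdR ρ g).trace = ∑ i, (ρ i g).trace := by
  show (Matrix.blockDiagonal' fun i => ρ i g).trace = _
  rw [Matrix.trace_blockDiagonal']

theorem bdR_le {G k σ : Type} [Group G] [NormedField k] [Fintype σ] [DecidableEq σ] {d : σ → ℕ}
    {ρ : ∀ i, G →* Matrix (Fin (d i)) (Fin (d i)) k} (h : ∀ i g p q, ‖ρ i g p q‖ ≤ 1) (g : G)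
    (x y : Σ i, Fin (d i)) : ‖bdR ρ g x y‖ ≤ 1 := by
  obtain ⟨i, p⟩ := x
  obtain ⟨j, q⟩ := y
  by_cases hij : i = j
  · subst hij
    have h1 : bdR ρ g ⟨i, p⟩ ⟨i, q⟩ = ρ i g p q := Matrix.blockDiagonal'_apply_eq (fun i => ρ i g) _ _ _
    rw [h1]
    exact h i g p q
  · have h1 : bdR ρ g ⟨i, p⟩ ⟨j, q⟩ = 0 := Matrix.blockDiagonal'_apply_ne (fun i => ρ i g) _ _ hij
    rw [h1, norm_zero]
    exact zero_le_one

theorem bdR_cont {G k σ : Type} [Group G] [TopologicalSpace G] [NormedField k] [Fintype σ] [DecidableEq σ] {d : σ → ℕ}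
    {ρ : ∀ i, G →* Matrix (Fin (d i)) (Fin (d i)) k} (h : ∀ i p q, Continuous fun g => ρ i g p q)
    (x y : Σ i, Fin (d i)) : Continuous fun g => bdR ρ g x y := by
  obtain ⟨i, p⟩ := x
  obtain ⟨j, q⟩ := y
  by_cases hij : i = j
  · subst hij
    have h1 : ∀ g, bdR ρ g ⟨i, p⟩ ⟨i, q⟩ = ρ i g p q := fun g =>
      Matrix.blockDiagonal'_apply_eq (fun i => ρ i g) _ _ _
    simp only [h1]
    exact h i p q
  · have h1 : ∀ g, bdR ρ g ⟨i, p⟩ ⟨j, q⟩ = 0 := fun g =>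
      Matrix.blockDiagonal'_apply_ne (fun i => ρ i g) _ _ hij
    simp only [h1]
    exact continuous_const

variable {K : Type} [Field K] [NumberField K] {ℓ : ℕ} [Fact ℓ.Prime]

theorem map_bdR {E : IntermediateField ℚ_[ℓ] (PadicAlgCl ℓ)} {G σ : Type} [Group G] [Fintype σ] [DecidableEq σ]
    {d : σ → ℕ} (ρ : ∀ i, G →* Matrix (Fin (d i)) (Fin (d i)) (PadicAlgCl ℓ)) (h : ∀ i g p q, ρ i g p q ∈ E) (g : G) :
    bdR ρ g = (bdR (fun i => resM (ρ i) E (h i)) g).map (algebraMap E (PadicAlgCl ℓ)) := by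
  ext ⟨i, p⟩ ⟨j, q⟩
  by_cases hij : i = j
  · subst hij
    have h1 : bdR ρ g ⟨i, p⟩ ⟨i, q⟩ = ρ i g p q := Matrix.blockDiagonal'_apply_eq (fun i => ρ i g) _ _ _
    have h2 : bdR (fun i => resM (ρ i) E (h i)) g ⟨i, p⟩ ⟨i, q⟩ = resM (ρ i) E (h i) g p q :=
      Matrix.blockDiagonal'_apply_eq (fun i => resM (ρ i) E (h i) g) _ _ _
    rw [Matrix.map_apply, h1, h2]
    rfl
  · have h1 : bdR ρ g ⟨i, p⟩ ⟨j, q⟩ = 0 := Matrix.blockDiagonal'_apply_ne (fun i => ρ i g) _ _ hij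
    have h2 : bdR (fun i => resM (ρ i) E (h i)) g ⟨i, p⟩ ⟨j, q⟩ = 0 :=
      Matrix.blockDiagonal'_apply_ne (fun i => resM (ρ i) E (h i) g) _ _ hij
    rw [Matrix.map_apply, h1, h2, map_zero]

theorem finrank_eig_map (hKER : S_KER) {G ν : Type} [Fintype ν] [DecidableEq ν] {E L : Type} [NormedField E]
    [NormedField L] [NormedAlgebra E L] (A : G → Matrix ν ν E) (A' : G → Matrix ν ν L)
    (hA : ∀ g, A' g = (A g).map (algebraMap E L)) (D : Set G) (f : G → E) (f' : G → L)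
    (hf : ∀ d ∈ D, f' d = algebraMap E L (f d)) : finrank E (eig A D f) = finrank L (eig A' D f') := by
  refine hKER E L D ν (fun d => A d - (f d) • (1 : Matrix ν ν E)) _ _ (fun x => ?_) fun x => ?_
  · constructor
    · intro h d
      rw [Matrix.sub_mulVec, Matrix.smul_mulVec, Matrix.one_mulVec, h d d.2, sub_self]
    · intro h d hd
      have := h ⟨d, hd⟩
      rw [Matrix.sub_mulVec, Matrix.smul_mulVec, Matrix.one_mulVec] at this
      exact sub_eq_zero.1 this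
  · have e : ∀ d : D, (A d - (f d) • (1 : Matrix ν ν E)).map (algebraMap E L) = A' d - f' d • (1 : Matrix ν ν L) := by
      intro d
      rw [hA, hf d d.2]
      ext i j
      rw [Matrix.map_apply, Matrix.sub_apply, Matrix.sub_apply, Matrix.smul_apply, Matrix.smul_apply, map_sub,
        Matrix.map_apply, smul_eq_mul, smul_eq_mul, map_mul, Matrix.one_apply, Matrix.one_apply]
      split_ifs
      · rw [map_one]
      · rw [map_zero]
    constructor
    · intro h d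
      rw [e, Matrix.sub_mulVec, Matrix.smul_mulVec, Matrix.one_mulVec, h d d.2, sub_self]
    · intro h d hd
      have := h ⟨d, hd⟩
      rw [e, Matrix.sub_mulVec, Matrix.smul_mulVec, Matrix.one_mulVec] at this
      exact sub_eq_zero.1 this

end Pool.Agent.H499.RL
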