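import Pool.Agent.H499.RL.Stm
import Pool.Agent.H499.SM.FinE

/-! Ribet's lemma for approximations: auxiliary facts on eigenvectors, change of fields, reindexing. -/

set_option autoImplicit false
set_option linter.all false

namespace Pool.Agent.H499.RL

open Matrix Filter Topology Module NumberField IsDedekindDomain
open Pool.Agent.W401.Cheb (GK IsFrob IsInert)
open Pool.Agent.H499.SM Pool.Agent.H499.CM

section general

variable {G k ν μ : Type} [Field k] [Fintype ν] [DecidableEq ν] [Fintype μ] [DecidableEq μ]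

theorem mem_eig {A : G → Matrix ν ν k} {D : Set G} {f : G → k} {x : ν → k} :
    x ∈ eig A D f ↔ ∀ d ∈ D, A d *ᵥ x = f d • x := Iff.rfl

/-- the eigenvectors of intertwined matrices -/
theorem finrank_eig_conj {A A' : G → Matrix ν ν k} {X : GL ν k} {D : Set G} {f : G → k}
    (h : ∀ g, A g * (X : Matrix ν ν k) = (X : Matrix ν ν k) * A' g) :
    finrank k (eig A' D f) = finrank k (eig A D f) := by
  have hXX : (X : Matrix ν ν k) * ((X⁻¹ : GL ν k) : Matrix ν ν k) = 1 := by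
    rw [← Units.val_mul, mul_inv_cancel, Units.val_one]
  have hXX' : ((X⁻¹ : GL ν k) : Matrix ν ν k) * (X : Matrix ν ν k) = 1 := by
    rw [← Units.val_mul, inv_mul_cancel, Units.val_one]
  have h' : ∀ g, A' g * ((X⁻¹ : GL ν k) : Matrix ν ν k) = ((X⁻¹ : GL ν k) : Matrix ν ν k) * A g := by
    intro g
    calc A' g * ((X⁻¹ : GL ν k) : Matrix ν ν k) =
        ((X⁻¹ : GL ν k) : Matrix ν ν k) * ((X : Matrix ν ν k) * A' g) * ((X⁻¹ : GL ν k) : Matrix ν ν k) := by
          rw [← mul_assoc, hXX', one_mul]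
      _ = _ := by rw [← h g, mul_assoc, mul_assoc, hXX, mul_one]
  refine LinearEquiv.finrank_eq (LinearEquiv.ofLinear
    (((Matrix.toLin' (X : Matrix ν ν k)).domRestrict (eig A' D f)).codRestrict (eig A D f) ?_)
    (((Matrix.toLin' ((X⁻¹ : GL ν k) : Matrix ν ν k)).domRestrict (eig A D f)).codRestrict (eig A' D f) ?_) ?_ ?_)
  · rintro ⟨x, hx⟩ d hd
    rw [LinearMap.domRestrict_apply, Matrix.toLin'_apply, Matrix.mulVec_mulVec, h, ← Matrix.mulVec_mulVec, hx d hd,
      Matrix.mulVec_smul]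
  · rintro ⟨x, hx⟩ d hd
    rw [LinearMap.domRestrict_apply, Matrix.toLin'_apply, Matrix.mulVec_mulVec, h', ← Matrix.mulVec_mulVec, hx d hd,
      Matrix.mulVec_smul]
  · ext x : 2
    show (Matrix.toLin' (X : Matrix ν ν k)) ((Matrix.toLin' ((X⁻¹ : GL ν k) : Matrix ν ν k)) x.1) = x.1
    rw [Matrix.toLin'_apply, Matrix.toLin'_apply, Matrix.mulVec_mulVec, hXX, Matrix.one_mulVec]
  · ext x : 2
    show (Matrix.toLin' ((X⁻¹ : GL ν k) : Matrix ν ν k)) ((Matrix.toLin' (X : Matrix ν ν k)) x.1) = x.1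
    rw [Matrix.toLin'_apply, Matrix.toLin'_apply, Matrix.mulVec_mulVec, hXX', Matrix.one_mulVec]

theorem submatrix_mulVec_equiv' (M : Matrix ν ν k) (e : ν ≃ μ) (x : μ → k) :
    (M.submatrix e.symm e.symm) *ᵥ x = fun i => (M *ᵥ (fun j => x (e j))) (e.symm i) := by
  funext i
  rw [Matrix.mulVec, Matrix.mulVec, dotProduct, dotProduct]
  refine Fintype.sum_equiv e.symm _ _ fun j => ?_
  rw [Matrix.submatrix_apply, Equiv.apply_symm_apply]

/-- the eigenvectors after a change of the indices -/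
theorem finrank_eig_reindex (A : G → Matrix ν ν k) (D : Set G) (f : G → k) (e : ν ≃ μ) :
    finrank k (eig (fun g => (A g).submatrix e.symm e.symm) D f) = finrank k (eig A D f) := by
  let T : (μ → k) ≃ₗ[k] (ν → k) := LinearEquiv.funCongrLeft k k e
  have hT : ∀ x i, T x i = x (e i) := fun x i => rfl
  have h1 : ∀ x, x ∈ eig (fun g => (A g).submatrix e.symm e.symm) D f ↔ T x ∈ eig A D f := by
    intro x
    constructor
    · intro hx d hd
      have h2 := hx d hd
      rw [submatrix_mulVec_equiv'] at h2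
      funext i
      have h3 := congrFun h2 (e i)
      rw [Equiv.symm_apply_apply] at h3
      exact h3
    · intro hx d hd
      show (A d).submatrix e.symm e.symm *ᵥ x = f d • x
      rw [submatrix_mulVec_equiv']
      funext i
      have h3 := congrFun (hx d hd) (e.symm i)
      show (A d *ᵥ (fun j => x (e j))) (e.symm i) = f d * x i
      have h4 : (A d *ᵥ (fun j => x (e j))) (e.symm i) = (f d • T x) (e.symm i) := h3
      rw [h4, Pi.smul_apply, hT, Equiv.apply_symm_apply, smul_eq_mul]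
  have h2 : eig (fun g => (A g).submatrix e.symm e.symm) D f = (eig A D f).comap (T : (μ → k) →ₗ[k] (ν → k)) := by
    ext x
    exact h1 x
  rw [h2]
  exact (Submodule.comap_equiv_eq_map_symm T (eig A D f) ▸ LinearEquiv.finrank_map_eq T.symm (eig A D f))

/-- the eigenvectors of a direct sum -/
theorem finrank_eig_bdR {G : Type} [Group G] {σ : Type} [Fintype σ] [DecidableEq σ] {d : σ → ℕ}
    (ρ : ∀ i, G →* Matrix (Fin (d i)) (Fin (d i)) k) (D : Set G) (f : G → k) :
    finrank k (eig (fun g => bdR ρ g) D f) = ∑ i, finrank k (eig (fun g => ρ i g) D f) := by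
  have hmul : ∀ g (x : (Σ i, Fin (d i)) → k) i p, (bdR ρ g *ᵥ x) ⟨i, p⟩ = (ρ i g *ᵥ fun q => x ⟨i, q⟩) p := by
    intro g x i p
    rw [Matrix.mulVec, Matrix.mulVec, dotProduct, dotProduct, Fintype.sum_sigma]
    rw [Finset.sum_eq_single i]
    · refine Finset.sum_congr rfl fun q _ => ?_
      congr 1
      show Matrix.blockDiagonal' (fun i => ρ i g) ⟨i, p⟩ ⟨i, q⟩ = _
      rw [Matrix.blockDiagonal'_apply_eq]
    · intro j _ hj
      refine Finset.sum_eq_zero fun q _ => ?_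
      have : bdR ρ g ⟨i, p⟩ ⟨j, q⟩ = 0 := Matrix.blockDiagonal'_apply_ne (fun i => ρ i g) _ _ (Ne.symm hj)
      rw [this, zero_mul]
    · intro h
      exact absurd (Finset.mem_univ i) h
  let T : (∀ i, eig (fun g => ρ i g) D f) ≃ₗ[k] eig (fun g => bdR ρ g) D f :=
    { toFun := fun y => ⟨fun x => (y x.1 : Fin (d x.1) → k) x.2, by
        intro g hg
        funext x
        obtain ⟨i, p⟩ := x
        rw [hmul]
        exact congrFun ((y i).2 g hg) p⟩
      map_add' := fun y z => rfl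
      map_smul' := fun a y => rfl
      invFun := fun y i => ⟨fun p => y.1 ⟨i, p⟩, by
        intro g hg
        funext p
        have := congrFun (y.2 g hg) ⟨i, p⟩
        rw [hmul] at this
        exact this⟩
      left_inv := fun y => rfl
      right_inv := fun y => rfl }
  rw [← T.finrank_eq, Module.finrank_pi_fintype]

end general

section fields

variable {ℓ : ℕ} [Fact ℓ.Prime] {ν : Type} [Fintype ν] [DecidableEq ν]

/-- restriction of the field of coefficients of a homomorphism -/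
noncomputable def resM {G : Type} [Group G] (ρ : G →* Matrix ν ν (PadicAlgCl ℓ))
    (E : IntermediateField ℚ_[ℓ] (PadicAlgCl ℓ)) (h : ∀ g i j, ρ g i j ∈ E) : G →* Matrix ν ν E where
  toFun g := Matrix.of fun i j => ⟨ρ g i j, h g i j⟩
  map_one' := by
    ext i j
    show ρ 1 i j = ((1 : Matrix ν ν E) i j : PadicAlgCl ℓ)
    rw [map_one, Matrix.one_apply, Matrix.one_apply]
    split_ifs <;> rfl
  map_mul' g g' := by
    ext i j
    show ρ (g * g') i j = ((∑ k, (⟨ρ g i k, h g i k⟩ : E) * ⟨ρ g' k j, h g' k j⟩ : E) : PadicAlgCl ℓ)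
    rw [map_mul, Matrix.mul_apply, IntermediateField.coe_sum]
    rfl

theorem resM_coe {G : Type} [Group G] (ρ : G →* Matrix ν ν (PadicAlgCl ℓ))
    (E : IntermediateField ℚ_[ℓ] (PadicAlgCl ℓ)) (h : ∀ g i j, ρ g i j ∈ E) (g : G) (i j : ν) :
    ((resM ρ E h g i j : E) : PadicAlgCl ℓ) = ρ g i j := rfl

theorem resM_map {G : Type} [Group G] (ρ : G →* Matrix ν ν (PadicAlgCl ℓ))
    (E : IntermediateField ℚ_[ℓ] (PadicAlgCl ℓ)) (h : ∀ g i j, ρ g i j ∈ E) (g : G) :
    (resM ρ E h g).map (algebraMap E (PadicAlgCl ℓ)) = ρ g := by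
  ext i j
  rfl

/-- finitely many elements are in one finite extension -/
theorem exists_field_fin {ι : Type} [Finite ι] (z : ι → PadicAlgCl ℓ) :
    ∃ E : IntermediateField ℚ_[ℓ] (PadicAlgCl ℓ), FiniteDimensional ℚ_[ℓ] E ∧ ∀ i, z i ∈ E := by
  refine ⟨IntermediateField.adjoin ℚ_[ℓ] (Set.range z), ?_, fun i =>
    IntermediateField.subset_adjoin _ _ ⟨i, rfl⟩⟩
  haveI : Finite (Set.range z) := Set.finite_range _
  refine IntermediateField.finiteDimensional_adjoin fun x _ => ?_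
  exact (Algebra.IsAlgebraic.isAlgebraic (R := ℚ_[ℓ]) x).isIntegral

/-- one finite extension for finitely many conditions -/
theorem exists_field_all {ι : Type} [Finite ι] (P : ι → IntermediateField ℚ_[ℓ] (PadicAlgCl ℓ) → Prop)
    (hmono : ∀ i E E', E ≤ E' → P i E → P i E')
    (h : ∀ i, ∃ E : IntermediateField ℚ_[ℓ] (PadicAlgCl ℓ), FiniteDimensional ℚ_[ℓ] E ∧ P i E) :
    ∃ E : IntermediateField ℚ_[ℓ] (PadicAlgCl ℓ), FiniteDimensional ℚ_[ℓ] E ∧ ∀ i, P i E := by
  choose E hE hP using h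
  haveI := hE
  refine ⟨⨆ i, E i, IntermediateField.finiteDimensional_iSup_of_finite, fun i => hmono i _ _ (le_iSup E i) (hP i)⟩

/-- the eigenvalues of an eigenvector are in a finite extension -/
theorem exists_field_eig {G : Type} [Group G] {ρ : G →* Matrix ν ν (PadicAlgCl ℓ)}
    (hρ : ∃ E : IntermediateField ℚ_[ℓ] (PadicAlgCl ℓ), FiniteDimensional ℚ_[ℓ] E ∧ ∀ g i j, ρ g i j ∈ E)
    {D : Set G} {f : G → PadicAlgCl ℓ} {x : ν → PadicAlgCl ℓ} (hx : x ∈ eig (fun g => ρ g) D f) (hx0 : x ≠ 0) :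
    ∃ E : IntermediateField ℚ_[ℓ] (PadicAlgCl ℓ), FiniteDimensional ℚ_[ℓ] E ∧ ∀ d ∈ D, f d ∈ E := by
  obtain ⟨E, hE, h1⟩ := hρ
  obtain ⟨E', hE', h2⟩ := exists_field_fin x
  obtain ⟨i, hi⟩ := Function.ne_iff.1 hx0
  haveI := hE
  haveI := hE'
  refine ⟨E ⊔ E', IntermediateField.finiteDimensional_sup E E', fun d hd => ?_⟩
  have h3 := congrFun (hx d hd) i
  have h4 : f d = (ρ d *ᵥ x) i / x i := by
    rw [h3, Pi.smul_apply, smul_eq_mul, mul_div_assoc, div_self hi, mul_one]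
  rw [h4]
  refine div_mem ?_ ((le_sup_right : E' ≤ E ⊔ E') (h2 i))
  show ∑ j, ρ d i j * x j ∈ E ⊔ E'
  exact sum_mem fun j _ => mul_mem ((le_sup_left : E ≤ E ⊔ E') (h1 d i j)) ((le_sup_right : E' ≤ E ⊔ E') (h2 j))

theorem norm_eig_le {G : Type} [Group G] {ρ : G →* Matrix ν ν (PadicAlgCl ℓ)} (h1 : ∀ g i j, ‖ρ g i j‖ ≤ 1)
    {D : Set G} {f : G → PadicAlgCl ℓ} {x : ν → PadicAlgCl ℓ} (hx : x ∈ eig (fun g => ρ g) D f) (hx0 : x ≠ 0)
    {d : G} (hd : d ∈ D) : ‖f d‖ ≤ 1 := by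
  have h2 : ‖ρ d *ᵥ x‖ ≤ ‖x‖ := by
    rw [pi_norm_le_iff_of_nonneg (norm_nonneg _)]
    intro i
    rw [Matrix.mulVec, dotProduct]
    refine norm_sum_le' _ _ (norm_nonneg _) fun j _ => ?_
    rw [norm_mul]
    calc ‖ρ d i j‖ * ‖x j‖ ≤ 1 * ‖x‖ := mul_le_mul (h1 d i j) (norm_le_pi_norm x j) (norm_nonneg _) zero_le_one
      _ = ‖x‖ := one_mul _
  have h3 : ρ d *ᵥ x = f d • x := hx d hd
  rw [h3, norm_smul] at h2
  exact le_of_mul_le_mul_right (h2.trans (one_mul _).ge) (norm_pos_iff.2 hx0)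

end fields

end Pool.Agent.H499.RL
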