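import Pool.Agent.H499.RL.Asm

/-! Ribet's lemma for approximations: the core theorem. -/

set_option autoImplicit false
set_option linter.all false

namespace Pool.Agent.H499.RL

open Matrix Filter Topology Module NumberField IsDedekindDomain
open Pool.Agent.W401.Cheb (GK IsFrob IsInert)
open Pool.Agent.H499.SM Pool.Agent.H499.CM

variable {K : Type} [Field K] [NumberField K] {ℓ : ℕ} [Fact ℓ.Prime]

/-- values in a finite extension of `ℚ_ℓ` -/
def FinOn {G : Type} (D : Set G) (f : G → PadicAlgCl ℓ) : Prop :=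
  ∃ E : IntermediateField ℚ_[ℓ] (PadicAlgCl ℓ), FiniteDimensional ℚ_[ℓ] E ∧ ∀ d ∈ D, f d ∈ E

theorem finish {G ν α β : Type} [Group G] [Fintype ν] [DecidableEq ν] [Fintype α] [DecidableEq α] [Fintype β]
    [DecidableEq β] {k : Type} [Field k] (R : G →* Matrix ν ν k) (X : GL ν k) (e : ν ≃ α ⊕ β)
    (R₂ : G →* Matrix (α ⊕ β) (α ⊕ β) k) (hR₂ : R₂ = reM e (cjM X R)) (Y : Matrix α β k)
    (hY : ∀ g, (R₂ g).toBlocks₁₁ * Y + (R₂ g).toBlocks₁₂ = Y * ((R₂ g).toBlocks₂₁ * Y + (R₂ g).toBlocks₂₂)) :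
    ∃ J : Matrix ν β k, (∀ x, J *ᵥ x = 0 → x = 0) ∧
      ∀ g, R g * J = J * ((R₂ g).toBlocks₂₁ * Y + (R₂ g).toBlocks₂₂) := by
  set J₂ : Matrix (α ⊕ β) β k := Matrix.fromRows Y 1 with hJ₂
  have hJ₂R : ∀ g, R₂ g * J₂ = J₂ * ((R₂ g).toBlocks₂₁ * Y + (R₂ g).toBlocks₂₂) := by
    intro g
    have h1 : R₂ g = Matrix.fromBlocks (R₂ g).toBlocks₁₁ (R₂ g).toBlocks₁₂ (R₂ g).toBlocks₂₁ (R₂ g).toBlocks₂₂ :=
      (Matrix.fromBlocks_toBlocks _).symm
    rw [hJ₂, Matrix.fromRows_mul, Matrix.one_mul, ← hY g]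
    conv_lhs => rw [h1]
    rw [Matrix.fromBlocks_mul_fromRows, Matrix.mul_one, Matrix.mul_one]
  refine ⟨(X : Matrix ν ν k) * J₂.submatrix e id, fun x hx => ?_, fun g => ?_⟩
  · have h1 : J₂.submatrix e id *ᵥ x = 0 := by
      have h2 := congrArg (fun v => ((X⁻¹ : GL ν k) : Matrix ν ν k) *ᵥ v) hx
      rw [Matrix.mulVec_mulVec, ← Matrix.mul_assoc, ← Units.val_mul, inv_mul_cancel, Units.val_one, Matrix.one_mul,
        Matrix.mulVec_zero] at h2
      exact h2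
    funext b
    have h3 := congrFun h1 (e.symm (Sum.inr b))
    have h4 : (J₂.submatrix e id *ᵥ x) (e.symm (Sum.inr b)) = x b := by
      show ∑ j, J₂ (e (e.symm (Sum.inr b))) j * x j = x b
      rw [Equiv.apply_symm_apply]
      have h5 : ∀ j, J₂ (Sum.inr b) j = (1 : Matrix β β k) b j := fun j => rfl
      simp only [h5]
      exact congrFun (Matrix.one_mulVec x) b
    rw [h4] at h3
    exact h3
  · have h1 : cjM X R g * J₂.submatrix e id = (R₂ g * J₂).submatrix e id := by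
      have h2 : cjM X R g = (R₂ g).submatrix e e := by
        rw [hR₂]
        ext i j
        show cjM X R g i j = cjM X R g (e.symm (e i)) (e.symm (e j))
        rw [Equiv.symm_apply_apply, Equiv.symm_apply_apply]
      rw [h2, Matrix.submatrix_mul_equiv]
    rw [← Matrix.mul_assoc, cjM_comm X R g, Matrix.mul_assoc, Matrix.mul_assoc]
    congr 1
    rw [h1, hJ₂R g]
    rfl

theorem trace_near {α β : Type} [Fintype α] [Fintype β] {k : Type} [NormedField k]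
    [IsUltrametricDist k] (c : Matrix β α k) (Y : Matrix α β k) (a b : Matrix β β k) {γ C t : ℝ} (hγ : 0 ≤ γ)
    (hC : 1 ≤ C) (ht : C * γ ≤ t) (h1 : ∀ p q, ‖c p q‖ ≤ γ) (h2 : ∀ p q, ‖Y p q‖ ≤ C)
    (h3 : ∀ p q, ‖a p q - b p q‖ ≤ γ) : ‖(c * Y + a).trace - b.trace‖ ≤ t := by
  have ht0 : 0 ≤ t := (mul_nonneg (zero_le_one.trans hC) hγ).trans ht
  have h4 : (c * Y + a).trace - b.trace = ∑ p : β, ((c * Y) p p + (a p p - b p p)) := by
    rw [Matrix.trace, Matrix.trace, ← Finset.sum_sub_distrib]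
    refine Finset.sum_congr rfl fun p _ => ?_
    rw [Matrix.diag_apply, Matrix.add_apply, add_sub_assoc, Matrix.diag_apply]
  rw [h4]
  refine norm_sum_le' _ _ ht0 fun p _ => ?_
  refine (IsUltrametricDist.norm_add_le_max _ _).trans (max_le ?_ ?_)
  · rw [Matrix.mul_apply]
    refine norm_sum_le' _ _ ht0 fun q _ => ?_
    rw [norm_mul]
    calc ‖c p q‖ * ‖Y q p‖ ≤ γ * C := mul_le_mul (h1 p q) (h2 q p) (norm_nonneg _) hγ
      _ = C * γ := mul_comm _ _
      _ ≤ t := ht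
  · refine (h3 p p).trans (le_trans ?_ ht)
    exact le_mul_of_one_le_left hγ hC

theorem core (hND : S_ND) (hSTEP : S_STEP) (hITER : S_ITER) (hKER : S_KER) (hDSC : S_DSC) (hDIR : S_DIR)
    {S : Set (HeightOneSpectrum (𝓞 K))} (hS : S.Finite) {s : ℕ} {d : Fin s → ℕ}
    (ρ : ∀ i, GK K →* Matrix (Fin (d i)) (Fin (d i)) (PadicAlgCl ℓ))
    (hcont : ∀ i p q, Continuous fun g => ρ i g p q) (hint : ∀ i g p q, ‖ρ i g p q‖ ≤ 1)
    (hspan : ∀ i, Submodule.span (PadicAlgCl ℓ) (Set.range fun g => ρ i g) = ⊤)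
    {ι : Type} [Finite ι] (D : ι → Set (GK K)) (f : ι → GK K → PadicAlgCl ℓ)
    (hfE : ∀ i, FinOn (D i) (f i)) (hf1 : ∀ i, ∀ g ∈ D i, ‖f i g‖ ≤ 1)
    (T : Fin s → Prop) [DecidablePred T]
    (hext : ∀ i j, ¬ T i → T j → ExtZero (ρ i) (ρ j) (Inr S) D f) {t : ℝ} (ht : 0 < t) :
    ∃ ε : ℝ, 0 < ε ∧ ∀ R : GK K →* Matrix (Σ i, Fin (d i)) (Σ i, Fin (d i)) (PadicAlgCl ℓ),
      (∀ p q, Continuous fun g => R g p q) → (∀ g p q, ‖R g p q‖ ≤ 1) → (∀ g ∈ Inr S, R g = 1) →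
      (∀ g, ‖(R g).trace - ∑ i, (ρ i g).trace‖ ≤ ε) →
      ∀ f' : ι → GK K → PadicAlgCl ℓ, (∀ i, FinOn (D i) (f' i)) → (∀ i, ∀ g ∈ D i, ‖f' i g - f i g‖ ≤ ε) →
      (∀ i, ∑ j, finrank (PadicAlgCl ℓ) (eig (fun g => ρ j g) (D i) (f i)) ≤
        finrank (PadicAlgCl ℓ) (eig (fun g => R g) (D i) (f' i))) →
      ∃ (J : Matrix (Σ i, Fin (d i)) (Σ j : {j // T j}, Fin (d j)) (PadicAlgCl ℓ))
        (δ : GK K → Matrix (Σ j : {j // T j}, Fin (d j)) (Σ j : {j // T j}, Fin (d j)) (PadicAlgCl ℓ)),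
        (∀ x, J *ᵥ x = 0 → x = 0) ∧ (∀ g, R g * J = J * δ g) ∧
        ∀ g, ‖(δ g).trace - ∑ j : {j // T j}, (ρ j g).trace‖ ≤ t := by
  classical
  -- the field `E`
  obtain ⟨E₁, hE₁, hE₁ρ⟩ := exists_field_all (fun i E => ∀ g p q, ρ i g p q ∈ E)
    (fun i E E' h hP g p q => h (hP g p q)) fun i => fin_entries (ρ i) (hcont i)
  obtain ⟨E₂, hE₂, hE₂f⟩ := exists_field_all (fun i E => ∀ g ∈ D i, f i g ∈ E)
    (fun i E E' h hP g hg => h (hP g hg)) hfE
  haveI := hE₁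
  haveI := hE₂
  set E : IntermediateField ℚ_[ℓ] (PadicAlgCl ℓ) := E₁ ⊔ E₂ with hE
  haveI hEfd : FiniteDimensional ℚ_[ℓ] E := IntermediateField.finiteDimensional_sup E₁ E₂
  have hρE : ∀ i g p q, ρ i g p q ∈ E := fun i g p q => (le_sup_left : E₁ ≤ E) (hE₁ρ i g p q)
  have hfE' : ∀ i, ∀ g ∈ D i, f i g ∈ E := fun i g hg => (le_sup_right : E₂ ≤ E) (hE₂f i g hg)
  set ρE : ∀ i, GK K →* Matrix (Fin (d i)) (Fin (d i)) E := fun i => resM (ρ i) E (hρE i) with hρEd
  set fE : ι → GK K → E := fun i g => if h : f i g ∈ E then ⟨f i g, h⟩ else 0 with hfEd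
  have hfEv : ∀ i, ∀ g ∈ D i, f i g = algebraMap E (PadicAlgCl ℓ) (fE i g) := by
    intro i g hg
    rw [hfEd]
    simp only
    rw [dif_pos (hfE' i g hg)]
    rfl
  set A : GK K →* Matrix (Σ i : {i // ¬ T i}, Fin (d i)) (Σ i : {i // ¬ T i}, Fin (d i)) E :=
    bdR fun i : {i // ¬ T i} => ρE i with hA
  set B : GK K →* Matrix (Σ i : {i // T i}, Fin (d i)) (Σ i : {i // T i}, Fin (d i)) E :=
    bdR fun i : {i // T i} => ρE i with hB
  have hExt : ExtZero A B (Inr S) D fE := by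
    refine hDSC E (PadicAlgCl ℓ) (GK K) _ _ ι A B (bdR fun i : {i // ¬ T i} => ρ i) (bdR fun i : {i // T i} => ρ i)
      (Inr S) D fE f (fun g => map_bdR (fun i : {i // ¬ T i} => ρ i) (fun i => hρE i) g)
      (fun g => map_bdR (fun i : {i // T i} => ρ i) (fun i => hρE i) g)
      (fun i g hg => hfEv i g hg) ?_
    exact hDIR (PadicAlgCl ℓ) (GK K) _ _ ι _ _ _ _ (Inr S) D f fun i j => hext i j i.2 j.2
  have hEcont : ∀ i p q, Continuous fun g => ρE i g p q := fun i p q => (hcont i p q).subtype_mk _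
  have hEint : ∀ i g p q, ‖ρE i g p q‖ ≤ 1 := fun i g p q => hint i g p q
  have hϖ0 : 0 < ‖(ℓ : PadicAlgCl ℓ)‖ := norm_ell_pos
  have hϖ1 : ‖(ℓ : PadicAlgCl ℓ)‖ < 1 := norm_ell_lt
  obtain ⟨γ, hγ, C, hC, hstep⟩ := hSTEP E (GK K) (Inr S) (hmfin S hS) _ _ ι A B D fE
    (bdR_le fun i => hEint i) (bdR_le fun i => hEint i) (bdR_cont fun i => hEcont i) (bdR_cont fun i => hEcont i)
    (fun i g hg => by
      have h1 := hf1 i g hg
      rw [hfEv i g hg] at h1
      exact h1) hExt ‖(ℓ : PadicAlgCl ℓ)‖ hϖ0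
  have hC0 : 0 < C := lt_of_lt_of_le one_pos hC
  set γ₁ : ℝ := min (min γ ‖(ℓ : PadicAlgCl ℓ)‖ / C ^ 3) (t / C) with hγ₁
  have hγ₁0 : 0 < γ₁ := lt_min (div_pos (lt_min hγ hϖ0) (pow_pos hC0 3)) (div_pos ht hC0)
  have hγ₁a : γ₁ ≤ min γ ‖(ℓ : PadicAlgCl ℓ)‖ / C ^ 3 := min_le_left _ _
  have hC3 : min γ ‖(ℓ : PadicAlgCl ℓ)‖ / C ^ 3 ≤ min γ ‖(ℓ : PadicAlgCl ℓ)‖ :=
    div_le_self (lt_min hγ hϖ0).le (one_le_pow₀ hC)
  have hγ₁γ : γ₁ ≤ γ := hγ₁a.trans (hC3.trans (min_le_left _ _))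
  have hγ₁1 : γ₁ ≤ 1 := hγ₁a.trans (hC3.trans ((min_le_right _ _).trans hϖ1.le))
  have hγ₁t : C * γ₁ ≤ t := by
    have h1 : γ₁ ≤ t / C := min_le_right _ _
    calc C * γ₁ ≤ C * (t / C) := mul_le_mul_of_nonneg_left h1 hC0.le
      _ = t := mul_div_cancel₀ _ hC0.ne'
  obtain ⟨ε₁, hε₁, hnd⟩ := hND (PadicAlgCl ℓ) ⟨(ℓ : PadicAlgCl ℓ), hϖ0, hϖ1⟩ (GK K) (Fin s) d ρ hint hspan γ₁ hγ₁0
  refine ⟨min ε₁ γ, lt_min hε₁ hγ, fun R hRc hRi hRI htr f' hf'E hf'f hdim => ?_⟩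
  obtain ⟨X, hX⟩ := hnd R hRi fun g => (htr g).trans (min_le_left _ _)
  set R₁ := cjM X R with hR₁
  set e := splitE d T with he
  set R₂ := reM e R₁ with hR₂
  have hR₁c : ∀ p q, Continuous fun g => R₁ g p q := by
    intro p q
    have h2 : Continuous fun g => R g := continuous_matrix hRc
    have h3 : Continuous fun g => R₁ g := (continuous_const.matrix_mul h2).matrix_mul continuous_const
    exact h3.matrix_elem p q
  have hR₂c : ∀ p q, Continuous fun g => R₂ g p q := fun p q => hR₁c _ _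
  have hR₁I : ∀ g ∈ Inr S, R₁ g = 1 := by
    intro g hg
    rw [hR₁, cjM_apply, hRI g hg, mul_one, ← Units.val_mul, inv_mul_cancel, Units.val_one]
  have hR₂I : ∀ g ∈ Inr S, R₂ g = 1 := by
    intro g hg
    show (R₁ g).submatrix e.symm e.symm = 1
    rw [hR₁I g hg, Matrix.submatrix_one_equiv]
  -- the field `F`
  obtain ⟨F₁, hF₁, hF₁R⟩ := fin_entries R₂ hR₂c
  obtain ⟨F₂, hF₂, hF₂f⟩ := exists_field_all (fun i E => ∀ g ∈ D i, f' i g ∈ E)
    (fun i E E' h hP g hg => h (hP g hg)) hf'E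
  haveI := hF₁
  haveI := hF₂
  set F : IntermediateField ℚ_[ℓ] (PadicAlgCl ℓ) := E ⊔ F₁ ⊔ F₂ with hF
  haveI hFfd : FiniteDimensional ℚ_[ℓ] F := by
    haveI := IntermediateField.finiteDimensional_sup E F₁
    exact IntermediateField.finiteDimensional_sup (E ⊔ F₁) F₂
  have hEF : E ≤ F := le_sup_left.trans le_sup_left
  have hF₁F : F₁ ≤ F := le_sup_right.trans le_sup_left
  have hF₂F : F₂ ≤ F := le_sup_right
  letI := naEE hEF
  haveI : IsScalarTower ℚ_[ℓ] E F := IsScalarTower.of_algebraMap_eq fun x => rfl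
  haveI : FiniteDimensional E F := FiniteDimensional.right ℚ_[ℓ] E F
  set RF := resM R₂ F (fun g i j => hF₁F (hF₁R g i j)) with hRF
  set fF : ι → GK K → F := fun i g => if h : f' i g ∈ F then ⟨f' i g, h⟩ else 0 with hfFd
  have hfFv : ∀ i, ∀ g ∈ D i, f' i g = algebraMap F (PadicAlgCl ℓ) (fF i g) := by
    intro i g hg
    rw [hfFd]
    simp only
    rw [dif_pos (hF₂F (hF₂f i g hg))]
    rfl
  -- `RF` is near
  have hnear : ∀ x y, ∀ g, ‖R₂ g x y - bdR ρ g (e.symm x) (e.symm y)‖ ≤ γ₁ := fun x y g => hX g _ _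
  have hNear : Near (fun g => (A g).map (algebraMap E F)) (fun g => (B g).map (algebraMap E F)) (fun g => RF g) γ₁ := by
    refine ⟨fun g p q => ?_, fun g p q => ?_, fun g p q => ?_, fun g p q => ?_⟩
    · have h1 := hnear (Sum.inl p) (Sum.inl q) g
      have h2 : bdR ρ g (e.symm (Sum.inl p)) (e.symm (Sum.inl q)) =
          algebraMap E (PadicAlgCl ℓ) (A g p q) := by
        have h3 := bdR_sub ρ (fun i => ¬ T i) g p q
        have h4 := congrFun (congrFun (map_bdR (fun i : {i // ¬ T i} => ρ i) (fun i => hρE i) g) p) q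
        exact h3.trans h4
      rw [h2] at h1
      exact h1
    · have h1 := hnear (Sum.inr p) (Sum.inr q) g
      have h2 : bdR ρ g (e.symm (Sum.inr p)) (e.symm (Sum.inr q)) =
          algebraMap E (PadicAlgCl ℓ) (B g p q) := by
        have h3 := bdR_sub ρ (fun i => T i) g p q
        have h4 := congrFun (congrFun (map_bdR (fun i : {i // T i} => ρ i) (fun i => hρE i) g) p) q
        exact h3.trans h4
      rw [h2] at h1
      exact h1
    · have h1 := hnear (Sum.inr p) (Sum.inl q) g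
      have h2 : bdR ρ g (e.symm (Sum.inr p)) (e.symm (Sum.inl q)) = 0 :=
        bdR_off ρ (fun h : (p.1.1 : Fin s) = q.1.1 => q.1.2 (h ▸ p.1.2)) g _ _
      rw [h2, sub_zero] at h1
      exact h1
    · have h1 := hnear (Sum.inl p) (Sum.inr q) g
      have h2 : bdR ρ g (e.symm (Sum.inl p)) (e.symm (Sum.inr q)) = 0 :=
        bdR_off ρ (fun h : (p.1.1 : Fin s) = q.1.1 => p.1.2 (h ▸ q.1.2)) g _ _
      rw [h2, sub_zero] at h1
      exact h1.trans hγ₁1
  set P : (GK K →* Matrix ((Σ i : {i // ¬ T i}, Fin (d i)) ⊕ (Σ i : {i // T i}, Fin (d i)))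
      ((Σ i : {i // ¬ T i}, Fin (d i)) ⊕ (Σ i : {i // T i}, Fin (d i))) F) → Prop := fun R =>
    (∀ p q, Continuous fun g => R g p q) ∧ (∀ g ∈ Inr S, R g = 1) ∧
      ∀ i, finrank E (eig (fun g => A g) (D i) (fE i)) + finrank E (eig (fun g => B g) (D i) (fE i)) ≤
        finrank F (eig (fun g => R g) (D i) (fF i)) with hP
  have hPconj : ∀ R, P R → ∀ (X : GL ((Σ i : {i // ¬ T i}, Fin (d i)) ⊕ (Σ i : {i // T i}, Fin (d i))) F) R',
      (∀ g, R g * X.val = X.val * R' g) → P R' := by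
    rintro R ⟨h1, h2, h3⟩ X R' h
    have hXX' : X⁻¹.val * X.val = 1 := by
      rw [← Units.val_mul, inv_mul_cancel, Units.val_one]
    have hR' : ∀ g, R' g = X⁻¹.val * R g * X.val := by
      intro g
      rw [mul_assoc, h, ← mul_assoc, hXX', one_mul]
    refine ⟨fun p q => ?_, fun g hg => ?_, fun i => ?_⟩
    · have h4 : Continuous fun g => R g := continuous_matrix h1
      have h5 : Continuous fun g => R' g := by
        simp only [hR']
        exact (continuous_const.matrix_mul h4).matrix_mul continuous_const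
      exact h5.matrix_elem p q
    · rw [hR', h2 g hg, mul_one, hXX']
    · have h6 : finrank F (eig (fun g => R' g) (D i) (fF i)) = finrank F (eig (fun g => R g) (D i) (fF i)) :=
        finrank_eig_conj (X := X) h
      rw [h6]
      exact h3 i
  have hPR : P RF := by
    refine ⟨fun p q => (hR₂c p q).subtype_mk _, fun g hg => ?_, fun i => ?_⟩
    · ext p q
      have h2 : R₂ g p q = (1 : Matrix _ _ (PadicAlgCl ℓ)) p q := by rw [hR₂I g hg]
      show R₂ g p q = (((1 : Matrix _ _ F) p q : F) : PadicAlgCl ℓ)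
      rw [h2, Matrix.one_apply, Matrix.one_apply]
      split_ifs <;> rfl
    · have h1 : finrank F (eig (fun g => RF g) (D i) (fF i)) =
          finrank (PadicAlgCl ℓ) (eig (fun g => R g) (D i) (f' i)) := by
        rw [finrank_eig_map hKER (fun g => RF g) (fun g => R₂ g) (fun g => rfl) (D i) (fF i) (f' i) (hfFv i)]
        have h2 : finrank (PadicAlgCl ℓ) (eig (fun g => R₂ g) (D i) (f' i)) =
            finrank (PadicAlgCl ℓ) (eig (fun g => R₁ g) (D i) (f' i)) :=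
          finrank_eig_reindex (fun g => R₁ g) (D i) (f' i) e
        rw [h2]
        exact finrank_eig_conj (X := X) (fun g => cjM_comm X R g)
      have h3 : ∀ (Q : Fin s → Prop) [DecidablePred Q],
          finrank E (eig (fun g => bdR (fun i : {i // Q i} => ρE i) g) (D i) (fE i)) =
            ∑ j : {j // Q j}, finrank (PadicAlgCl ℓ) (eig (fun g => ρ j g) (D i) (f i)) := by
        intro Q _
        rw [finrank_eig_bdR]
        refine Finset.sum_congr rfl fun j _ => ?_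
        exact finrank_eig_map hKER (fun g => ρE j g) (fun g => ρ j g) (fun g => rfl) (D i) (fE i) (f i) (hfEv i)
      have h4 := h3 (fun j => ¬ T j)
      have h5 := h3 (fun j => T j)
      have h6 : (∑ j : {j // ¬ T j}, finrank (PadicAlgCl ℓ) (eig (fun g => ρ j g) (D i) (f i))) +
          ∑ j : {j // T j}, finrank (PadicAlgCl ℓ) (eig (fun g => ρ j g) (D i) (f i)) =
            ∑ j, finrank (PadicAlgCl ℓ) (eig (fun g => ρ j g) (D i) (f i)) := by
        rw [add_comm]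
        exact Fintype.sum_subtype_add_sum_subtype T fun j =>
          finrank (PadicAlgCl ℓ) (eig (fun g => ρ j g) (D i) (f i))
      rw [h1]
      calc _ = _ := congrArg₂ (· + ·) h4 h5
        _ = _ := h6
        _ ≤ _ := hdim i
  have hℓF : ‖(ℓ : F)‖ = ‖(ℓ : PadicAlgCl ℓ)‖ := rfl
  obtain ⟨Y, hY1, hY2⟩ := hITER F (GK K) _ _ (fun g => (A g).map (algebraMap E F))
    (fun g => (B g).map (algebraMap E F))
    (fun g p q => by
      rw [Matrix.map_apply, norm_algebraMap']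
      exact bdR_le (fun i : {i // ¬ T i} => hEint i) g p q)
    (fun g p q => by
      rw [Matrix.map_apply, norm_algebraMap']
      exact bdR_le (fun i : {i // T i} => hEint i) g p q)
    P hPconj (ℓ : F) (fun h => by
      rw [h, norm_zero] at hℓF
      exact hϖ0.ne hℓF) (by rw [hℓF]; exact hϖ1) γ C hγ hC
    (fun R' hR' hn => by
      obtain ⟨x, hx1, hx2⟩ := hstep F R' fF hR'.1 hR'.2.1 hn (fun i g hg => by
        have h1 := (hf'f i g hg).trans (min_le_right _ _)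
        have h2 : ‖f' i g - f i g‖ = ‖fF i g - algebraMap E F (fE i g)‖ := by
          rw [hfEv i g hg, hfFv i g hg]
          rfl
        rw [← h2]
        exact h1) hR'.2.2
      exact ⟨x, hx1, fun g p q => by rw [hℓF]; exact hx2 g p q⟩)
    RF hPR (by
      rw [hℓF]
      exact ⟨fun g p q => (hNear.1 g p q).trans hγ₁a, fun g p q => (hNear.2.1 g p q).trans hγ₁a,
        fun g p q => (hNear.2.2.1 g p q).trans hγ₁a, hNear.2.2.2⟩)
  -- the subspace
  set YL := Y.map (algebraMap F (PadicAlgCl ℓ)) with hYL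
  have hY3 : ∀ g, (R₂ g).toBlocks₁₁ * YL + (R₂ g).toBlocks₁₂ =
      YL * ((R₂ g).toBlocks₂₁ * YL + (R₂ g).toBlocks₂₂) := by
    intro g
    have h1 := congrArg (fun M => Matrix.map M (algebraMap F (PadicAlgCl ℓ))) (hY2 g)
    rw [Matrix.map_add _ (map_add _), Matrix.map_mul, Matrix.map_mul, Matrix.map_add _ (map_add _),
      Matrix.map_mul] at h1
    exact h1
  obtain ⟨J, hJ1, hJ2⟩ := finish R X e R₂ hR₂ YL hY3
  refine ⟨J, fun g => (R₂ g).toBlocks₂₁ * YL + (R₂ g).toBlocks₂₂, hJ1, hJ2, fun g => ?_⟩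
  have h1 : ∑ j : {j // T j}, (ρ j g).trace = ((B g).map (algebraMap E (PadicAlgCl ℓ))).trace := by
    rw [← bdR_trace (fun j : {j // T j} => ρ j) g, map_bdR (fun i : {i // T i} => ρ i) (fun i => hρE i) g]
  rw [h1]
  exact trace_near _ YL _ _ hγ₁0.le hC hγ₁t (fun p q => hNear.2.2.1 g p q) (fun p q => hY1 p q)
    fun p q => hNear.2.1 g p q

end Pool.Agent.H499.RL
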