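import Pool.Agent.H499.RL.Stm
import Pool.Graph.R_pool_sql_team_seeded_ab47071d.TH623.SA.Iso

/-! # Job DEG: a bounded representation degenerates to its semisimplification -/

set_option autoImplicit false

namespace Pool.Agent.H339.RL

open Matrix
open Pool.Agent.H499.RL

section Small

variable {k : Type} [Field k] {O : Subring k} {ϖ : k}

/-- small of order `M` -/
def Sm (O : Subring k) (ϖ : k) (M : ℕ) (x : k) : Prop := ∃ y ∈ O, x = ϖ ^ M * y

theorem Sm.add {M : ℕ} {x y : k} (hx : Sm O ϖ M x) (hy : Sm O ϖ M y) : Sm O ϖ M (x + y) := by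
  obtain ⟨a, ha, rfl⟩ := hx
  obtain ⟨b, hb, rfl⟩ := hy
  exact ⟨a + b, O.add_mem ha hb, by ring⟩

theorem Sm.zero {M : ℕ} : Sm O ϖ M 0 := ⟨0, O.zero_mem, by ring⟩

theorem Sm.sum {ι : Type} {M : ℕ} (s : Finset ι) (f : ι → k) (h : ∀ i ∈ s, Sm O ϖ M (f i)) :
    Sm O ϖ M (∑ i ∈ s, f i) :=
  Finset.sum_induction f (Sm O ϖ M) (fun _ _ => Sm.add) Sm.zero h

theorem Sm.mul_right {M N : ℕ} {x z : k} (hx : Sm O ϖ (M + N) x) (hz : ϖ ^ N * z ∈ O) :
    Sm O ϖ M (x * z) := by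
  obtain ⟨a, ha, rfl⟩ := hx
  exact ⟨a * (ϖ ^ N * z), O.mul_mem ha hz, by rw [pow_add]; ring⟩

theorem Sm.mul_left {M N : ℕ} {x z : k} (hx : Sm O ϖ (M + N) x) (hz : ϖ ^ N * z ∈ O) :
    Sm O ϖ M (z * x) := by
  rw [mul_comm]
  exact hx.mul_right hz

/-- a bounded family of matrices -/
def Bd (O : Subring k) (ϖ : k) {G α β : Type} (S : G → Matrix α β k) : Prop :=
  ∃ N : ℕ, ∀ g i j, ϖ ^ N * S g i j ∈ O

theorem mem_mono (hϖ : ϖ ∈ O) {N N' : ℕ} (h : N ≤ N') {x : k} (hx : ϖ ^ N * x ∈ O) :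
    ϖ ^ N' * x ∈ O := by
  obtain ⟨d, rfl⟩ := Nat.exists_eq_add_of_le h
  have : ϖ ^ (N + d) * x = ϖ ^ d * (ϖ ^ N * x) := by rw [pow_add]; ring
  rw [this]
  exact O.mul_mem (O.pow_mem hϖ d) hx

theorem Bd.mul {G α β γ : Type} [Fintype β] {S : G → Matrix α β k} {T : G → Matrix β γ k}
    (hS : Bd O ϖ S) (hT : Bd O ϖ T) : Bd O ϖ fun g => S g * T g := by
  obtain ⟨N, hN⟩ := hS
  obtain ⟨N', hN'⟩ := hT
  refine ⟨N + N', fun g i j => ?_⟩
  show ϖ ^ (N + N') * (S g * T g) i j ∈ O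
  rw [Matrix.mul_apply, Finset.mul_sum]
  refine O.sum_mem fun l _ => ?_
  have : ϖ ^ (N + N') * (S g i l * T g l j) = (ϖ ^ N * S g i l) * (ϖ ^ N' * T g l j) := by
    rw [pow_add]; ring
  rw [this]
  exact O.mul_mem (hN g i l) (hN' g l j)

theorem Bd.const (hϖ : ϖ ∈ O) (hO : ∀ x : k, ∃ N : ℕ, ϖ ^ N * x ∈ O) {α β : Type} [Fintype α]
    [Fintype β] (A : Matrix α β k) : ∃ N : ℕ, ∀ i j, ϖ ^ N * A i j ∈ O := by
  choose f hf using hO
  refine ⟨∑ i, ∑ j, f (A i j), fun i j => ?_⟩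
  refine mem_mono hϖ ?_ (hf (A i j))
  calc f (A i j) ≤ ∑ j, f (A i j) :=
        Finset.single_le_sum (f := fun j => f (A i j)) (fun _ _ => Nat.zero_le _) (Finset.mem_univ j)
    _ ≤ ∑ i, ∑ j, f (A i j) :=
        Finset.single_le_sum (f := fun i => ∑ j, f (A i j)) (fun _ _ => Nat.zero_le _)
          (Finset.mem_univ i)

theorem Bd.const' (hϖ : ϖ ∈ O) (hO : ∀ x : k, ∃ N : ℕ, ϖ ^ N * x ∈ O) {G α β : Type} [Fintype α]
    [Fintype β] (A : Matrix α β k) : Bd O ϖ fun _ : G => A := by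
  obtain ⟨N, hN⟩ := Bd.const hϖ hO A
  exact ⟨N, fun _ => hN⟩

end Small

section SSsum

variable {G k : Type} [Group G] [Field k]

/-- the block diagonal sum -/
def dsum {α β : Type} [Fintype α] [DecidableEq α] [Fintype β] [DecidableEq β]
    (ρ : G →* Matrix α α k) (σ : G →* Matrix β β k) : G →* Matrix (α ⊕ β) (α ⊕ β) k where
  toFun g := Matrix.fromBlocks (ρ g) 0 0 (σ g)
  map_one' := by rw [map_one, map_one, Matrix.fromBlocks_one]
  map_mul' g h := by
    rw [map_mul, map_mul, Matrix.fromBlocks_multiply]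
    simp

theorem ss_dsum {α β : Type} [Fintype α] [DecidableEq α] [Fintype β] [DecidableEq β]
    {ρ : G →* Matrix α α k} {σ : G →* Matrix β β k} (h1 : SS ρ) (h2 : SS σ) : SS (dsum ρ σ) := by
  intro W hW
  have hmul : ∀ (g : G) (w : α ⊕ β → k), dsum ρ σ g *ᵥ w =
      Sum.elim (ρ g *ᵥ (w ∘ Sum.inl)) (σ g *ᵥ (w ∘ Sum.inr)) := by
    intro g w
    show Matrix.fromBlocks (ρ g) 0 0 (σ g) *ᵥ w = _
    rw [Matrix.fromBlocks_mulVec]
    simp
  have hel : ∀ w : α ⊕ β → k, Sum.elim (w ∘ Sum.inl) (w ∘ Sum.inr) = w := Sum.elim_comp_inl_inr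
  -- the part in the first summand
  let W1 : Submodule k (α → k) :=
    { carrier := {u | Sum.elim u (0 : β → k) ∈ W}
      add_mem' := by
        intro u v hu hv
        have : Sum.elim (u + v) (0 : β → k) = Sum.elim u 0 + Sum.elim v 0 := by
          ext (i | i) <;> simp
        show Sum.elim (u + v) (0 : β → k) ∈ W
        rw [this]
        exact W.add_mem hu hv
      zero_mem' := by
        have : Sum.elim (0 : α → k) (0 : β → k) = 0 := by ext (i | i) <;> simp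
        show Sum.elim (0 : α → k) (0 : β → k) ∈ W
        rw [this]
        exact W.zero_mem
      smul_mem' := by
        intro c u hu
        have : Sum.elim (c • u) (0 : β → k) = c • Sum.elim u 0 := by
          ext (i | i) <;> simp
        show Sum.elim (c • u) (0 : β → k) ∈ W
        rw [this]
        exact W.smul_mem c hu }
  let W2 : Submodule k (β → k) :=
    { carrier := {v | ∃ u : α → k, Sum.elim u v ∈ W}
      add_mem' := by
        rintro v v' ⟨u, hu⟩ ⟨u', hu'⟩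
        refine ⟨u + u', ?_⟩
        have : Sum.elim (u + u') (v + v') = Sum.elim u v + Sum.elim u' v' := by
          ext (i | i) <;> simp
        rw [this]
        exact W.add_mem hu hu'
      zero_mem' := by
        refine ⟨0, ?_⟩
        have : Sum.elim (0 : α → k) (0 : β → k) = 0 := by ext (i | i) <;> simp
        rw [this]
        exact W.zero_mem
      smul_mem' := by
        rintro c v ⟨u, hu⟩
        refine ⟨c • u, ?_⟩
        have : Sum.elim (c • u) (c • v) = c • Sum.elim u v := by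
          ext (i | i) <;> simp
        rw [this]
        exact W.smul_mem c hu }
  obtain ⟨C1, hC1, hc1⟩ := h1 W1 (by
    intro g u hu
    have h3 := hW g _ hu
    rw [hmul] at h3
    have h4 : (σ g *ᵥ ((Sum.elim u (0 : β → k)) ∘ Sum.inr)) = 0 := by
      rw [Sum.elim_comp_inr, Matrix.mulVec_zero]
    rw [h4, Sum.elim_comp_inl] at h3
    exact h3)
  obtain ⟨C2, hC2, hc2⟩ := h2 W2 (by
    rintro g v ⟨u, hu⟩
    have h3 := hW g _ hu
    rw [hmul, Sum.elim_comp_inl, Sum.elim_comp_inr] at h3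
    exact ⟨_, h3⟩)
  let C : Submodule k (α ⊕ β → k) :=
    { carrier := {w | w ∘ Sum.inl ∈ C1 ∧ w ∘ Sum.inr ∈ C2}
      add_mem' := by
        rintro w w' ⟨h3, h4⟩ ⟨h5, h6⟩
        exact ⟨C1.add_mem h3 h5, C2.add_mem h4 h6⟩
      zero_mem' := ⟨C1.zero_mem, C2.zero_mem⟩
      smul_mem' := by
        rintro c w ⟨h3, h4⟩
        exact ⟨C1.smul_mem c h3, C2.smul_mem c h4⟩ }
  refine ⟨C, ?_, ?_, ?_⟩
  · rintro g w ⟨h3, h4⟩
    rw [hmul]
    refine ⟨?_, ?_⟩
    · rw [Sum.elim_comp_inl]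
      exact hC1 g _ h3
    · rw [Sum.elim_comp_inr]
      exact hC2 g _ h4
  · rw [Submodule.disjoint_def]
    rintro w hw ⟨h3, h4⟩
    have h5 : w ∘ Sum.inr ∈ W2 := ⟨w ∘ Sum.inl, by rw [hel]; exact hw⟩
    have h6 : w ∘ Sum.inr = 0 := (Submodule.disjoint_def.1 hc2.disjoint) _ h5 h4
    have h7 : w ∘ Sum.inl ∈ W1 := by
      show Sum.elim (w ∘ Sum.inl) (0 : β → k) ∈ W
      rw [← h6, hel]
      exact hw
    have h8 : w ∘ Sum.inl = 0 := (Submodule.disjoint_def.1 hc1.disjoint) _ h7 h3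
    rw [← hel w, h6, h8]
    ext (i | i) <;> simp
  · rw [codisjoint_iff, eq_top_iff]
    intro w _
    have h3 : w ∘ Sum.inr ∈ W2 ⊔ C2 := by rw [hc2.codisjoint.eq_top]; trivial
    obtain ⟨p2, ⟨u, hu⟩, c2, hc2', h4⟩ := Submodule.mem_sup.1 h3
    have h5 : w ∘ Sum.inl - u ∈ W1 ⊔ C1 := by rw [hc1.codisjoint.eq_top]; trivial
    obtain ⟨p1, hp1, c1, hc1', h6⟩ := Submodule.mem_sup.1 h5
    refine Submodule.mem_sup.2 ⟨Sum.elim u p2 + Sum.elim p1 0, W.add_mem hu hp1,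
      Sum.elim c1 c2, ⟨?_, ?_⟩, ?_⟩
    · rw [Sum.elim_comp_inl]; exact hc1'
    · rw [Sum.elim_comp_inr]; exact hc2'
    · rw [← hel w, ← h4]
      have h7 : w ∘ Sum.inl = p1 + c1 + u := by rw [h6]; abel
      rw [h7]
      ext (i | i)
      · simp; ring
      · simp

/-- the representation on column vectors -/
def toRep {μ : Type} [Fintype μ] [DecidableEq μ] (σ : G →* Matrix μ μ k) :
    Representation k G (μ → k) :=
  (Matrix.toLinAlgEquiv' : Matrix μ μ k ≃ₐ[k] _).toMonoidHom.comp σ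

theorem toRep_apply {μ : Type} [Fintype μ] [DecidableEq μ] (σ : G →* Matrix μ μ k) (g : G)
    (v : μ → k) : toRep σ g v = σ g *ᵥ v := by
  show Matrix.toLinAlgEquiv' (σ g) v = _
  rw [Matrix.toLinAlgEquiv'_apply]

theorem ss_toRep {μ : Type} [Fintype μ] [DecidableEq μ] {σ : G →* Matrix μ μ k} (h : SS σ) :
    (toRep σ).IsSemisimpleRepresentation := by
  refine ⟨fun S => ?_⟩
  obtain ⟨W', h1, h2⟩ := h S.toSubmodule (fun g w hw => by
    have := S.apply_mem_toSubmodule g hw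
    rwa [toRep_apply] at this)
  let S' : Subrepresentation (toRep σ) :=
    ⟨W', fun g v hv => by rw [toRep_apply]; exact h1 g v hv⟩
  refine ⟨S', ?_⟩
  constructor
  · rw [disjoint_iff]
    apply Subrepresentation.toSubmodule_injective
    exact h2.inf_eq_bot
  · rw [codisjoint_iff]
    apply Subrepresentation.toSubmodule_injective
    exact h2.sup_eq_top

end SSsum

section Claim

variable {G k : Type} [Group G] [Field k] {O : Subring k} {ϖ : k}

/-- `σ` is a limit of conjugates of `ρ` -/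
def Deg (O : Subring k) (ϖ : k) {ν μ : Type} [Fintype ν] [DecidableEq ν] [Fintype μ]
    [DecidableEq μ] (ρ : G →* Matrix ν ν k) (σ : G →* Matrix μ μ k) : Prop :=
  ∀ M : ℕ, ∃ (X : Matrix ν μ k) (X' : Matrix μ ν k), X * X' = 1 ∧ X' * X = 1 ∧
    ∀ g i j, Sm O ϖ M ((X' * ρ g * X - σ g) i j)

theorem Deg.refl {ν : Type} [Fintype ν] [DecidableEq ν] (ρ : G →* Matrix ν ν k) :
    Deg O ϖ ρ ρ := by
  intro M
  refine ⟨1, 1, Matrix.mul_one _, Matrix.mul_one _, fun g i j => ?_⟩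
  have : (1 : Matrix ν ν k) * ρ g * 1 - ρ g = 0 := by
    rw [Matrix.one_mul, Matrix.mul_one, sub_self]
  rw [this]
  exact Sm.zero

/-- conjugation by a rectangular pair -/
def cj {ν μ : Type} [Fintype ν] [DecidableEq ν] [Fintype μ] [DecidableEq μ]
    (ρ : G →* Matrix ν ν k) (Y : Matrix ν μ k) (Y' : Matrix μ ν k) (h : Y * Y' = 1)
    (h' : Y' * Y = 1) : G →* Matrix μ μ k where
  toFun g := Y' * ρ g * Y
  map_one' := by rw [map_one, Matrix.mul_one, h']
  map_mul' g₁ g₂ := by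
    have : Y' * ρ g₁ * Y * (Y' * ρ g₂ * Y) = Y' * ρ g₁ * (Y * Y') * ρ g₂ * Y := by
      simp only [Matrix.mul_assoc]
    rw [this, h, Matrix.mul_one, map_mul]
    simp only [Matrix.mul_assoc]

theorem claim (hϖ : ϖ ∈ O) (h0 : ϖ ≠ 0) (hO : ∀ x : k, ∃ N : ℕ, ϖ ^ N * x ∈ O) :
    ∀ (n : ℕ) (ν : Type) [Fintype ν] [DecidableEq ν], Fintype.card ν = n →
    ∀ ρ : G →* Matrix ν ν k, (Bd O ϖ fun g => ρ g) →
    ∃ (μ : Type) (_ : Fintype μ) (_ : DecidableEq μ) (σ : G →* Matrix μ μ k), SS σ ∧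
      Deg O ϖ ρ σ := by
  intro n
  induction n using Nat.strong_induction_on with
  | _ n ih =>
  intro ν _ _ hn ρ hb
  by_cases hss : SS ρ
  · exact ⟨ν, inferInstance, inferInstance, ρ, hss, Deg.refl ρ⟩
  unfold SS at hss
  push Not at hss
  obtain ⟨W, hW, hWc⟩ := hss
  have hWbot : W ≠ ⊥ := by
    rintro rfl
    exact hWc ⊤ (fun _ _ _ => trivial) isCompl_bot_top
  have hWtop : W ≠ ⊤ := by
    rintro rfl
    refine hWc ⊥ (fun g w hw => ?_) isCompl_top_bot
    rw [Submodule.mem_bot] at hw ⊢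
    rw [hw, Matrix.mulVec_zero]
  obtain ⟨C, hC⟩ := Submodule.exists_isCompl W
  have hfr : Module.finrank k (ν → k) = n := by
    rw [Module.finrank_fintype_fun_eq_card, hn]
  have hlt1 : Module.finrank k W < n := by
    rw [← hfr]
    exact Submodule.finrank_lt hWtop
  have hlt2 : Module.finrank k C < n := by
    rw [← hfr]
    refine Submodule.finrank_lt ?_
    rintro rfl
    exact hWbot (by simpa using hC.inf_eq_bot)
  -- adapted basis
  let bW := Module.finBasis k W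
  let bC := Module.finBasis k C
  let b : Module.Basis (Fin (Module.finrank k W) ⊕ Fin (Module.finrank k C)) k (ν → k) :=
    (bW.prod bC).map (Submodule.prodEquivOfIsCompl W C hC)
  let bs := Pi.basisFun k ν
  let Y := bs.toMatrix b
  let Y' := b.toMatrix bs
  have hYY' : Y * Y' = 1 := bs.toMatrix_mul_toMatrix_flip b
  have hY'Y : Y' * Y = 1 := b.toMatrix_mul_toMatrix_flip bs
  let R := cj ρ Y Y' hYY' hY'Y
  have hRb : Bd O ϖ fun g => R g :=
    ((Bd.const' hϖ hO Y').mul hb).mul (Bd.const' hϖ hO Y)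
  have hR21 : ∀ g i j, R g (Sum.inr i) (Sum.inl j) = 0 := by
    intro g i j
    have h1 : b (Sum.inl j) ∈ W := by
      show (Submodule.prodEquivOfIsCompl W C hC) ((bW.prod bC) (Sum.inl j)) ∈ W
      rw [Submodule.coe_prodEquivOfIsCompl', Module.Basis.prod_apply_inl_fst,
        Module.Basis.prod_apply_inl_snd, Submodule.coe_zero, add_zero]
      exact (bW j).2
    have h2 := hW g _ h1
    have h3 : b.repr (ρ g *ᵥ b (Sum.inl j)) (Sum.inr i) = 0 := by
      show (bW.prod bC).repr ((Submodule.prodEquivOfIsCompl W C hC).symm (ρ g *ᵥ b (Sum.inl j)))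
        (Sum.inr i) = 0
      have h4 := Submodule.prodEquivOfIsCompl_symm_apply_left W C hC ⟨_, h2⟩
      have h5 : (Submodule.prodEquivOfIsCompl W C hC).symm (ρ g *ᵥ b (Sum.inl j)) =
        (⟨_, h2⟩, 0) := h4
      rw [h5, Module.Basis.prod_repr_inr]
      simp
    have h6 : ∀ l, (ρ g * Y) l (Sum.inl j) = (ρ g *ᵥ b (Sum.inl j)) l := by
      intro l
      rw [Matrix.mul_apply]
      rfl
    have h7 : R g (Sum.inr i) (Sum.inl j) = (Y' *ᵥ (ρ g *ᵥ b (Sum.inl j))) (Sum.inr i) := by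
      show (Y' * ρ g * Y) (Sum.inr i) (Sum.inl j) = _
      rw [Matrix.mul_assoc, Matrix.mul_apply]
      simp only [h6]
      rfl
    rw [h7, ← h3]
    have h8 := bs.toMatrix_mulVec_repr b (ρ g *ᵥ b (Sum.inl j))
    exact congrFun h8 (Sum.inr i)
  -- the diagonal blocks
  let R1 : G →* Matrix (Fin (Module.finrank k W)) (Fin (Module.finrank k W)) k :=
    { toFun := fun g => (R g).toBlocks₁₁
      map_one' := by
        rw [map_one]
        ext i j
        simp [Matrix.toBlocks₁₁, Matrix.one_apply]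
      map_mul' := by
        intro g h
        rw [map_mul]
        ext i j
        simp only [Matrix.toBlocks₁₁, Matrix.of_apply, Matrix.mul_apply, Fintype.sum_sum_type,
          hR21, mul_zero, Finset.sum_const_zero, add_zero] }
  let R2 : G →* Matrix (Fin (Module.finrank k C)) (Fin (Module.finrank k C)) k :=
    { toFun := fun g => (R g).toBlocks₂₂
      map_one' := by
        rw [map_one]
        ext i j
        simp [Matrix.toBlocks₂₂, Matrix.one_apply]
      map_mul' := by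
        intro g h
        rw [map_mul]
        ext i j
        simp only [Matrix.toBlocks₂₂, Matrix.of_apply, Matrix.mul_apply, Fintype.sum_sum_type,
          hR21, zero_mul, Finset.sum_const_zero, zero_add] }
  obtain ⟨NR, hNR⟩ := id hRb
  have hR1b : Bd O ϖ fun g => R1 g := ⟨NR, fun g i j => hNR g _ _⟩
  have hR2b : Bd O ϖ fun g => R2 g := ⟨NR, fun g i j => hNR g _ _⟩
  have hR12b : Bd O ϖ fun g => (R g).toBlocks₁₂ := ⟨NR, fun g i j => hNR g _ _⟩
  have hRblk : ∀ g, R g = Matrix.fromBlocks (R1 g) (R g).toBlocks₁₂ 0 (R2 g) := by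
    intro g
    ext (i | i) (j | j)
    · rfl
    · rfl
    · exact hR21 g i j
    · rfl
  obtain ⟨μ₁, _, _, σ₁, hs₁, hd₁⟩ := ih _ hlt1 (Fin (Module.finrank k W)) (Fintype.card_fin _) R1 hR1b
  obtain ⟨μ₂, _, _, σ₂, hs₂, hd₂⟩ := ih _ hlt2 (Fin (Module.finrank k C)) (Fintype.card_fin _) R2 hR2b
  refine ⟨μ₁ ⊕ μ₂, inferInstance, inferInstance, dsum σ₁ σ₂, ss_dsum hs₁ hs₂, fun M => ?_⟩
  obtain ⟨X₁, X₁', hX₁, hX₁', h₁⟩ := hd₁ M
  obtain ⟨X₂, X₂', hX₂, hX₂', h₂⟩ := hd₂ M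
  obtain ⟨N, hN⟩ := ((Bd.const' hϖ hO X₁').mul hR12b).mul (Bd.const' hϖ hO X₂)
  let t : k := ϖ ^ (M + N)
  have ht : t ≠ 0 := pow_ne_zero _ h0
  let Z : Matrix (Fin (Module.finrank k W) ⊕ Fin (Module.finrank k C)) (μ₁ ⊕ μ₂) k :=
    Matrix.fromBlocks X₁ 0 0 (t • X₂)
  let Z' : Matrix (μ₁ ⊕ μ₂) (Fin (Module.finrank k W) ⊕ Fin (Module.finrank k C)) k :=
    Matrix.fromBlocks X₁' 0 0 (t⁻¹ • X₂')
  have hZ : Z * Z' = 1 := by
    show Matrix.fromBlocks X₁ 0 0 (t • X₂) * Matrix.fromBlocks X₁' 0 0 (t⁻¹ • X₂') = 1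
    rw [Matrix.fromBlocks_multiply]
    simp [hX₁, hX₂, ht]
  have hZ' : Z' * Z = 1 := by
    show Matrix.fromBlocks X₁' 0 0 (t⁻¹ • X₂') * Matrix.fromBlocks X₁ 0 0 (t • X₂) = 1
    rw [Matrix.fromBlocks_multiply]
    simp [hX₁', hX₂', ht]
  refine ⟨Y * Z, Z' * Y', ?_, ?_, ?_⟩
  · have : Y * Z * (Z' * Y') = Y * (Z * Z') * Y' := by simp only [Matrix.mul_assoc]
    rw [this, hZ, Matrix.mul_one, hYY']
  · have : Z' * Y' * (Y * Z) = Z' * (Y' * Y) * Z := by simp only [Matrix.mul_assoc]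
    rw [this, hY'Y, Matrix.mul_one, hZ']
  intro g
  have h3 : Z' * Y' * ρ g * (Y * Z) = Z' * R g * Z := by
    show Z' * Y' * ρ g * (Y * Z) = Z' * (Y' * ρ g * Y) * Z
    simp only [Matrix.mul_assoc]
  have h4 : Z' * R g * Z = Matrix.fromBlocks (X₁' * R1 g * X₁)
      (t • (X₁' * (R g).toBlocks₁₂ * X₂)) 0 (X₂' * R2 g * X₂) := by
    rw [hRblk g]
    show Matrix.fromBlocks X₁' 0 0 (t⁻¹ • X₂') * Matrix.fromBlocks (R1 g) (R g).toBlocks₁₂ 0 (R2 g) *
      Matrix.fromBlocks X₁ 0 0 (t • X₂) = _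
    rw [Matrix.fromBlocks_multiply, Matrix.fromBlocks_multiply]
    simp [ht, Matrix.toBlocks₁₂]
  rw [h3, h4]
  rintro (i | i) (j | j)
  · exact h₁ g i j
  · show Sm O ϖ M (t * (X₁' * (R g).toBlocks₁₂ * X₂) i j - 0)
    rw [sub_zero]
    refine ⟨_, hN g i j, ?_⟩
    show ϖ ^ (M + N) * (X₁' * (R g).toBlocks₁₂ * X₂) i j =
      ϖ ^ M * (ϖ ^ N * (X₁' * (R g).toBlocks₁₂ * X₂) i j)
    rw [pow_add, mul_assoc]
  · show Sm O ϖ M ((0 : k) - 0)
    rw [sub_zero]
    exact Sm.zero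
  · exact h₂ g i j

end Claim

/-- **Job DEG.** -/
theorem deg : S_DEG := by
  intro k _ _ G _ ν _ _ ρ ρ₀ hss htr O ϖ hϖ h0 hO hsep hint M
  obtain ⟨μ, _, _, σ, hσ, hd⟩ := claim hϖ h0 hO _ ν rfl ρ
    ⟨0, fun g i j => by rw [pow_zero, one_mul]; exact hint g i j⟩
  -- the traces
  have htr' : ∀ g, (σ g).trace = (ρ₀ g).trace := by
    intro g
    rw [← htr g, eq_comm, ← sub_eq_zero]
    apply hsep
    intro M
    obtain ⟨X, X', hX, hX', h1⟩ := hd M
    have h2 : (ρ g).trace - (σ g).trace = (X' * ρ g * X - σ g).trace := by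
      rw [Matrix.trace_sub, Matrix.trace_mul_comm, ← Matrix.mul_assoc, hX, Matrix.one_mul]
    rw [h2]
    exact Sm.sum _ _ fun i _ => h1 g i i
  obtain ⟨e, he⟩ := Pool.Agent.TH623.SA.rep_iso (toRep σ) (toRep ρ₀) (ss_toRep hσ) (ss_toRep hss)
    (fun g => by
      have h1 : ∀ {α : Type} [Fintype α] [DecidableEq α] (τ : G →* Matrix α α k),
          LinearMap.trace k (α → k) (toRep τ g) = (τ g).trace := by
        intro α _ _ τ
        have h2 : toRep τ g = Matrix.toLin' (τ g) := by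
          apply LinearMap.ext
          intro v
          rw [toRep_apply, Matrix.toLin'_apply]
        rw [h2, Matrix.trace_toLin'_eq]
      rw [h1, h1, htr'])
  let Z : Matrix ν μ k := LinearMap.toMatrix' (e : (μ → k) →ₗ[k] (ν → k))
  let Z' : Matrix μ ν k := LinearMap.toMatrix' (e.symm : (ν → k) →ₗ[k] (μ → k))
  have hZ : Z * Z' = 1 := by
    show LinearMap.toMatrix' (e : (μ → k) →ₗ[k] (ν → k)) *
      LinearMap.toMatrix' (e.symm : (ν → k) →ₗ[k] (μ → k)) = 1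
    rw [← LinearMap.toMatrix'_comp, LinearEquiv.comp_coe, LinearEquiv.symm_trans_self]
    exact LinearMap.toMatrix'_id
  have hZ' : Z' * Z = 1 := by
    show LinearMap.toMatrix' (e.symm : (ν → k) →ₗ[k] (μ → k)) *
      LinearMap.toMatrix' (e : (μ → k) →ₗ[k] (ν → k)) = 1
    rw [← LinearMap.toMatrix'_comp, LinearEquiv.comp_coe, LinearEquiv.self_trans_symm]
    exact LinearMap.toMatrix'_id
  have hint2 : ∀ g, ρ₀ g = Z * σ g * Z' := by
    intro g
    have h1 : ρ₀ g * Z = Z * σ g := by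
      apply Matrix.ext_of_mulVec_single
      intro i
      have h2 : ∀ v : μ → k, Z *ᵥ v = e v := by
        intro v
        show LinearMap.toMatrix' (e : (μ → k) →ₗ[k] (ν → k)) *ᵥ v = _
        rw [LinearMap.toMatrix'_mulVec]
        rfl
      rw [← Matrix.mulVec_mulVec, ← Matrix.mulVec_mulVec, h2, h2, ← toRep_apply, ← toRep_apply,
        he]
    rw [← h1, Matrix.mul_assoc, hZ, Matrix.mul_one]
  obtain ⟨N, hN⟩ := Bd.const hϖ hO Z
  obtain ⟨N', hN'⟩ := Bd.const hϖ hO Z'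
  obtain ⟨X, X', hX, hX', h1⟩ := hd (M + N + N')
  have hu1 : X * Z' * (Z * X') = 1 := by
    have : X * Z' * (Z * X') = X * (Z' * Z) * X' := by simp only [Matrix.mul_assoc]
    rw [this, hZ', Matrix.mul_one, hX]
  have hu2 : Z * X' * (X * Z') = 1 := by
    have : Z * X' * (X * Z') = Z * (X' * X) * Z' := by simp only [Matrix.mul_assoc]
    rw [this, hX', Matrix.mul_one, hZ]
  refine ⟨⟨X * Z', Z * X', hu1, hu2⟩, fun g i j => ?_⟩
  show Sm O ϖ M ((Z * X' * ρ g * (X * Z') - ρ₀ g) i j)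
  have h2 : Z * X' * ρ g * (X * Z') - ρ₀ g = Z * (X' * ρ g * X - σ g) * Z' := by
    rw [hint2 g, Matrix.mul_sub, Matrix.sub_mul]
    simp only [Matrix.mul_assoc]
  rw [h2, Matrix.mul_apply]
  refine Sm.sum _ _ fun l _ => ?_
  refine Sm.mul_right (N := N') ?_ (hN' l j)
  rw [Matrix.mul_apply]
  refine Sm.sum _ _ fun m _ => ?_
  refine Sm.mul_left (N := N) ?_ (hN i m)
  have h3 : M + N' + N = M + N + N' := by omega
  rw [h3]
  exact h1 g m l

end Pool.Agent.H339.RL
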