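import Pool.Agent.H499.RL.Stm

/-!
# Vanishing of `Ext`: descent and direct sums (DSC, DIR; written by helper97)
-/

set_option autoImplicit false

namespace Pool.Agent.H97.RL

open Matrix
open Pool.Agent.H499.RL

/-- coordinates of a vector over `L` with respect to elements of `L` and functionals over `E` -/
lemma exists_coords {E L β : Type} [Field E] [Field L] [Algebra E L] [Finite β] (y : β → L) :
    ∃ (n : ℕ) (lam : Fin n → L) (φ : Fin n → L →ₗ[E] E), ∀ q, y q = ∑ k, φ k (y q) • lam k := by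
  set W : Submodule E L := Submodule.span E (Set.range y) with hW
  have : FiniteDimensional E W := FiniteDimensional.span_of_finite E (Set.finite_range y)
  have b := Module.finBasis E W
  have hφ : ∀ k, ∃ φ : L →ₗ[E] E, φ ∘ₗ W.subtype = b.coord k := fun k =>
    LinearMap.exists_extend (b.coord k)
  choose φ hφ using hφ
  refine ⟨Module.finrank E W, fun k => (b k : L), φ, fun q => ?_⟩
  have hq : y q ∈ W := Submodule.subset_span (Set.mem_range_self q)
  have h1 := b.sum_repr ⟨y q, hq⟩
  have h2 := congrArg (fun w : W => (w : L)) h1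
  simp only [Submodule.coe_sum, Submodule.coe_smul] at h2
  rw [← h2]
  refine Finset.sum_congr rfl fun k _ => ?_
  congr 1
  have h3 := LinearMap.congr_fun (hφ k) ⟨y q, hq⟩
  rw [h2]
  exact h3.symm

theorem dsc : S_DSC := by
  intro E L _ _ _ G _ _ α β ι _ _ _ _ A B A' B' I D f f' hA hB hf hL c hc1 hc2 hc3 hc4
  classical
  have hmul : ∀ (γ δ : Type) [Fintype δ] (M : Matrix γ δ E) (v : δ → E),
      M.map (algebraMap E L) *ᵥ (fun q => algebraMap E L (v q)) =
        fun p => algebraMap E L ((M *ᵥ v) p) := by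
    intro γ δ _ M v
    funext p
    simp only [Matrix.mulVec, dotProduct, Matrix.map_apply, map_sum, map_mul]
  obtain ⟨x, hx⟩ : ∃ x : Matrix α β L, ∀ g, (c g).map (algebraMap E L) = A' g * x - x * B' g := by
    refine hL (fun g => (c g).map (algebraMap E L)) ?_ ?_ ?_ ?_
    · intro p q
      exact (continuous_algebraMap E L).comp (hc1 p q)
    · intro g h
      show (c (g * h)).map (algebraMap E L) = _
      rw [hc2, hA, hB, Matrix.map_add _ (map_add _), Matrix.map_mul, Matrix.map_mul]
    · intro g hg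
      show (c g).map (algebraMap E L) = 0
      rw [hc3 g hg]
      ext p q
      simp
    · intro i y hy
      obtain ⟨n, lam, φ, hφ⟩ := exists_coords (E := E) y
      have hyk : ∀ k, (fun q => φ k (y q)) ∈ eig (fun g => B g) (D i) (f i) := by
        intro k d hd
        have h1 := hy d hd
        funext p
        have h2 := congrArg (φ k) (congrFun h1 p)
        simp only [hB, hf i d hd, Matrix.mulVec, dotProduct, Matrix.map_apply, Pi.smul_apply,
          smul_eq_mul, map_sum, ← Algebra.smul_def, map_smul] at h2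
        simp only [Matrix.mulVec, dotProduct, Pi.smul_apply, smul_eq_mul]
        exact h2
      choose u hu using fun k => hc4 i _ (hyk k)
      have hyeq : y = ∑ k, lam k • (fun q => algebraMap E L (φ k (y q))) := by
        funext q
        rw [Finset.sum_apply]
        conv_lhs => rw [hφ q]
        refine Finset.sum_congr rfl fun k _ => ?_
        rw [Pi.smul_apply, smul_eq_mul, Algebra.smul_def, mul_comm]
      refine ⟨∑ k, lam k • (fun p => algebraMap E L (u k p)), fun d hd => ?_⟩
      have h3 : (c d).map (algebraMap E L) *ᵥ y =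
          ∑ k, lam k • (fun p => algebraMap E L ((c d *ᵥ fun q => φ k (y q)) p)) := by
        conv_lhs => rw [hyeq]
        rw [Matrix.mulVec_sum]
        refine Finset.sum_congr rfl fun k _ => ?_
        rw [Matrix.mulVec_smul, hmul]
      have h4 : A' d *ᵥ (∑ k, lam k • (fun p => algebraMap E L (u k p))) =
          ∑ k, lam k • (fun p => algebraMap E L ((A d *ᵥ u k) p)) := by
        rw [Matrix.mulVec_sum]
        refine Finset.sum_congr rfl fun k _ => ?_
        rw [Matrix.mulVec_smul, hA, hmul]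
      rw [h3, h4, ← Finset.sum_add_distrib, Finset.smul_sum, hf i d hd]
      refine Finset.sum_congr rfl fun k _ => ?_
      have h5 := hu k d hd
      funext p
      have h6 := congrArg (algebraMap E L) (congrFun h5 p)
      simp only [Pi.add_apply, Pi.smul_apply, smul_eq_mul, map_add, map_mul] at h6 ⊢
      rw [← mul_add, h6]
      ring
  obtain ⟨π, hπ⟩ : ∃ π : L →ₗ[E] E, ∀ e : E, π (algebraMap E L e) = e := by
    obtain ⟨π, hπ⟩ := LinearMap.exists_leftInverse_of_injective (Algebra.linearMap E L)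
      (LinearMap.ker_eq_bot.2 (algebraMap E L).injective)
    exact ⟨π, fun e => LinearMap.congr_fun hπ e⟩
  refine ⟨x.map π, fun g => ?_⟩
  ext p q
  have h1 := congrArg π (congrFun (congrFun (hx g) p) q)
  rw [Matrix.map_apply, hπ, Matrix.sub_apply, map_sub, Matrix.mul_apply, Matrix.mul_apply, map_sum,
    map_sum] at h1
  rw [h1, Matrix.sub_apply, Matrix.mul_apply, Matrix.mul_apply]
  congr 1
  · refine Finset.sum_congr rfl fun r _ => ?_
    rw [hA, Matrix.map_apply, Matrix.map_apply, ← Algebra.smul_def, map_smul, smul_eq_mul]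
  · refine Finset.sum_congr rfl fun r _ => ?_
    rw [hB, Matrix.map_apply, Matrix.map_apply, mul_comm, ← Algebra.smul_def, map_smul,
      smul_eq_mul, mul_comm]

section dir

variable {G k σ : Type} [Group G] [Field k] [Fintype σ] [DecidableEq σ] {d : σ → ℕ}
    (ρ : ∀ i, G →* Matrix (Fin (d i)) (Fin (d i)) k)

lemma bdR_eq (g : G) (i : σ) (p q : Fin (d i)) : bdR ρ g ⟨i, p⟩ ⟨i, q⟩ = ρ i g p q :=
  Matrix.blockDiagonal'_apply_eq (fun i => ρ i g) i p q

lemma bdR_ne (g : G) {i j : σ} (h : i ≠ j) (p : Fin (d i)) (q : Fin (d j)) :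
    bdR ρ g ⟨i, p⟩ ⟨j, q⟩ = 0 :=
  Matrix.blockDiagonal'_apply_ne (fun i => ρ i g) p q h

lemma sum_left (g : G) (i : σ) (p : Fin (d i)) (v : (Σ i, Fin (d i)) → k) :
    ∑ s, bdR ρ g ⟨i, p⟩ s * v s = ∑ q, ρ i g p q * v ⟨i, q⟩ := by
  rw [Fintype.sum_sigma, Finset.sum_eq_single i]
  · exact Finset.sum_congr rfl fun q _ => by rw [bdR_eq]
  · intro j _ hj
    exact Finset.sum_eq_zero fun q _ => by rw [bdR_ne ρ g hj.symm, zero_mul]
  · intro h
    exact absurd (Finset.mem_univ i) h

lemma sum_right (g : G) (i : σ) (p : Fin (d i)) (v : (Σ i, Fin (d i)) → k) :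
    ∑ s, v s * bdR ρ g s ⟨i, p⟩ = ∑ q, v ⟨i, q⟩ * ρ i g q p := by
  rw [Fintype.sum_sigma, Finset.sum_eq_single i]
  · exact Finset.sum_congr rfl fun q _ => by rw [bdR_eq]
  · intro j _ hj
    exact Finset.sum_eq_zero fun q _ => by rw [bdR_ne ρ g hj, mul_zero]
  · intro h
    exact absurd (Finset.mem_univ i) h

end dir

theorem dir : S_DIR := by
  intro k _ G _ _ σ τ ι _ _ _ _ a b A B I D f hij c hc1 hc2 hc3 hc4
  have hX : ∀ i j, ∃ x : Matrix (Fin (a i)) (Fin (b j)) k, ∀ g,
      (Matrix.of fun p q => c g ⟨i, p⟩ ⟨j, q⟩ : Matrix (Fin (a i)) (Fin (b j)) k) =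
        A i g * x - x * B j g := by
    intro i j
    refine hij i j (fun g => Matrix.of fun p q => c g ⟨i, p⟩ ⟨j, q⟩) ?_ ?_ ?_ ?_
    · intro p q
      exact hc1 ⟨i, p⟩ ⟨j, q⟩
    · intro g h
      ext p q
      show c (g * h) ⟨i, p⟩ ⟨j, q⟩ = _
      rw [hc2, Matrix.add_apply, Matrix.mul_apply, Matrix.mul_apply, sum_left, sum_right,
        Matrix.add_apply, Matrix.mul_apply, Matrix.mul_apply]
      rfl
    · intro g hg
      ext p q
      show c g ⟨i, p⟩ ⟨j, q⟩ = 0
      rw [hc3 g hg]
      rfl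
    · intro l y hy
      set Y : (Σ j, Fin (b j)) → k := fun s => if h : s.1 = j then y (h ▸ s.2) else 0 with hY
      have hYj : ∀ q, Y ⟨j, q⟩ = y q := by
        intro q
        rw [hY]
        simp
      have hYn : ∀ j', j' ≠ j → ∀ q, Y ⟨j', q⟩ = 0 := by
        intro j' hj' q
        rw [hY]
        simp [hj']
      have hYe : Y ∈ eig (fun g => bdR B g) (D l) (f l) := by
        intro d hd
        funext s
        obtain ⟨j', q⟩ := s
        show ∑ s, bdR B d ⟨j', q⟩ s * Y s = f l d * Y ⟨j', q⟩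
        rw [sum_left]
        by_cases hj' : j' = j
        · subst hj'
          have h1 := congrFun (hy d hd) q
          rw [hYj]
          have h2 : ∑ q', B j' d q q' * Y ⟨j', q'⟩ = ∑ q', B j' d q q' * y q' :=
            Finset.sum_congr rfl fun q' _ => by rw [hYj]
          rw [h2]
          exact h1
        · rw [hYn j' hj', mul_zero]
          exact Finset.sum_eq_zero fun q' _ => by rw [hYn j' hj', mul_zero]
      obtain ⟨u, hu⟩ := hc4 l Y hYe
      refine ⟨fun p => u ⟨i, p⟩, fun d hd => ?_⟩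
      funext p
      have h1 := congrFun (hu d hd) ⟨i, p⟩
      have h2 : ∑ s, bdR A d ⟨i, p⟩ s * u s + ∑ s, c d ⟨i, p⟩ s * Y s = f l d * u ⟨i, p⟩ := h1
      rw [sum_left, Fintype.sum_sigma, Finset.sum_eq_single j] at h2
      · show ∑ q, A i d p q * u ⟨i, q⟩ + ∑ q, c d ⟨i, p⟩ ⟨j, q⟩ * y q = f l d * u ⟨i, p⟩
        rw [← h2]
        congr 1
        exact Finset.sum_congr rfl fun q _ => by rw [hYj]
      · intro j' _ hj'
        exact Finset.sum_eq_zero fun q' _ => by rw [hYn j' hj', mul_zero]
      · intro h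
        exact absurd (Finset.mem_univ j) h
  choose X hX using hX
  refine ⟨Matrix.of fun s t => X s.1 t.1 s.2 t.2, fun g => ?_⟩
  ext s t
  obtain ⟨i, p⟩ := s
  obtain ⟨j, q⟩ := t
  have h1 := congrFun (congrFun (hX i j g) p) q
  rw [Matrix.sub_apply, Matrix.mul_apply, Matrix.mul_apply] at h1
  rw [Matrix.sub_apply, Matrix.mul_apply, Matrix.mul_apply, sum_left, sum_right]
  exact h1

end Pool.Agent.H97.RL
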