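import Pool.Agent.H499.RL.Stm

/-!
# Project RL (helper499), job ITER: iterated conjugation to a block lower triangular representation
-/

set_option autoImplicit false

namespace Pool.Agent.H596.RL

open Matrix Filter Topology
open Pool.Agent.H499.RL

section bounds

variable {F : Type} [NormedField F] [IsUltrametricDist F]

theorem mul_bd {a b c : Type} [Fintype b] {M : Matrix a b F} {N : Matrix b c F} {s t : ℝ} (hs : 0 ≤ s)
    (ht : 0 ≤ t) (hM : ∀ i j, ‖M i j‖ ≤ s) (hN : ∀ i j, ‖N i j‖ ≤ t) (i : a) (k : c) :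
    ‖(M * N) i k‖ ≤ s * t := by
  rw [Matrix.mul_apply]
  apply IsUltrametricDist.norm_sum_le_of_forall_le_of_nonneg (mul_nonneg hs ht)
  intro j _
  rw [norm_mul]
  exact mul_le_mul (hM i j) (hN j k) (norm_nonneg _) hs

theorem add_bd {x y : F} {t : ℝ} (hx : ‖x‖ ≤ t) (hy : ‖y‖ ≤ t) : ‖x + y‖ ≤ t :=
  (IsUltrametricDist.norm_add_le_max _ _).trans (max_le hx hy)

theorem sub_bd {x y : F} {t : ℝ} (hx : ‖x‖ ≤ t) (hy : ‖y‖ ≤ t) : ‖x - y‖ ≤ t := by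
  rw [sub_eq_add_neg]
  exact add_bd hx (by rwa [norm_neg])

end bounds

section conj

variable {F : Type} [Field F] {G α β : Type} [Group G] [Fintype α] [DecidableEq α] [Fintype β] [DecidableEq β]

/-- the conjugate of a representation -/
def cj {ν : Type} [Fintype ν] [DecidableEq ν] (R : G →* Matrix ν ν F) (T : GL ν F) : G →* Matrix ν ν F where
  toFun g := ((T⁻¹ : GL ν F) : Matrix ν ν F) * R g * (T : Matrix ν ν F)
  map_one' := by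
    rw [map_one, Matrix.mul_one]
    exact T.inv_mul
  map_mul' g h := by
    rw [map_mul]
    have e : (T : Matrix ν ν F) * ((T⁻¹ : GL ν F) : Matrix ν ν F) = 1 := T.mul_inv
    calc ((T⁻¹ : GL ν F) : Matrix ν ν F) * (R g * R h) * (T : Matrix ν ν F)
        = ((T⁻¹ : GL ν F) : Matrix ν ν F) * R g * 1 * R h * (T : Matrix ν ν F) := by
          simp only [Matrix.mul_one, Matrix.mul_assoc]
      _ = _ := by
          rw [← e]
          simp only [Matrix.mul_assoc]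

theorem cj_rel {ν : Type} [Fintype ν] [DecidableEq ν] (R : G →* Matrix ν ν F) (T : GL ν F) (g : G) :
    R g * (T : Matrix ν ν F) = (T : Matrix ν ν F) * cj R T g := by
  have e : (T : Matrix ν ν F) * ((T⁻¹ : GL ν F) : Matrix ν ν F) = 1 := T.mul_inv
  show _ = (T : Matrix ν ν F) * (((T⁻¹ : GL ν F) : Matrix ν ν F) * R g * (T : Matrix ν ν F))
  rw [← Matrix.mul_assoc, ← Matrix.mul_assoc, e, Matrix.one_mul]

/-- the matrix `(ϖ, -x; 0, 1)` -/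
def TT (ϖ : F) (hϖ : ϖ ≠ 0) (x : Matrix α β F) : GL (α ⊕ β) F where
  val := fromBlocks (ϖ • 1) (-x) 0 1
  inv := fromBlocks (ϖ⁻¹ • 1) (ϖ⁻¹ • x) 0 1
  val_inv := by
    rw [fromBlocks_multiply, ← fromBlocks_one]
    simp [smul_smul, hϖ]
  inv_val := by
    rw [fromBlocks_multiply, ← fromBlocks_one]
    simp [smul_smul, hϖ]

theorem cj_blocks (R : G →* Matrix (α ⊕ β) (α ⊕ β) F) (ϖ : F) (hϖ : ϖ ≠ 0) (x : Matrix α β F) (g : G) :
    cj R (TT ϖ hϖ x) g = fromBlocks ((R g).toBlocks₁₁ + x * (R g).toBlocks₂₁)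
      (ϖ⁻¹ • ((R g).toBlocks₁₂ - (R g).toBlocks₁₁ * x + x * (R g).toBlocks₂₂ - x * (R g).toBlocks₂₁ * x))
      (ϖ • (R g).toBlocks₂₁) ((R g).toBlocks₂₂ - (R g).toBlocks₂₁ * x) := by
  show fromBlocks (ϖ⁻¹ • 1) (ϖ⁻¹ • x) 0 1 * R g * fromBlocks (ϖ • 1) (-x) 0 1 = _
  conv_lhs => rw [← fromBlocks_toBlocks (R g)]
  rw [fromBlocks_multiply, fromBlocks_multiply]
  congr 1
  · simp [smul_smul, hϖ]
  · simp only [Matrix.smul_mul, Matrix.one_mul, Matrix.mul_neg, Matrix.mul_one, Matrix.add_mul]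
    module
  · simp
  · simp only [Matrix.zero_mul, Matrix.one_mul, zero_add, Matrix.mul_neg, Matrix.mul_one]
    abel

end conj

section iter

variable {F : Type} [NormedField F] [IsUltrametricDist F] {G α β : Type} [Group G] [Fintype α] [DecidableEq α]
  [Fintype β] [DecidableEq β]

/-- the state after `k` steps -/
def Inv (A : G → Matrix α α F) (B : G → Matrix β β F) (P : (G →* Matrix (α ⊕ β) (α ⊕ β) F) → Prop) (ϖ : F)
    (γ₀ γ' C : ℝ) (R : G →* Matrix (α ⊕ β) (α ⊕ β) F) (k : ℕ)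
    (S : (G →* Matrix (α ⊕ β) (α ⊕ β) F) × Matrix α β F) : Prop :=
  P S.1 ∧ (∀ g p q, ‖(S.1 g).toBlocks₁₁ p q - A g p q‖ ≤ γ') ∧
    (∀ g p q, ‖(S.1 g).toBlocks₂₂ p q - B g p q‖ ≤ γ') ∧ (∀ g p q, ‖(S.1 g).toBlocks₂₁ p q‖ ≤ γ₀) ∧
    (∀ g p q, ‖(S.1 g).toBlocks₁₂ p q‖ ≤ 1) ∧ (∀ p q, ‖S.2 p q‖ ≤ C) ∧
    ∀ g, R g * fromBlocks (ϖ ^ k • (1 : Matrix α α F)) S.2 0 (1 : Matrix β β F) =
      fromBlocks (ϖ ^ k • (1 : Matrix α α F)) S.2 0 (1 : Matrix β β F) * S.1 g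

theorem step (A : G → Matrix α α F) (B : G → Matrix β β F) (P : (G →* Matrix (α ⊕ β) (α ⊕ β) F) → Prop)
    (hP : ∀ R, P R → ∀ (X : GL (α ⊕ β) F) (R' : G →* Matrix (α ⊕ β) (α ⊕ β) F),
      (∀ g, R g * (X : Matrix (α ⊕ β) (α ⊕ β) F) = (X : Matrix (α ⊕ β) (α ⊕ β) F) * R' g) → P R')
    (ϖ : F) (hϖ : ϖ ≠ 0) (hϖ1 : ‖ϖ‖ < 1) (γ C γ₀ : ℝ) (hC : 1 ≤ C) (h0 : 0 ≤ γ₀) (h1 : C * γ₀ ≤ γ)
    (h2 : C ^ 3 * γ₀ ≤ ‖ϖ‖)
    (H : ∀ R, P R → Near A B (fun g => R g) γ → ∃ x : Matrix α β F, (∀ p q, ‖x p q‖ ≤ C) ∧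
      ∀ g p q, ‖((R g).toBlocks₁₂ - (A g * x - x * B g)) p q‖ ≤ ‖ϖ‖)
    (R : G →* Matrix (α ⊕ β) (α ⊕ β) F) (k : ℕ) (S : (G →* Matrix (α ⊕ β) (α ⊕ β) F) × Matrix α β F)
    (hS : Inv A B P ϖ γ₀ (C * γ₀) C R k S) :
    ∃ S' : (G →* Matrix (α ⊕ β) (α ⊕ β) F) × Matrix α β F, Inv A B P ϖ γ₀ (C * γ₀) C R (k + 1) S' ∧
      ∀ p q, ‖S'.2 p q - S.2 p q‖ ≤ C * ‖ϖ‖ ^ k := by
  obtain ⟨R₁, X⟩ := S
  obtain ⟨i1, i2, i3, i4, i5, i6, i7⟩ := hS
  simp only at i1 i2 i3 i4 i5 i6 i7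
  have hC0 : 0 ≤ C := by linarith
  have hγ0 : γ₀ ≤ C * γ₀ := le_mul_of_one_le_left h0 hC
  have hγ' : 0 ≤ C * γ₀ := mul_nonneg hC0 h0
  obtain ⟨x, hx1, hx2⟩ := H R₁ i1 ⟨fun g p q => (i2 g p q).trans h1, fun g p q => (i3 g p q).trans h1,
    fun g p q => ((i4 g p q).trans hγ0).trans h1, i5⟩
  have hϖ0 : 0 < ‖ϖ‖ := norm_pos_iff.2 hϖ
  set T := TT ϖ hϖ x with hT
  have hTv : (T : Matrix (α ⊕ β) (α ⊕ β) F) = fromBlocks (ϖ • 1) (-x) 0 1 := rfl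
  have hPT : fromBlocks (ϖ ^ (k + 1) • (1 : Matrix α α F)) (X - ϖ ^ k • x) 0 (1 : Matrix β β F) =
      fromBlocks (ϖ ^ k • (1 : Matrix α α F)) X 0 (1 : Matrix β β F) * (T : Matrix (α ⊕ β) (α ⊕ β) F) := by
    rw [hTv, fromBlocks_multiply]
    congr 1
    · simp [smul_smul, pow_succ, mul_comm]
    · simp only [Matrix.smul_mul, Matrix.one_mul, Matrix.mul_one]
      module
    · simp
    · simp
  have hb : ∀ (p : α) (q : β), ‖(ϖ ^ k • x) p q‖ ≤ C * ‖ϖ‖ ^ k := by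
    intro p q
    rw [Matrix.smul_apply, smul_eq_mul, norm_mul, norm_pow, mul_comm]
    exact mul_le_mul_of_nonneg_right (hx1 p q) (by positivity)
  have hb1 : ∀ (p : α) (q : β), ‖(ϖ ^ k • x) p q‖ ≤ C := fun p q =>
    (hb p q).trans (mul_le_of_le_one_right hC0 (pow_le_one₀ hϖ0.le hϖ1.le))
  refine ⟨(cj R₁ T, X - ϖ ^ k • x), ⟨hP R₁ i1 T _ (cj_rel R₁ T), ?_, ?_, ?_, ?_, ?_, ?_⟩, ?_⟩
  · intro g p q
    show ‖(cj R₁ T g).toBlocks₁₁ p q - A g p q‖ ≤ C * γ₀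
    rw [hT, cj_blocks, toBlocks_fromBlocks₁₁, Matrix.add_apply, add_sub_right_comm]
    exact add_bd (i2 g p q) (mul_bd hC0 h0 hx1 (i4 g) p q)
  · intro g p q
    show ‖(cj R₁ T g).toBlocks₂₂ p q - B g p q‖ ≤ C * γ₀
    rw [hT, cj_blocks, toBlocks_fromBlocks₂₂, Matrix.sub_apply, sub_right_comm]
    exact sub_bd (i3 g p q) (by rw [mul_comm C]; exact mul_bd h0 hC0 (i4 g) hx1 p q)
  · intro g p q
    show ‖(cj R₁ T g).toBlocks₂₁ p q‖ ≤ γ₀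
    rw [hT, cj_blocks, toBlocks_fromBlocks₂₁, Matrix.smul_apply, smul_eq_mul, norm_mul]
    calc ‖ϖ‖ * ‖(R₁ g).toBlocks₂₁ p q‖ ≤ 1 * γ₀ :=
          mul_le_mul hϖ1.le (i4 g p q) (norm_nonneg _) zero_le_one
      _ = γ₀ := one_mul _
  · intro g p q
    show ‖(cj R₁ T g).toBlocks₁₂ p q‖ ≤ 1
    rw [hT, cj_blocks, toBlocks_fromBlocks₁₂, Matrix.smul_apply, smul_eq_mul, norm_mul, norm_inv]
    have hA : ∀ i j, ‖((R₁ g).toBlocks₁₁ - A g) i j‖ ≤ C * γ₀ := i2 g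
    have hB : ∀ i j, ‖((R₁ g).toBlocks₂₂ - B g) i j‖ ≤ C * γ₀ := i3 g
    have e : (R₁ g).toBlocks₁₂ - (R₁ g).toBlocks₁₁ * x + x * (R₁ g).toBlocks₂₂ - x * (R₁ g).toBlocks₂₁ * x =
        (R₁ g).toBlocks₁₂ - (A g * x - x * B g) - ((R₁ g).toBlocks₁₁ - A g) * x +
          x * ((R₁ g).toBlocks₂₂ - B g) - x * (R₁ g).toBlocks₂₁ * x := by
      rw [Matrix.sub_mul, Matrix.mul_sub]
      abel
    have hC3 : C * γ₀ * C ≤ ‖ϖ‖ := by
      refine le_trans ?_ h2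
      have : C ^ 2 ≤ C ^ 3 := pow_le_pow_right₀ hC (by norm_num)
      calc C * γ₀ * C = C ^ 2 * γ₀ := by ring
        _ ≤ C ^ 3 * γ₀ := mul_le_mul_of_nonneg_right this h0
    have hfin : ‖((R₁ g).toBlocks₁₂ - (R₁ g).toBlocks₁₁ * x + x * (R₁ g).toBlocks₂₂ -
        x * (R₁ g).toBlocks₂₁ * x) p q‖ ≤ ‖ϖ‖ := by
      rw [e, Matrix.sub_apply, Matrix.add_apply, Matrix.sub_apply]
      refine sub_bd (add_bd (sub_bd (hx2 g p q) ?_) ?_) ?_
      · exact (mul_bd hγ' hC0 hA hx1 p q).trans hC3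
      · exact (mul_bd hC0 hγ' hx1 hB p q).trans (by rw [mul_comm C]; exact hC3)
      · exact (mul_bd hγ' hC0 (mul_bd hC0 h0 hx1 (i4 g)) hx1 p q).trans hC3
    rw [inv_mul_le_iff₀ hϖ0, mul_one]
    exact hfin
  · intro p q
    show ‖(X - ϖ ^ k • x) p q‖ ≤ C
    rw [Matrix.sub_apply]
    exact sub_bd (i6 p q) (hb1 p q)
  · intro g
    show R g * fromBlocks (ϖ ^ (k + 1) • (1 : Matrix α α F)) (X - ϖ ^ k • x) 0 (1 : Matrix β β F) =
      fromBlocks (ϖ ^ (k + 1) • (1 : Matrix α α F)) (X - ϖ ^ k • x) 0 (1 : Matrix β β F) * cj R₁ T g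
    rw [hPT, ← Matrix.mul_assoc, i7 g, Matrix.mul_assoc, cj_rel, Matrix.mul_assoc]
  · intro p q
    show ‖(X - ϖ ^ k • x) p q - X p q‖ ≤ C * ‖ϖ‖ ^ k
    rw [Matrix.sub_apply, sub_sub_cancel_left, norm_neg]
    exact hb p q

end iter

theorem mat_tendsto {F α β : Type} [TopologicalSpace F] {S : ℕ → Matrix α β F} {Y : Matrix α β F}
    (h : ∀ p q, Tendsto (fun k => S k p q) atTop (𝓝 (Y p q))) : Tendsto S atTop (𝓝 Y) := by
  have h1 : ∀ p, Tendsto (fun k => S k p) atTop (𝓝 (Y p)) := fun p => tendsto_pi_nhds.2 (h p)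
  exact (tendsto_pi_nhds (f := fun (k : ℕ) (p : α) => (S k p : β → F)) (g := fun p => Y p)).2 h1

theorem iter : S_ITER := by
  intro F _ _ _ G _ α β _ _ _ _ A B hA hB P hP ϖ hϖ hϖ1 γ C hγ hC H R hR hN
  have hC0 : 0 < C := by linarith
  have hϖ0 : 0 < ‖ϖ‖ := norm_pos_iff.2 hϖ
  set γ₀ := min γ ‖ϖ‖ / C ^ 3 with hγ₀
  have h0 : 0 ≤ γ₀ := by positivity
  have h2 : C ^ 3 * γ₀ = min γ ‖ϖ‖ := by
    rw [hγ₀]; field_simp
  have h1 : C * γ₀ ≤ γ := by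
    have : C ^ 1 ≤ C ^ 3 := pow_le_pow_right₀ hC (by norm_num)
    rw [pow_one] at this
    calc C * γ₀ ≤ C ^ 3 * γ₀ := mul_le_mul_of_nonneg_right this h0
      _ = min γ ‖ϖ‖ := h2
      _ ≤ γ := min_le_left _ _
  have hγ0 : γ₀ ≤ C * γ₀ := le_mul_of_one_le_left h0 hC
  have hstep := step A B P hP ϖ hϖ hϖ1 γ C γ₀ hC h0 h1 (h2.le.trans (min_le_right _ _)) H R
  have hinit : Inv A B P ϖ γ₀ (C * γ₀) C R 0 (R, 0) := by
    refine ⟨hR, fun g p q => (hN.1 g p q).trans hγ0, fun g p q => (hN.2.1 g p q).trans hγ0, hN.2.2.1,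
      hN.2.2.2, fun p q => ?_, fun g => ?_⟩
    · show ‖(0 : Matrix α β F) p q‖ ≤ C
      rw [Matrix.zero_apply, norm_zero]
      exact hC0.le
    · show R g * fromBlocks (ϖ ^ 0 • (1 : Matrix α α F)) 0 0 (1 : Matrix β β F) =
        fromBlocks (ϖ ^ 0 • (1 : Matrix α α F)) 0 0 (1 : Matrix β β F) * R g
      rw [pow_zero, one_smul, fromBlocks_one, Matrix.mul_one, Matrix.one_mul]
  -- the sequence
  have hex : ∃ S : ℕ → (G →* Matrix (α ⊕ β) (α ⊕ β) F) × Matrix α β F, (∀ k, Inv A B P ϖ γ₀ (C * γ₀) C R k (S k)) ∧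
      ∀ k p q, ‖(S (k + 1)).2 p q - (S k).2 p q‖ ≤ C * ‖ϖ‖ ^ k := by
    choose! f hf1 hf2 using hstep
    let S : ℕ → (G →* Matrix (α ⊕ β) (α ⊕ β) F) × Matrix α β F := fun k => Nat.rec (R, 0) (fun k s => f k s) k
    have hS : ∀ k, Inv A B P ϖ γ₀ (C * γ₀) C R k (S k) := by
      intro k
      induction k with
      | zero => exact hinit
      | succ k ih => exact hf1 k _ ih
    exact ⟨S, hS, fun k => hf2 k _ (hS k)⟩
  obtain ⟨S, hS, hd⟩ := hex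
  have hcau : ∀ p q, CauchySeq fun k => (S k).2 p q := by
    intro p q
    refine cauchySeq_of_le_geometric ‖ϖ‖ C hϖ1 fun k => ?_
    rw [dist_comm, dist_eq_norm]
    exact hd k p q
  have hlim : ∀ p q, ∃ y, Tendsto (fun k => (S k).2 p q) atTop (𝓝 y) := fun p q =>
    cauchySeq_tendsto_of_complete (hcau p q)
  choose Y hY using hlim
  have hX : Tendsto (fun k => (S k).2) atTop (𝓝 (Matrix.of Y)) := mat_tendsto hY
  refine ⟨Matrix.of Y, fun p q => ?_, fun g => ?_⟩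
  · exact le_of_tendsto (hY p q).norm (Eventually.of_forall fun k => (hS k).2.2.2.2.2.1 p q)
  · -- the equation for `S k`
    have heq : ∀ k, (R g).toBlocks₁₁ * (S k).2 + (R g).toBlocks₁₂ -
        (S k).2 * ((R g).toBlocks₂₁ * (S k).2 + (R g).toBlocks₂₂) = ϖ ^ k • ((S k).1 g).toBlocks₁₂ := by
      intro k
      have h := (hS k).2.2.2.2.2.2 g
      have e1 : R g * fromBlocks (ϖ ^ k • (1 : Matrix α α F)) (S k).2 0 (1 : Matrix β β F) =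
          fromBlocks (ϖ ^ k • (R g).toBlocks₁₁) ((R g).toBlocks₁₁ * (S k).2 + (R g).toBlocks₁₂)
            (ϖ ^ k • (R g).toBlocks₂₁) ((R g).toBlocks₂₁ * (S k).2 + (R g).toBlocks₂₂) := by
        conv_lhs => rw [← fromBlocks_toBlocks (R g)]
        rw [fromBlocks_multiply]
        simp
      have e2 : fromBlocks (ϖ ^ k • (1 : Matrix α α F)) (S k).2 0 (1 : Matrix β β F) * (S k).1 g =
          fromBlocks (ϖ ^ k • ((S k).1 g).toBlocks₁₁ + (S k).2 * ((S k).1 g).toBlocks₂₁)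
            (ϖ ^ k • ((S k).1 g).toBlocks₁₂ + (S k).2 * ((S k).1 g).toBlocks₂₂)
            (((S k).1 g).toBlocks₂₁) (((S k).1 g).toBlocks₂₂) := by
        conv_lhs => rw [← fromBlocks_toBlocks ((S k).1 g)]
        rw [fromBlocks_multiply]
        simp
      rw [e1, e2, fromBlocks_inj] at h
      rw [h.2.1, h.2.2.2]
      abel
    have hcont : Continuous fun X : Matrix α β F => (R g).toBlocks₁₁ * X + (R g).toBlocks₁₂ -
        X * ((R g).toBlocks₂₁ * X + (R g).toBlocks₂₂) := by fun_prop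
    have ht1 := (hcont.tendsto (Matrix.of Y)).comp hX
    have ht2 : Tendsto (fun k => ϖ ^ k • ((S k).1 g).toBlocks₁₂) atTop (𝓝 (0 : Matrix α β F)) := by
      refine mat_tendsto fun p q => ?_
      show Tendsto (fun k => ϖ ^ k • ((S k).1 g).toBlocks₁₂ p q) atTop (𝓝 0)
      rw [tendsto_zero_iff_norm_tendsto_zero]
      refine squeeze_zero (fun _ => norm_nonneg _) (fun k => ?_) (tendsto_pow_atTop_nhds_zero_of_lt_one hϖ0.le hϖ1)
      rw [smul_eq_mul, norm_mul, norm_pow]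
      exact mul_le_of_le_one_right (by positivity) ((hS k).2.2.2.2.1 g p q)
    have ht3 : Tendsto (fun k => ϖ ^ k • ((S k).1 g).toBlocks₁₂) atTop
        (𝓝 ((R g).toBlocks₁₁ * Matrix.of Y + (R g).toBlocks₁₂ -
          Matrix.of Y * ((R g).toBlocks₂₁ * Matrix.of Y + (R g).toBlocks₂₂))) := by
      refine ht1.congr fun k => ?_
      exact heq k
    have := tendsto_nhds_unique ht3 ht2
    exact sub_eq_zero.1 this

end Pool.Agent.H596.RL
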