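import Pool.Agent.H499.RL.Stm

/-!
# The dimension of the space of solutions under field extension (job KER of RL)
-/

set_option autoImplicit false

namespace Pool.Agent.H389.RL

open Matrix Pool.Agent.H499.RL

theorem ker : S_KER := by
  classical
  intro E L _ _ _ D ν _ _ M U V hU hV
  set B := Module.Basis.ofVectorSpace E L with hB
  -- coordinates of elements of `V` are in `U`
  have hcoord : ∀ v ∈ V, ∀ k, (fun j => B.coord k (v j)) ∈ U := by
    intro v hv k
    rw [hU]
    intro d
    have h1 := (hV v).1 hv d
    funext i
    have h2 := congrFun h1 i
    simp only [Matrix.mulVec, dotProduct, Matrix.map_apply, Pi.zero_apply] at h2 ⊢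
    have h3 := congrArg (B.coord k) h2
    rw [map_sum, map_zero] at h3
    rw [← h3]
    refine Finset.sum_congr rfl fun j _ => ?_
    rw [← Algebra.smul_def, map_smul, smul_eq_mul]
  -- the image of `U` is in `V`
  have himg : ∀ u ∈ U, (fun j => algebraMap E L (u j)) ∈ V := by
    intro u hu
    rw [hV]
    intro d
    have h1 := (hU u).1 hu d
    funext i
    have h2 := congrFun h1 i
    simp only [Matrix.mulVec, dotProduct, Matrix.map_apply, Pi.zero_apply] at h2 ⊢
    have h3 := congrArg (algebraMap E L) h2
    rw [map_sum, map_zero] at h3
    rw [← h3]
    refine Finset.sum_congr rfl fun j _ => ?_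
    rw [map_mul]
  set b := Module.finBasis E U with hb
  set w : Fin (Module.finrank E U) → ν → L := fun i j => algebraMap E L ((b i : ν → E) j) with hw
  have hli : LinearIndependent L w := by
    rw [Fintype.linearIndependent_iff]
    intro c hc i
    have hk : ∀ k, B.coord k (c i) = 0 := by
      intro k
      have h1 : ∑ i, B.coord k (c i) • b i = 0 := by
        apply Subtype.ext
        funext j
        have h2 := congrFun hc j
        rw [Finset.sum_apply] at h2
        have h3 := congrArg (B.coord k) h2
        rw [map_sum, Pi.zero_apply, map_zero] at h3
        rw [Submodule.coe_sum, Finset.sum_apply]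
        simp only [Submodule.coe_smul, Pi.smul_apply, smul_eq_mul, Submodule.coe_zero,
          Pi.zero_apply]
        rw [← h3]
        refine Finset.sum_congr rfl fun i _ => ?_
        simp only [Pi.smul_apply, smul_eq_mul, hw]
        rw [mul_comm (c i), ← Algebra.smul_def, map_smul, smul_eq_mul, mul_comm]
      exact Fintype.linearIndependent_iff.1 b.linearIndependent _ h1 i
    apply B.repr.injective
    ext k
    rw [map_zero, Finsupp.zero_apply]
    exact hk k
  have hspan : Submodule.span L (Set.range w) = V := by
    apply le_antisymm
    · rw [Submodule.span_le]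
      rintro _ ⟨i, rfl⟩
      exact himg _ (b i).2
    · intro v hv
      have himg2 : ∀ u ∈ U, (fun j => algebraMap E L (u j)) ∈ Submodule.span L (Set.range w) := by
        intro u hu
        have h1 := b.sum_repr ⟨u, hu⟩
        have h2 : (fun j => algebraMap E L (u j)) =
            ∑ i, algebraMap E L (b.repr ⟨u, hu⟩ i) • w i := by
          funext j
          have h3 := congrFun (congrArg Subtype.val h1) j
          rw [Submodule.coe_sum, Finset.sum_apply] at h3
          rw [Finset.sum_apply]
          change _ = u j at h3
          rw [← h3, map_sum]
          refine Finset.sum_congr rfl fun i _ => ?_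
          simp only [Submodule.coe_smul, Pi.smul_apply, smul_eq_mul, hw, map_mul]
        rw [h2]
        exact Submodule.sum_mem _ fun i _ =>
          Submodule.smul_mem _ _ (Submodule.subset_span ⟨i, rfl⟩)
      set s : Finset _ := Finset.univ.biUnion (fun j => (B.repr (v j)).support) with hs
      have hv2 : v = ∑ k ∈ s, B k • (fun j => algebraMap E L (B.coord k (v j))) := by
        funext j
        rw [Finset.sum_apply]
        simp only [Pi.smul_apply, smul_eq_mul]
        have h1 : v j = ∑ k ∈ (B.repr (v j)).support, B.repr (v j) k • B k := by
          have := B.linearCombination_repr (v j)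
          rw [Finsupp.linearCombination_apply, Finsupp.sum] at this
          exact this.symm
        conv_lhs => rw [h1]
        rw [Finset.sum_subset (Finset.subset_biUnion_of_mem
          (fun j => (B.repr (v j)).support) (Finset.mem_univ j))]
        · refine Finset.sum_congr rfl fun k _ => ?_
          rw [Algebra.smul_def, mul_comm]
          rfl
        · intro k _ hk
          rw [Finsupp.notMem_support_iff.1 hk, zero_smul]
      rw [hv2]
      exact Submodule.sum_mem _ fun k _ => Submodule.smul_mem _ _ (himg2 _ (hcoord v hv k))
  rw [← hspan, finrank_span_eq_card hli, Fintype.card_fin]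

end Pool.Agent.H389.RL
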