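import Pool.Agent.H499.RL.Stm
import Pool.Agent.H499.SM.ORTH

/-! Job LOC of the project RL (helper499), by helper267. -/

set_option autoImplicit false
set_option linter.all false

namespace Pool.Agent.H267.RL

open Matrix Filter Topology Module
open Pool.Agent.H499.RL
open Pool.Agent.H499.SM (Crd exists_crd norm_sum_le' sub_le_max add_le_max)

theorem mulVec_le {E κ μ : Type} [NormedField E] [IsUltrametricDist E] [Fintype κ] [Fintype μ]
    {M : Matrix κ μ E} {s : ℝ} (hs : 0 ≤ s) (hM : ∀ i j, ‖M i j‖ ≤ s) (x : μ → E) :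
    ‖M *ᵥ x‖ ≤ s * ‖x‖ := by
  rw [pi_norm_le_iff_of_nonneg (mul_nonneg hs (norm_nonneg _))]
  intro i
  rw [Matrix.mulVec, dotProduct]
  refine norm_sum_le' _ _ (mul_nonneg hs (norm_nonneg _)) fun j _ => ?_
  rw [norm_mul]
  exact mul_le_mul (hM i j) (norm_le_pi_norm x j) (norm_nonneg _) hs

/-- the bound on a complement of the eigenspace -/
theorem compl_bd {E : Type} [NontriviallyNormedField E] [ProperSpace E] {G κ : Type} [Fintype κ] [DecidableEq κ]
    (A : G → Matrix κ κ E) (D : Set G) (f : G → E) (W : Submodule E (κ → E)) (hW : IsCompl (eig A D f) W) :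
    ∃ C : ℝ, 0 < C ∧ ∀ w ∈ W, ∀ t : ℝ, 0 ≤ t → (∀ d ∈ D, ‖A d *ᵥ w - f d • w‖ ≤ t) → ‖w‖ ≤ C * t := by
  by_contra hcon
  push Not at hcon
  choose w hw t ht hwt hwn using fun m : ℕ => hcon ((m : ℝ) + 1) (by positivity)
  obtain ⟨c, hc⟩ := NormedField.exists_one_lt_norm E
  have hw0 : ∀ m, w m ≠ 0 := by
    intro m h
    have := hwn m
    rw [h, norm_zero] at this
    exact absurd (this.trans_le le_rfl) (not_lt.2 (mul_nonneg (by positivity) (ht m)))
  choose d hd0 hd1 hd2 hd3 using fun m => rescale_to_shell hc one_pos (hw0 m)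
  set 𝓤 : Ultrafilter ℕ := hyperfilter ℕ with h𝓤
  have hle : (𝓤 : Filter ℕ) ≤ atTop := Nat.hyperfilter_le_atTop
  have hcomp := isCompact_closedBall (0 : κ → E) 1
  obtain ⟨y, hy, hlim⟩ := hcomp.ultrafilter_le_nhds (𝓤.map fun m => d m • w m) (by
    rw [Ultrafilter.coe_map, le_principal_iff]
    refine Filter.mem_map.2 (Filter.univ_mem' fun m => ?_)
    rw [Set.mem_preimage, mem_closedBall_zero_iff]
    exact (hd1 m).le)
  have hlim' : Tendsto (fun m => d m • w m) 𝓤 (𝓝 y) := hlim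
  have hyW : y ∈ W := by
    have hcl : IsClosed (W : Set (κ → E)) := Submodule.closed_of_finiteDimensional W
    exact hcl.mem_of_tendsto hlim' (Filter.Eventually.of_forall fun m => W.smul_mem _ (hw m))
  have hyn : 1 / ‖c‖ ≤ ‖y‖ := ge_of_tendsto hlim'.norm (Filter.Eventually.of_forall fun m => hd2 m)
  have hyI : y ∈ eig A D f := by
    intro g hg
    have h1 : Tendsto (fun m => A g *ᵥ (d m • w m) - f g • (d m • w m)) 𝓤 (𝓝 0) := by
      refine squeeze_zero_norm (a := fun m : ℕ => 1 / ((m : ℝ) + 1)) (fun m => ?_)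
        (tendsto_one_div_add_atTop_nhds_zero_nat.mono_left hle)
      rw [Matrix.mulVec_smul, smul_comm (f g) (d m), ← smul_sub, norm_smul]
      have h2 := hwt m g hg
      have h3 : ‖d m‖ * ‖w m‖ < 1 := by
        rw [← norm_smul]
        exact hd1 m
      have h4 : ((m : ℝ) + 1) * t m < ‖w m‖ := hwn m
      have h5 : 0 < ‖d m‖ := norm_pos_iff.2 (hd0 m)
      rw [le_div_iff₀ (by positivity)]
      calc ‖d m‖ * ‖A g *ᵥ w m - f g • w m‖ * ((m : ℝ) + 1) ≤ ‖d m‖ * t m * ((m : ℝ) + 1) := by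
            refine mul_le_mul_of_nonneg_right (mul_le_mul_of_nonneg_left h2 h5.le) (by positivity)
        _ = ‖d m‖ * (((m : ℝ) + 1) * t m) := by ring
        _ ≤ ‖d m‖ * ‖w m‖ := mul_le_mul_of_nonneg_left h4.le h5.le
        _ ≤ 1 := h3.le
    have h2 : Tendsto (fun m => A g *ᵥ (d m • w m) - f g • (d m • w m)) 𝓤 (𝓝 (A g *ᵥ y - f g • y)) := by
      have hcont : Continuous fun v : κ → E => A g *ᵥ v := continuous_const.matrix_mulVec continuous_id
      exact ((hcont.tendsto y).comp hlim').sub (hlim'.const_smul (f g))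
    exact sub_eq_zero.1 (tendsto_nhds_unique h2 h1)
  have h0 : y = 0 := by
    have := hW.disjoint.le_bot ⟨hyI, hyW⟩
    exact this
  rw [h0, norm_zero] at hyn
  have : 0 < 1 / ‖c‖ := by positivity
  linarith

/-- the projection to the eigenspace, as a product of two matrices -/
theorem proj_exists {E : Type} [NontriviallyNormedField E] [ProperSpace E] {G κ : Type} [Fintype κ]
    [DecidableEq κ] (A : G → Matrix κ κ E) (D : Set G) (f : G → E) :
    ∃ (U : Matrix κ (Fin (finrank E (eig A D f))) E) (V : Matrix (Fin (finrank E (eig A D f))) κ E),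
      (∀ d ∈ D, A d * (U * V) = f d • (U * V)) ∧ (∀ x ∈ eig A D f, (U * V) *ᵥ x = x) ∧
      ∃ c : ℝ, 0 < c ∧ ∀ x : κ → E, ∀ t : ℝ, 0 ≤ t → (∀ d ∈ D, ‖A d *ᵥ x - f d • x‖ ≤ t) →
        ‖x - (U * V) *ᵥ x‖ ≤ c * t := by
  obtain ⟨W, hW⟩ := exists_isCompl (eig A D f)
  obtain ⟨c, hc0, hc⟩ := compl_bd A D f W hW
  set b := Module.finBasis E (eig A D f) with hb
  set pr := Submodule.linearProjOfIsCompl (eig A D f) W hW with hpr
  set vL : (κ → E) →ₗ[E] (Fin (finrank E (eig A D f)) → E) := b.equivFun.toLinearMap ∘ₗ pr with hvL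
  set uL : (Fin (finrank E (eig A D f)) → E) →ₗ[E] (κ → E) :=
    (eig A D f).subtype ∘ₗ b.equivFun.symm.toLinearMap with huL
  have hUV : ∀ x, (LinearMap.toMatrix' uL * LinearMap.toMatrix' vL) *ᵥ x = (pr x : κ → E) := by
    intro x
    rw [← Matrix.mulVec_mulVec, LinearMap.toMatrix'_mulVec, LinearMap.toMatrix'_mulVec]
    simp [huL, hvL]
  refine ⟨LinearMap.toMatrix' uL, LinearMap.toMatrix' vL, fun d hd => ?_, fun x hx => ?_, c, hc0, fun x t ht h => ?_⟩
  · refine Matrix.ext_of_mulVec_single fun i => ?_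
    rw [← Matrix.mulVec_mulVec, hUV, Matrix.smul_mulVec, hUV]
    exact (pr _).2 d hd
  · rw [hUV]
    have := Submodule.linearProjOfIsCompl_apply_left hW ⟨x, hx⟩
    exact congrArg Subtype.val this
  · rw [hUV]
    have hmem : x - (pr x : κ → E) ∈ W := by
      rw [← Submodule.linearProjOfIsCompl_apply_eq_zero_iff hW, map_sub, sub_eq_zero]
      exact (Submodule.linearProjOfIsCompl_apply_left hW (pr x)).symm
    refine hc _ hmem t ht fun d hd => ?_
    have h1 := (pr x).2 d hd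
    rw [Matrix.mulVec_sub, h1, smul_sub]
    have h2 := h d hd
    have e : A d *ᵥ x - f d • (pr x : κ → E) - (f d • x - f d • (pr x : κ → E)) = A d *ᵥ x - f d • x := by abel
    rw [e]
    exact h2

section L

variable {E L : Type} [NormedField E] [IsUltrametricDist E] [NormedField L] [NormedAlgebra E L] [IsUltrametricDist L]
  {r : ℕ} {q : ℝ} (K : Crd E L r q) {κ μ : Type} [Fintype κ] [Fintype μ]

/-- the coordinates of a vector -/
def co (j : Fin r) (x : κ → L) : κ → E := fun k => K.π j (x k)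

theorem norm_co (hq : 0 ≤ q) (j : Fin r) (x : κ → L) : ‖co K j x‖ ≤ q * ‖x‖ := by
  rw [pi_norm_le_iff_of_nonneg (mul_nonneg hq (norm_nonneg _))]
  intro k
  exact (K.le j _).trans (mul_le_mul_of_nonneg_left (norm_le_pi_norm x k) hq)

theorem norm_le_co (x : κ → L) {t : ℝ} (ht : 0 ≤ t) (h : ∀ j, ‖co K j x‖ ≤ t) : ‖x‖ ≤ t := by
  rw [pi_norm_le_iff_of_nonneg ht]
  intro k
  rw [← K.sum (x k)]
  refine norm_sum_le' _ _ ht fun j _ => ?_
  rw [norm_smul]
  calc ‖K.π j (x k)‖ * ‖K.e j‖ ≤ t * 1 :=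
        mul_le_mul ((norm_le_pi_norm (co K j x) k).trans (h j)) (K.e_le j) (norm_nonneg _) ht
    _ = t := mul_one t

theorem co_mulVec (j : Fin r) (M : Matrix κ μ E) (x : μ → L) :
    co K j (M.map (algebraMap E L) *ᵥ x) = M *ᵥ co K j x := by
  funext k
  rw [co, Matrix.mulVec, Matrix.mulVec, dotProduct, dotProduct, map_sum]
  refine Finset.sum_congr rfl fun i _ => ?_
  rw [Matrix.map_apply, ← Algebra.smul_def, map_smul, smul_eq_mul, co]

theorem co_sub (j : Fin r) (x y : κ → L) : co K j (x - y) = co K j x - co K j y := by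
  funext k
  rw [co, Pi.sub_apply, map_sub, Pi.sub_apply, co, co]

theorem co_smul (j : Fin r) (a : E) (x : κ → L) : co K j (algebraMap E L a • x) = a • co K j x := by
  funext k
  rw [co, Pi.smul_apply, Pi.smul_apply, smul_eq_mul, ← Algebra.smul_def, map_smul, co]

end L

/-- the bound over `L` -/
theorem projL {E L : Type} [NormedField E] [IsUltrametricDist E] [NormedField L] [NormedAlgebra E L]
    [IsUltrametricDist L] {r : ℕ} {q : ℝ} (hq : 0 ≤ q) (K : Crd E L r q) {G κ : Type} [Fintype κ] [DecidableEq κ]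
    {A : G → Matrix κ κ E} {D : Set G} {f : G → E} {P : Matrix κ κ E} {c : ℝ} (hc0 : 0 ≤ c)
    (hc : ∀ x : κ → E, ∀ t : ℝ, 0 ≤ t → (∀ d ∈ D, ‖A d *ᵥ x - f d • x‖ ≤ t) → ‖x - P *ᵥ x‖ ≤ c * t)
    (x : κ → L) (t : ℝ) (ht : 0 ≤ t)
    (h : ∀ d ∈ D, ‖(A d).map (algebraMap E L) *ᵥ x - algebraMap E L (f d) • x‖ ≤ t) :
    ‖x - P.map (algebraMap E L) *ᵥ x‖ ≤ c * q * t := by
  refine norm_le_co K _ (mul_nonneg (mul_nonneg hc0 hq) ht) fun j => ?_
  rw [co_sub, co_mulVec, mul_assoc]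
  refine hc _ _ (mul_nonneg hq ht) fun d hd => ?_
  rw [← co_mulVec, ← co_smul, ← co_sub]
  exact (norm_co K hq j _).trans (mul_le_mul_of_nonneg_left (h d hd) hq)

theorem three_le {V : Type} [SeminormedAddCommGroup V] [IsUltrametricDist V] {x y z w : V} {t : ℝ}
    (e : w = x - y + z) (hx : ‖x‖ ≤ t) (hy : ‖y‖ ≤ t) (hz : ‖z‖ ≤ t) : ‖w‖ ≤ t := by
  rw [e]
  exact (add_le_max _ _).trans (max_le ((sub_le_max _ _).trans (max_le hx hy)) hz)

theorem loc : S_LOC := by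
  intro E _ _ _ G α β _ _ _ _ A B D f hA hB hf
  obtain ⟨UA, VA, hA1, hA2, cA, hcA0, hcA⟩ := proj_exists A D f
  obtain ⟨UB, VB, hB1, hB2, cB, hcB0, hcB⟩ := proj_exists B D f
  obtain ⟨ϖ, hϖ0, hϖ1⟩ := NormedField.exists_norm_lt_one E
  set q : ℝ := ‖ϖ‖⁻¹ with hq
  have hq0 : 0 < q := inv_pos.2 hϖ0
  set c3 : ℝ := max 1 (max (cA * q) (cB * q)) with hc3
  have h1c3 : 1 ≤ c3 := le_max_left _ _
  have hc30 : 0 < c3 := lt_of_lt_of_le one_pos h1c3
  have hAc3 : cA * q ≤ c3 := (le_max_left _ _).trans (le_max_right _ _)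
  have hBc3 : cB * q ≤ c3 := (le_max_right _ _).trans (le_max_right _ _)
  refine ⟨c3 ^ 2, one_le_pow₀ h1c3, ?_⟩
  intro L _ _ _ _ R f' γ hγ0 hγ hN hff hdim y hy hy1
  obtain ⟨r, ⟨K⟩⟩ := exists_crd Pool.Agent.H122.SM.orth hϖ0 hϖ1 L
  obtain ⟨hN11, hN22, hN21, hN12⟩ := hN
  set a := algebraMap E L with ha
  -- the maps
  have hmul : ∀ (d : G) (v : α ⊕ β → L), d ∈ D → v ∈ eig R D f' →
      ((R d).toBlocks₁₁ *ᵥ (v ∘ Sum.inl) + (R d).toBlocks₁₂ *ᵥ (v ∘ Sum.inr) = f' d • (v ∘ Sum.inl)) ∧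
      ((R d).toBlocks₂₁ *ᵥ (v ∘ Sum.inl) + (R d).toBlocks₂₂ *ᵥ (v ∘ Sum.inr) = f' d • (v ∘ Sum.inr)) := by
    intro d v hd hv
    have h1 := hv d hd
    rw [← Matrix.fromBlocks_toBlocks (R d), Matrix.fromBlocks_mulVec] at h1
    constructor
    · funext i
      have := congrFun h1 (Sum.inl i)
      simpa using this
    · funext i
      have := congrFun h1 (Sum.inr i)
      simpa using this
  -- estimates
  have hw : ∀ v ∈ eig R D f', ‖(v ∘ Sum.inr) - (UB * VB).map a *ᵥ (v ∘ Sum.inr)‖ ≤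
      c3 * (γ * max ‖v ∘ Sum.inl‖ ‖v ∘ Sum.inr‖) := by
    intro v hv
    set u : α → L := v ∘ Sum.inl with hu
    set w : β → L := v ∘ Sum.inr with hw
    have hM0 : 0 ≤ max ‖u‖ ‖w‖ := (norm_nonneg _).trans (le_max_left _ _)
    have h0 := projL hq0.le K hcB0.le hcB w (γ * max ‖u‖ ‖w‖) (mul_nonneg hγ0 hM0) (fun d hd => by
      have e := (hmul d v hd hv).2
      have h1 : ‖(R d).toBlocks₂₁ *ᵥ u‖ ≤ γ * max ‖u‖ ‖w‖ :=
        (mulVec_le hγ0 (hN21 d) u).trans (mul_le_mul_of_nonneg_left (le_max_left _ _) hγ0)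
      have h2 : ‖((R d).toBlocks₂₂ - (B d).map a) *ᵥ w‖ ≤ γ * max ‖u‖ ‖w‖ :=
        (mulVec_le hγ0 (hN22 d) w).trans (mul_le_mul_of_nonneg_left (le_max_right _ _) hγ0)
      have h3 : ‖(f' d - a (f d)) • w‖ ≤ γ * max ‖u‖ ‖w‖ := by
        rw [norm_smul]
        exact mul_le_mul (hff d hd) (le_max_right _ _) (norm_nonneg _) hγ0
      refine three_le (x := -((R d).toBlocks₂₁ *ᵥ u)) ?_ ((norm_neg _).trans_le h1) h2 h3
      rw [Matrix.sub_mulVec, sub_smul, ← e]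
      abel)
    refine h0.trans (mul_le_mul_of_nonneg_right hBc3 (mul_nonneg hγ0 hM0))
  have hu : ∀ v ∈ eig R D f', ‖(v ∘ Sum.inl) - (UA * VA).map a *ᵥ (v ∘ Sum.inl)‖ ≤
      c3 * max (γ * ‖v ∘ Sum.inl‖) ‖v ∘ Sum.inr‖ := by
    intro v hv
    set u : α → L := v ∘ Sum.inl with hu
    set w : β → L := v ∘ Sum.inr with hw
    have hM0 : 0 ≤ max (γ * ‖u‖) ‖w‖ := (norm_nonneg _).trans (le_max_right _ _)
    have h0 := projL hq0.le K hcA0.le hcA u (max (γ * ‖u‖) ‖w‖) hM0 (fun d hd => by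
      have e := (hmul d v hd hv).1
      have h1 : ‖(R d).toBlocks₁₂ *ᵥ w‖ ≤ max (γ * ‖u‖) ‖w‖ :=
        (mulVec_le zero_le_one (hN12 d) w).trans (by rw [one_mul]; exact le_max_right _ _)
      have h2 : ‖((R d).toBlocks₁₁ - (A d).map a) *ᵥ u‖ ≤ max (γ * ‖u‖) ‖w‖ :=
        (mulVec_le hγ0 (hN11 d) u).trans (le_max_left _ _)
      have h3 : ‖(f' d - a (f d)) • u‖ ≤ max (γ * ‖u‖) ‖w‖ := by
        rw [norm_smul]
        exact (mul_le_mul_of_nonneg_right (hff d hd) (norm_nonneg _)).trans (le_max_left _ _)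
      refine three_le (x := -((R d).toBlocks₁₂ *ᵥ w)) ?_ ((norm_neg _).trans_le h1) h2 h3
      rw [Matrix.sub_mulVec, sub_smul, ← e]
      abel)
    refine h0.trans (mul_le_mul_of_nonneg_right hAc3 hM0)
  -- bound of both components by the projections
  have hboth : ∀ v ∈ eig R D f', (UA * VA).map a *ᵥ (v ∘ Sum.inl) = 0 → ∀ s : ℝ, 0 ≤ s →
      ‖(UB * VB).map a *ᵥ (v ∘ Sum.inr)‖ ≤ s → max ‖v ∘ Sum.inl‖ ‖v ∘ Sum.inr‖ ≤ c3 * s := by
    intro v hv h1 s hs h2
    have h3 := hw v hv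
    have h4 := hu v hv
    rw [h1, sub_zero] at h4
    set X : ℝ := ‖v ∘ Sum.inl‖ with hX
    set Y : ℝ := ‖v ∘ Sum.inr‖ with hY
    have hX0 : 0 ≤ X := norm_nonneg _
    have hY0 : 0 ≤ Y := norm_nonneg _
    set M : ℝ := max X Y with hM
    have hM0 : 0 ≤ M := hX0.trans (le_max_left _ _)
    have h5 : Y ≤ max (c3 * (γ * M)) s := by
      have e : v ∘ Sum.inr = ((v ∘ Sum.inr) - (UB * VB).map a *ᵥ (v ∘ Sum.inr)) +
        (UB * VB).map a *ᵥ (v ∘ Sum.inr) := by abel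
      have h6 := add_le_max ((v ∘ Sum.inr) - (UB * VB).map a *ᵥ (v ∘ Sum.inr)) ((UB * VB).map a *ᵥ (v ∘ Sum.inr))
      rw [← e] at h6
      exact h6.trans (max_le_max h3 h2)
    have h6 : γ * X ≤ c3 * (γ * M) := by
      have : γ * X ≤ γ * M := mul_le_mul_of_nonneg_left (le_max_left _ _) hγ0
      nlinarith [mul_nonneg hγ0 hM0]
    have h7 : X ≤ c3 * max (c3 * (γ * M)) s :=
      h4.trans (mul_le_mul_of_nonneg_left (max_le (h6.trans (le_max_left _ _)) h5) hc30.le)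
    have h8 : max (c3 * (γ * M)) s ≤ c3 * max (c3 * (γ * M)) s := by
      have : 0 ≤ max (c3 * (γ * M)) s := hs.trans (le_max_right _ _)
      nlinarith
    have h9 : M ≤ c3 * max (c3 * (γ * M)) s := max_le h7 (h5.trans h8)
    rcases le_total (c3 * (γ * M)) s with h10 | h10
    · rwa [max_eq_right h10] at h9
    · rw [max_eq_left h10] at h9
      have h11 : M ≤ 0 := by
        by_contra h12
        push Not at h12
        have h13 : c3 * (c3 * (γ * M)) = (c3 ^ 2 * γ) * M := by ring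
        rw [h13] at h9
        nlinarith
      exact h11.trans (mul_nonneg hc30.le hs)
  -- the linear map
  set Φ : eig R D f' →ₗ[L] ((Fin (finrank E (eig A D f)) → L) × (Fin (finrank E (eig B D f)) → L)) :=
    LinearMap.prod
      ((VA.map a).mulVecLin ∘ₗ (LinearMap.funLeft L L (Sum.inl : α → α ⊕ β)) ∘ₗ (eig R D f').subtype)
      ((VB.map a).mulVecLin ∘ₗ (LinearMap.funLeft L L (Sum.inr : β → α ⊕ β)) ∘ₗ (eig R D f').subtype) with hΦ
  have hΦ1 : ∀ v : eig R D f', (Φ v).1 = VA.map a *ᵥ ((v : α ⊕ β → L) ∘ Sum.inl) := fun v => rfl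
  have hΦ2 : ∀ v : eig R D f', (Φ v).2 = VB.map a *ᵥ ((v : α ⊕ β → L) ∘ Sum.inr) := fun v => rfl
  have hmapA : (UA * VA).map a = UA.map a * VA.map a := Matrix.map_mul
  have hmapB : (UB * VB).map a = UB.map a * VB.map a := Matrix.map_mul
  have hinj : Function.Injective Φ := by
    rw [← LinearMap.ker_eq_bot, LinearMap.ker_eq_bot']
    intro v hv
    have h1 : VA.map a *ᵥ ((v : α ⊕ β → L) ∘ Sum.inl) = 0 := by rw [← hΦ1, hv]; rfl
    have h2 : VB.map a *ᵥ ((v : α ⊕ β → L) ∘ Sum.inr) = 0 := by rw [← hΦ2, hv]; rfl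
    have h3 := hboth v v.2 (by rw [hmapA, ← Matrix.mulVec_mulVec, h1, Matrix.mulVec_zero]) 0 le_rfl
      (by rw [hmapB, ← Matrix.mulVec_mulVec, h2, Matrix.mulVec_zero, norm_zero])
    rw [mul_zero] at h3
    have h4 : ((v : α ⊕ β → L) ∘ Sum.inl) = 0 := norm_le_zero_iff.1 ((le_max_left _ _).trans h3)
    have h5 : ((v : α ⊕ β → L) ∘ Sum.inr) = 0 := norm_le_zero_iff.1 ((le_max_right _ _).trans h3)
    apply Subtype.ext
    funext i
    rcases i with i | i
    · exact congrFun h4 i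
    · exact congrFun h5 i
  have hsurj : Function.Surjective Φ := by
    have h1 := LinearMap.finrank_le_finrank_of_injective hinj
    rw [Module.finrank_prod, Module.finrank_fin_fun, Module.finrank_fin_fun] at h1
    refine (LinearMap.injective_iff_surjective_of_finrank_eq_finrank ?_).1 hinj
    rw [Module.finrank_prod, Module.finrank_fin_fun, Module.finrank_fin_fun]
    exact le_antisymm h1 hdim
  obtain ⟨v, hv⟩ := hsurj (0, VB.map a *ᵥ (fun k => a (y k)))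
  have hv1 : VA.map a *ᵥ ((v : α ⊕ β → L) ∘ Sum.inl) = 0 := by rw [← hΦ1, hv]
  have hv2 : VB.map a *ᵥ ((v : α ⊕ β → L) ∘ Sum.inr) = VB.map a *ᵥ (fun k => a (y k)) := by rw [← hΦ2, hv]
  have hyy : (UB * VB).map a *ᵥ (fun k => a (y k)) = fun k => a (y k) := by
    have h1 := hB2 y hy
    funext k
    conv_rhs => rw [← h1]
    rw [Matrix.mulVec, Matrix.mulVec, dotProduct, dotProduct, map_sum]
    exact Finset.sum_congr rfl fun i _ => by rw [map_mul]; rfl
  have hPA : (UA * VA).map a *ᵥ ((v : α ⊕ β → L) ∘ Sum.inl) = 0 := by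
    rw [hmapA, ← Matrix.mulVec_mulVec, hv1, Matrix.mulVec_zero]
  have hPB : (UB * VB).map a *ᵥ ((v : α ⊕ β → L) ∘ Sum.inr) = fun k => a (y k) := by
    rw [hmapB, ← Matrix.mulVec_mulVec, hv2, Matrix.mulVec_mulVec, ← hmapB, hyy]
  have hyn : ‖(fun k => a (y k) : β → L)‖ ≤ 1 := by
    rw [pi_norm_le_iff_of_nonneg zero_le_one]
    intro k
    rw [ha, norm_algebraMap']
    exact (norm_le_pi_norm y k).trans hy1
  have hM := hboth v v.2 hPA 1 zero_le_one (by rw [hPB]; exact hyn)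
  rw [mul_one] at hM
  have hwy := hw v v.2
  rw [hPB] at hwy
  set u : α → L := (v : α ⊕ β → L) ∘ Sum.inl with hudef
  set w : β → L := (v : α ⊕ β → L) ∘ Sum.inr with hwdef
  have hule : ‖u‖ ≤ c3 := (le_max_left _ _).trans hM
  have hcsq : c3 ≤ c3 ^ 2 := by nlinarith
  have hwy' : ‖w - fun k => a (y k)‖ ≤ c3 ^ 2 * γ := by
    refine hwy.trans ?_
    have : c3 * (γ * max ‖u‖ ‖w‖) ≤ c3 * (γ * c3) :=
      mul_le_mul_of_nonneg_left (mul_le_mul_of_nonneg_left hM hγ0) hc30.le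
    refine this.trans (le_of_eq (by ring))
  refine ⟨u, hule.trans hcsq, fun d hd => ?_⟩
  have e := (hmul d v hd v.2).1
  have hγu : γ * ‖u‖ ≤ c3 ^ 2 * γ := by
    have : γ * ‖u‖ ≤ γ * c3 := mul_le_mul_of_nonneg_left hule hγ0
    nlinarith
  have h1 : ‖((R d).toBlocks₁₁ - (A d).map a) *ᵥ u‖ ≤ c3 ^ 2 * γ :=
    (mulVec_le hγ0 (hN11 d) u).trans hγu
  have h2 : ‖(R d).toBlocks₁₂ *ᵥ (w - fun k => a (y k))‖ ≤ c3 ^ 2 * γ :=
    (mulVec_le zero_le_one (hN12 d) _).trans (by rw [one_mul]; exact hwy')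
  have h3 : ‖(f' d - a (f d)) • u‖ ≤ c3 ^ 2 * γ := by
    rw [norm_smul]
    exact (mul_le_mul_of_nonneg_right (hff d hd) (norm_nonneg _)).trans hγu
  refine three_le (x := -(((R d).toBlocks₁₁ - (A d).map a) *ᵥ u)) ?_ ((norm_neg _).trans_le h1) h2 h3
  rw [Matrix.sub_mulVec, Matrix.mulVec_sub, sub_smul, ← e]
  abel

end Pool.Agent.H267.RL
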