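import Pool.Agent.H499.RL.Stm

/-!
# Near traces imply conjugate to a near representation (job ND of RL): ultraproduct argument
-/

set_option autoImplicit false

namespace Pool.Agent.H389.RL.ND

open Matrix Filter Topology Pool.Agent.H499.RL

section ring

variable (L : Type) [NormedField L]

/-- the ring of bounded sequences -/
def BR : Subring (ℕ → L) where
  carrier := {x | ∃ C : ℝ, ∀ m, ‖x m‖ ≤ C}
  mul_mem' := by
    rintro x y ⟨C, hC⟩ ⟨D, hD⟩
    exact ⟨C * D, fun m => by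
      rw [Pi.mul_apply, norm_mul]
      exact mul_le_mul (hC m) (hD m) (norm_nonneg _) ((norm_nonneg _).trans (hC m))⟩
  one_mem' := ⟨1, fun m => by rw [Pi.one_apply, norm_one]⟩
  add_mem' := by
    rintro x y ⟨C, hC⟩ ⟨D, hD⟩
    exact ⟨C + D, fun m => (norm_add_le _ _).trans (add_le_add (hC m) (hD m))⟩
  zero_mem' := ⟨0, fun m => by rw [Pi.zero_apply, norm_zero]⟩
  neg_mem' := by
    rintro x ⟨C, hC⟩
    exact ⟨C, fun m => by rw [Pi.neg_apply, norm_neg]; exact hC m⟩

/-- evaluation -/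
def ev (m : ℕ) : BR L →+* L := (Pi.evalRingHom (fun _ => L) m).comp (BR L).subtype

variable {L} in
theorem ev_apply (m : ℕ) (x : BR L) : ev L m x = (x : ℕ → L) m := rfl

/-- constant sequences -/
def cst : L →+* BR L := (Pi.constRingHom ℕ L).codRestrict (BR L) (fun x => ⟨‖x‖, fun _ => le_rfl⟩)

variable {L} in
theorem ev_cst (m : ℕ) (x : L) : ev L m (cst L x) = x := rfl

/-- the ideal of the null sequences along the ultrafilter -/
def mI : Ideal (BR L) where
  carrier := {x | Tendsto (fun m => ev L m x) (hyperfilter ℕ : Filter ℕ) (𝓝 0)}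
  add_mem' := by
    intro x y hx hy
    have hx' : Tendsto (fun m => ev L m x) (hyperfilter ℕ : Filter ℕ) (𝓝 0) := hx
    have hy' : Tendsto (fun m => ev L m y) (hyperfilter ℕ : Filter ℕ) (𝓝 0) := hy
    have h := Tendsto.add hx' hy'
    rw [add_zero] at h
    refine h.congr fun m => ?_
    rw [map_add]
  zero_mem' := by
    refine (tendsto_const_nhds (x := (0 : L))).congr fun m => ?_
    rw [map_zero]
  smul_mem' := by
    intro c x hx
    obtain ⟨C, hC⟩ := c.2
    have hx' : Tendsto (fun m => ev L m x) (hyperfilter ℕ : Filter ℕ) (𝓝 0) := hx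
    have h := (hx'.norm).const_mul C
    rw [norm_zero, mul_zero] at h
    refine squeeze_zero_norm (fun m => ?_) h
    rw [smul_eq_mul, map_mul, norm_mul]
    exact mul_le_mul_of_nonneg_right (hC m) (norm_nonneg _)

variable {L}

theorem mem_mI {x : BR L} :
    x ∈ mI L ↔ Tendsto (fun m => ev L m x) (hyperfilter ℕ : Filter ℕ) (𝓝 0) := Iff.rfl

theorem mem_mI' {x : BR L} :
    x ∈ mI L ↔ ∀ δ : ℝ, 0 < δ → ∀ᶠ m in (hyperfilter ℕ : Filter ℕ), ‖ev L m x‖ < δ := by
  rw [mem_mI, Metric.tendsto_nhds]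
  simp only [dist_zero_right, gt_iff_lt]

theorem mem_of_ev {x : BR L} (h : ∀ᶠ m in (hyperfilter ℕ : Filter ℕ), ev L m x = 0) :
    x ∈ mI L := by
  rw [mem_mI']
  intro δ hδ
  filter_upwards [h] with m hm
  rw [hm, norm_zero]
  exact hδ

theorem key {x : BR L} (hx : x ∉ mI L) :
    ∃ c : ℝ, 0 < c ∧ ∀ᶠ m in (hyperfilter ℕ : Filter ℕ), c ≤ ‖ev L m x‖ := by
  by_contra hcon
  push Not at hcon
  apply hx
  rw [mem_mI']
  intro δ hδ
  exact hcon δ hδ

theorem one_notMem : (1 : BR L) ∉ mI L := by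
  rw [mem_mI']
  intro h
  obtain ⟨m, hm⟩ := (h 1 one_pos).exists
  rw [map_one, norm_one] at hm
  exact lt_irrefl _ hm

theorem exists_unit {x : BR L} {c : ℝ} (hc : 0 < c) (h : ∀ m, c ≤ ‖ev L m x‖) : IsUnit x := by
  refine IsUnit.of_mul_eq_one ⟨fun m => (ev L m x)⁻¹, c⁻¹, fun m => ?_⟩ ?_
  · rw [norm_inv]
    exact inv_anti₀ hc (h m)
  · apply Subtype.ext
    funext m
    have : ev L m x ≠ 0 := by
      intro h0
      have := h m
      rw [h0, norm_zero] at this
      exact absurd this (not_le.2 hc)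
    exact mul_inv_cancel₀ this

instance mI_max : (mI L).IsMaximal := by
  rw [Ideal.isMaximal_iff]
  refine ⟨one_notMem, ?_⟩
  intro J x hJ hx hxJ
  obtain ⟨c, hc, h⟩ := key hx
  classical
  set y : BR L := ⟨fun m => if c ≤ ‖ev L m x‖ then (ev L m x)⁻¹ else 0, c⁻¹, fun m => by
    beta_reduce
    split_ifs with h1
    · rw [norm_inv]
      exact inv_anti₀ hc h1
    · rw [norm_zero]
      exact (inv_pos.2 hc).le⟩ with hy
  have h1 : x * y - 1 ∈ mI L := by
    apply mem_of_ev
    filter_upwards [h] with m hm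
    have hy' : ev L m y = (ev L m x)⁻¹ := by
      rw [hy, ev_apply]
      simp only [hm, if_true]
    have : ev L m x ≠ 0 := by
      intro h0
      rw [h0, norm_zero] at hm
      exact absurd hm (not_le.2 hc)
    rw [map_sub, map_mul, map_one, hy', mul_inv_cancel₀ this, sub_self]
  have h2 : x * y - (x * y - 1) ∈ J := J.sub_mem (J.mul_mem_right y hxJ) (hJ h1)
  rwa [sub_sub_cancel] at h2

/-- the field -/
noncomputable instance fld : Field (BR L ⧸ mI L) := Ideal.Quotient.field (mI L)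

/-- the projection -/
noncomputable def pr : BR L →+* (BR L ⧸ mI L) := Ideal.Quotient.mk (mI L)

theorem pr_surj : Function.Surjective (pr (L := L)) := Ideal.Quotient.mk_surjective

theorem pr_eq_zero {x : BR L} : pr x = 0 ↔ x ∈ mI L := Ideal.Quotient.eq_zero_iff_mem

theorem pr_eq {x y : BR L} : pr x = pr y ↔ x - y ∈ mI L := by
  rw [← sub_eq_zero, ← map_sub, pr_eq_zero]

instance [CharZero L] : CharZero (BR L ⧸ mI L) :=
  charZero_of_injective_ringHom (f := (pr (L := L)).comp (cst L)) (RingHom.injective _)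

/-- the sequences of integral elements -/
def OR [IsUltrametricDist L] : Subring (BR L) where
  carrier := {x | ∀ m, ‖ev L m x‖ ≤ 1}
  mul_mem' := by
    intro x y hx hy m
    rw [map_mul, norm_mul]
    exact mul_le_one₀ (hx m) (norm_nonneg _) (hy m)
  one_mem' := fun m => by rw [map_one, norm_one]
  add_mem' := by
    intro x y hx hy m
    rw [map_add]
    exact (IsUltrametricDist.norm_add_le_max _ _).trans (max_le (hx m) (hy m))
  zero_mem' := fun m => by rw [map_zero, norm_zero]; exact zero_le_one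
  neg_mem' := by
    intro x hx m
    rw [map_neg, norm_neg]
    exact hx m

theorem near [IsUltrametricDist L] {x y : BR L} {ϖ : L} {M : ℕ} {δ : ℝ} (hδ : 0 < δ)
    (hM : ‖ϖ‖ ^ M ≤ δ) (hy : y ∈ OR (L := L)) (h : pr x = pr (cst L ϖ) ^ M * pr y) :
    ∀ᶠ m in (hyperfilter ℕ : Filter ℕ), ‖ev L m x‖ ≤ δ := by
  rw [← map_pow, ← map_mul, pr_eq, mem_mI'] at h
  filter_upwards [h δ hδ] with m hm
  have h1 : ev L m x = ev L m (x - cst L ϖ ^ M * y) + ϖ ^ M * ev L m y := by
    rw [map_sub, map_mul, map_pow, ev_cst]; ring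
  rw [h1]
  refine (IsUltrametricDist.norm_add_le_max _ _).trans (max_le hm.le ?_)
  rw [norm_mul, norm_pow]
  calc ‖ϖ‖ ^ M * ‖ev L m y‖ ≤ ‖ϖ‖ ^ M * 1 :=
        mul_le_mul_of_nonneg_left (hy m) (pow_nonneg (norm_nonneg _) _)
    _ ≤ δ := by rwa [mul_one]

end ring

section mat

variable {L : Type} [NormedField L] {ν : Type} [Fintype ν] [DecidableEq ν]

omit [Fintype ν] [DecidableEq ν] in
theorem mext' {A B : Matrix ν ν (BR L)} (h : ∀ m, A.map (ev L m) = B.map (ev L m)) : A = B := by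
  ext p q m
  exact congrFun (congrFun (h m) p) q

theorem mext {A B : Matrix ν ν (BR L)} (h : ∀ m, (ev L m).mapMatrix A = (ev L m).mapMatrix B) :
    A = B := mext' h

/-- sequences of matrices -/
def lfm {G : Type} [Group G] (φ : ℕ → G →* Matrix ν ν L) (hφ : ∀ m g p q, ‖φ m g p q‖ ≤ 1)
    (g : ℕ → G) : Matrix ν ν (BR L) :=
  Matrix.of fun p q => ⟨fun m => φ m (g m) p q, 1, fun m => hφ m (g m) p q⟩

theorem ev_lfm {G : Type} [Group G] (φ : ℕ → G →* Matrix ν ν L) (hφ : ∀ m g p q, ‖φ m g p q‖ ≤ 1)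
    (g : ℕ → G) (m : ℕ) : (ev L m).mapMatrix (lfm φ hφ g) = φ m (g m) := rfl

/-- sequences of representations -/
def lf {G : Type} [Group G] (φ : ℕ → G →* Matrix ν ν L) (hφ : ∀ m g p q, ‖φ m g p q‖ ≤ 1) :
    (ℕ → G) →* Matrix ν ν (BR L) where
  toFun := lfm φ hφ
  map_one' := mext fun m => by rw [ev_lfm, Pi.one_apply, map_one, map_one]
  map_mul' g h := mext fun m => by
    rw [ev_lfm, map_mul, ev_lfm, ev_lfm, Pi.mul_apply, map_mul]

theorem ev_lf {G : Type} [Group G] (φ : ℕ → G →* Matrix ν ν L) (hφ : ∀ m g p q, ‖φ m g p q‖ ≤ 1)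
    (g : ℕ → G) (m : ℕ) : (ev L m).mapMatrix (lf φ hφ g) = φ m (g m) := rfl

/-- lifting of invertible matrices -/
theorem lift_GL (X : GL ν (BR L ⧸ mI L)) :
    ∃ Y : GL ν (BR L), Matrix.GeneralLinearGroup.map (pr (L := L)) Y = X := by
  classical
  choose Y0 hY0 using fun p q => pr_surj ((X : Matrix ν ν (BR L ⧸ mI L)) p q)
  set Y0' : Matrix ν ν (BR L) := Matrix.of Y0 with hY0'
  have hdet : pr Y0'.det ≠ 0 := by
    have h1 : pr Y0'.det = (X : Matrix ν ν (BR L ⧸ mI L)).det := by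
      rw [RingHom.map_det]
      congr 1
      ext p q
      exact hY0 p q
    rw [h1]
    exact ((Matrix.isUnit_iff_isUnit_det _).1 X.isUnit).ne_zero
  have hd : Y0'.det ∉ mI L := fun h => hdet (pr_eq_zero.2 h)
  obtain ⟨c, hc, h⟩ := key hd
  set Y1 : Matrix ν ν (BR L) := Matrix.of fun p q =>
    ⟨fun m => if c ≤ ‖ev L m Y0'.det‖ then ev L m (Y0' p q) else (1 : Matrix ν ν L) p q, by
      obtain ⟨C, hC⟩ := (Y0' p q).2
      refine ⟨max C ‖(1 : Matrix ν ν L) p q‖, fun m => ?_⟩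
      beta_reduce
      split_ifs with h1
      · exact (hC m).trans (le_max_left _ _)
      · exact le_max_right _ _⟩ with hY1
  have e1 : ∀ m, c ≤ ‖ev L m Y0'.det‖ → (ev L m).mapMatrix Y1 = (ev L m).mapMatrix Y0' := by
    intro m hm
    ext p q
    rw [RingHom.mapMatrix_apply, Matrix.map_apply, RingHom.mapMatrix_apply, Matrix.map_apply, hY1,
      Matrix.of_apply, ev_apply]
    simp only [hm, if_true]
  have e2 : ∀ m, ¬ c ≤ ‖ev L m Y0'.det‖ → (ev L m).mapMatrix Y1 = 1 := by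
    intro m hm
    ext p q
    rw [RingHom.mapMatrix_apply, Matrix.map_apply, hY1, Matrix.of_apply, ev_apply]
    simp only [hm, if_false]
  have hu : IsUnit Y1.det := by
    apply exists_unit (c := min c 1) (lt_min hc one_pos)
    intro m
    rw [RingHom.map_det]
    by_cases hm : c ≤ ‖ev L m Y0'.det‖
    · rw [e1 m hm, ← RingHom.map_det]
      exact (min_le_left _ _).trans hm
    · rw [e2 m hm, Matrix.det_one, norm_one]
      exact min_le_right _ _
  refine ⟨Matrix.GeneralLinearGroup.mk'' Y1 hu, ?_⟩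
  apply Units.ext
  ext p q
  have h3 : pr (Y1 p q) = pr (Y0' p q) := by
    rw [pr_eq]
    apply mem_of_ev
    filter_upwards [h] with m hm
    have := congrFun (congrFun (e1 m hm) p) q
    rw [map_sub, sub_eq_zero]
    exact this
  have h4 : pr (Y0' p q) = (X : Matrix ν ν (BR L ⧸ mI L)) p q := hY0 p q
  exact h3.trans h4

end mat

theorem nd (h1 : S_SUM) (h2 : S_DEG) : S_ND := by
  rintro L _ _ _ ⟨ϖ, hϖ0, hϖ1⟩ G _ σ _ _ d ρ hρ hspan γ hγ
  by_contra hcon
  push Not at hcon
  choose ρ' hρ'1 hρ'2 hρ'3 using fun m : ℕ => hcon (1 / ((m : ℝ) + 1)) (by positivity)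
  -- the representations over the field `k`
  set k := BR L ⧸ mI L with hk
  set P : (ℕ → G) →* Matrix (Σ i, Fin (d i)) (Σ i, Fin (d i)) (BR L) := lf ρ' hρ'1 with hP
  set Q : ∀ i, (ℕ → G) →* Matrix (Fin (d i)) (Fin (d i)) (BR L) :=
    fun i => lf (fun _ => ρ i) (fun _ g p q => hρ i g p q) with hQ
  set Ps : (ℕ → G) →* Matrix (Σ i, Fin (d i)) (Σ i, Fin (d i)) k :=
    ((pr (L := L)).mapMatrix.toMonoidHom).comp P with hPs
  set Qs : ∀ i, (ℕ → G) →* Matrix (Fin (d i)) (Fin (d i)) k :=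
    fun i => ((pr (L := L)).mapMatrix.toMonoidHom).comp (Q i) with hQs
  have hPs_apply : ∀ g p q, Ps g p q = pr (P g p q) := fun g p q => rfl
  have hQs_apply : ∀ i g p q, Qs i g p q = pr (Q i g p q) := fun i g p q => rfl
  have hPev : ∀ m g p q, ev L m (P g p q) = ρ' m (g m) p q := fun m g p q => rfl
  have hQev : ∀ m i g p q, ev L m (Q i g p q) = ρ i (g m) p q := fun m i g p q => rfl
  -- the direct sum
  have hbd : ∀ g : ℕ → G, ∃ B : Matrix (Σ i, Fin (d i)) (Σ i, Fin (d i)) (BR L),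
      (pr (L := L)).mapMatrix B = bdR Qs g ∧ ∀ m, (ev L m).mapMatrix B = bdR ρ (g m) := by
    intro g
    refine ⟨Matrix.blockDiagonal' fun i => Q i g, ?_, fun m => ?_⟩
    · change _ = Matrix.blockDiagonal' fun i => Qs i g
      rw [RingHom.mapMatrix_apply, Matrix.blockDiagonal'_map _ _ (map_zero _)]
      rfl
    · change _ = Matrix.blockDiagonal' fun i => ρ i (g m)
      rw [RingHom.mapMatrix_apply, Matrix.blockDiagonal'_map _ _ (map_zero _)]
      rfl
  -- generation
  have hgen : ∀ i, Submodule.span k (Set.range fun g => Qs i g) = ⊤ := by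
    intro i
    have hS : ∀ A : Matrix (Fin (d i)) (Fin (d i)) L,
        ((pr (L := L)).comp (cst L)).mapMatrix A ∈
          Submodule.span k (Set.range fun g => Qs i g) := by
      intro A
      have hA : A ∈ Submodule.span L (Set.range fun g => ρ i g) := by
        rw [hspan i]; exact Submodule.mem_top
      induction hA using Submodule.span_induction with
      | mem x hx =>
        obtain ⟨g, rfl⟩ := hx
        exact Submodule.subset_span ⟨fun _ => g, rfl⟩
      | zero => rw [map_zero]; exact Submodule.zero_mem _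
      | add x y _ _ hx hy => rw [map_add]; exact Submodule.add_mem _ hx hy
      | smul a x _ hx =>
        have : ((pr (L := L)).comp (cst L)).mapMatrix (a • x) =
            ((pr (L := L)).comp (cst L)) a • ((pr (L := L)).comp (cst L)).mapMatrix x := by
          ext p q
          exact map_mul ((pr (L := L)).comp (cst L)) a (x p q)
        rw [this]
        exact Submodule.smul_mem _ _ hx
    rw [eq_top_iff]
    rintro B -
    rw [Matrix.matrix_eq_sum_single B]
    refine Submodule.sum_mem _ fun p _ => Submodule.sum_mem _ fun q _ => ?_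
    have h3 : Matrix.single p q (B p q) = B p q • ((pr (L := L)).comp (cst L)).mapMatrix
        (Matrix.single p q (1 : L)) := by
      rw [RingHom.mapMatrix_apply, Matrix.map_single, map_one, Matrix.smul_single, smul_eq_mul,
        mul_one]
    rw [h3]
    exact Submodule.smul_mem _ _ (hS _)
  have hSS := h1 k (ℕ → G) σ d Qs hgen
  -- traces
  have htr : ∀ g, (Ps g).trace = (bdR Qs g).trace := by
    intro g
    obtain ⟨B, hB1, hB2⟩ := hbd g
    have e1 : (Ps g).trace = pr (P g).trace := by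
      rw [Matrix.trace, Matrix.trace, map_sum]
      rfl
    have e2 : (bdR Qs g).trace = pr B.trace := by
      rw [← hB1, Matrix.trace, Matrix.trace, map_sum]
      rfl
    rw [e1, e2, pr_eq, mem_mI']
    intro δ hδ
    have h3 : ∀ m, ‖ev L m ((P g).trace - B.trace)‖ ≤ 1 / ((m : ℝ) + 1) := by
      intro m
      have e3 : ev L m (P g).trace = (ρ' m (g m)).trace := by
        rw [Matrix.trace, Matrix.trace, map_sum]
        rfl
      have e4 : ev L m B.trace = ∑ i, (ρ i (g m)).trace := by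
        have : ev L m B.trace = ((ev L m).mapMatrix B).trace := by
          rw [Matrix.trace, Matrix.trace, map_sum]
          rfl
        rw [this, hB2]
        change (Matrix.blockDiagonal' fun i => ρ i (g m)).trace = _
        rw [Matrix.trace_blockDiagonal']
      rw [map_sub, e3, e4]
      exact hρ'2 m (g m)
    have h4 : Tendsto (fun m : ℕ => 1 / ((m : ℝ) + 1)) (hyperfilter ℕ : Filter ℕ) (𝓝 0) :=
      tendsto_one_div_add_atTop_nhds_zero_nat.mono_left (Nat.hyperfilter_le_atTop)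
    filter_upwards [h4.eventually (gt_mem_nhds hδ)] with m hm
    exact (h3 m).trans_lt hm
  -- the ring `O`
  set O : Subring k := (OR (L := L)).map (pr (L := L)) with hO
  set w : k := pr (cst L ϖ) with hw
  have hwO : w ∈ O := ⟨cst L ϖ, fun m => by rw [ev_cst]; exact hϖ1.le, rfl⟩
  have hw0 : w ≠ 0 := by
    intro h
    rw [hw, pr_eq_zero, mem_mI'] at h
    obtain ⟨m, hm⟩ := (h ‖ϖ‖ hϖ0).exists
    rw [ev_cst] at hm
    exact lt_irrefl _ hm
  have hbdd : ∀ x : k, ∃ N : ℕ, w ^ N * x ∈ O := by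
    intro x
    obtain ⟨y, rfl⟩ := pr_surj x
    obtain ⟨C, hC⟩ := y.2
    obtain ⟨N, hN⟩ := exists_pow_lt_of_lt_one (show (0 : ℝ) < 1 / (max C 1) by positivity) hϖ1
    refine ⟨N, cst L ϖ ^ N * y, fun m => ?_, by rw [map_mul, map_pow]⟩
    rw [map_mul, map_pow, ev_cst, norm_mul, norm_pow]
    have hpos : (0 : ℝ) < max C 1 := by positivity
    calc ‖ϖ‖ ^ N * ‖ev L m y‖ ≤ 1 / (max C 1) * (max C 1) := by
          refine mul_le_mul hN.le ((hC m).trans (le_max_left _ _)) (norm_nonneg _) ?_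
          positivity
      _ = 1 := by field_simp
  have hsep : ∀ x : k, (∀ M : ℕ, ∃ y ∈ O, x = w ^ M * y) → x = 0 := by
    intro x hx
    obtain ⟨y, rfl⟩ := pr_surj x
    rw [pr_eq_zero, mem_mI']
    intro δ hδ
    obtain ⟨M, hM⟩ := exists_pow_lt_of_lt_one (show (0 : ℝ) < δ / 2 by positivity) hϖ1
    obtain ⟨_, ⟨z, hz, rfl⟩, h⟩ := hx M
    filter_upwards [near (show (0 : ℝ) < δ / 2 by positivity) hM.le hz h] with m hm
    exact hm.trans_lt (half_lt_self hδ)
  have hint : ∀ g i j, Ps g i j ∈ O := by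
    intro g i j
    exact ⟨P g i j, fun m => by rw [hPev]; exact hρ'1 m _ _ _, rfl⟩
  obtain ⟨M, hM⟩ := exists_pow_lt_of_lt_one hγ hϖ1
  obtain ⟨X, hX⟩ := h2 k (ℕ → G) (Σ i, Fin (d i)) Ps (bdR Qs) hSS htr O w hwO hw0 hbdd hsep hint M
  obtain ⟨Y, hY⟩ := lift_GL X
  -- the contradiction
  choose g p q hbad using fun m : ℕ => hρ'3 m (Matrix.GeneralLinearGroup.map (ev L m) Y)
  obtain ⟨B, hB1, hB2⟩ := hbd g
  set Z : Matrix (Σ i, Fin (d i)) (Σ i, Fin (d i)) (BR L) :=
    ((Y⁻¹ : GL (Σ i, Fin (d i)) (BR L)) : Matrix (Σ i, Fin (d i)) (Σ i, Fin (d i)) (BR L)) * P g *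
      (Y : Matrix (Σ i, Fin (d i)) (Σ i, Fin (d i)) (BR L)) - B with hZ
  have hZev : ∀ m, (ev L m).mapMatrix Z =
      (((Matrix.GeneralLinearGroup.map (ev L m) Y)⁻¹ : GL (Σ i, Fin (d i)) L) :
        Matrix (Σ i, Fin (d i)) (Σ i, Fin (d i)) L) * ρ' m (g m) *
        ((Matrix.GeneralLinearGroup.map (ev L m) Y : GL (Σ i, Fin (d i)) L) :
          Matrix (Σ i, Fin (d i)) (Σ i, Fin (d i)) L) - bdR ρ (g m) := by
    intro m
    rw [hZ, map_sub, map_mul, map_mul, hB2, ← map_inv]
    rfl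
  have hZpr : (pr (L := L)).mapMatrix Z =
      ((X⁻¹ : GL (Σ i, Fin (d i)) k) : Matrix (Σ i, Fin (d i)) (Σ i, Fin (d i)) k) * Ps g *
        (X : Matrix (Σ i, Fin (d i)) (Σ i, Fin (d i)) k) - bdR Qs g := by
    rw [hZ, map_sub, map_mul, map_mul, hB1, ← hY, ← map_inv]
    rfl
  have hev : ∀ a b, ∀ᶠ m in (hyperfilter ℕ : Filter ℕ), ‖ev L m (Z a b)‖ ≤ γ := by
    intro a b
    obtain ⟨_, ⟨y, hy, rfl⟩, h⟩ := hX g a b
    rw [← hZpr] at h
    exact near hγ hM.le hy h
  have hall : ∀ᶠ m in (hyperfilter ℕ : Filter ℕ), ∀ a b, ‖ev L m (Z a b)‖ ≤ γ := by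
    rw [eventually_all]
    intro a
    rw [eventually_all]
    exact hev a
  obtain ⟨m, hm⟩ := hall.exists
  have h5 := hbad m
  rw [← hZev m] at h5
  exact absurd (hm (p m) (q m)) (not_le.2 h5)

end Pool.Agent.H389.RL.ND
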