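import Pool.Agent.H499.RL.Stm
import Pool.Agent.H499.SM.ORTH

/-!
# Job STEP of the project RL (helper499)

The upper right block of a representation near to `A ⊕ B` is near to a coboundary, uniformly in the extension.
-/

set_option autoImplicit false
set_option linter.all false

namespace Pool.Agent.H225.RL

open Matrix Filter Topology
open Pool.Agent.H499.SM (HMFin Crd exists_crd)
open Pool.Agent.H499.RL

section aux

variable {E L : Type} [NormedField E] [NormedField L] [NormedAlgebra E L] {α β γ : Type} [Fintype α] [Fintype β]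

lemma pi_mul (π : L →ₗ[E] E) (a : E) (y : L) : π (algebraMap E L a * y) = a * π y := by
  rw [← Algebra.smul_def, map_smul, smul_eq_mul]

lemma pi_mul' (π : L →ₗ[E] E) (a : E) (y : L) : π (y * algebraMap E L a) = π y * a := by
  rw [mul_comm, pi_mul, mul_comm]

lemma pi_matA (π : L →ₗ[E] E) (A : Matrix α α E) (M : Matrix α β L) :
    (A.map (algebraMap E L) * M).map π = A * M.map π := by
  ext p k
  rw [Matrix.map_apply, Matrix.mul_apply, Matrix.mul_apply, map_sum]
  refine Finset.sum_congr rfl fun i _ => ?_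
  rw [Matrix.map_apply, Matrix.map_apply, pi_mul]

lemma pi_matB (π : L →ₗ[E] E) (B : Matrix β β E) (M : Matrix α β L) :
    (M * B.map (algebraMap E L)).map π = M.map π * B := by
  ext p k
  rw [Matrix.map_apply, Matrix.mul_apply, Matrix.mul_apply, map_sum]
  refine Finset.sum_congr rfl fun i _ => ?_
  rw [Matrix.map_apply, Matrix.map_apply, pi_mul']

lemma pi_vecA (π : L →ₗ[E] E) (A : Matrix α α E) (u : α → L) (p : α) :
    π ((A.map (algebraMap E L) *ᵥ u) p) = (A *ᵥ fun i => π (u i)) p := by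
  rw [Matrix.mulVec, Matrix.mulVec, dotProduct, dotProduct, map_sum]
  refine Finset.sum_congr rfl fun i _ => ?_
  rw [Matrix.map_apply, pi_mul]

lemma pi_vecB (π : L →ₗ[E] E) (M : Matrix α β L) (y : β → E) (p : α) :
    π ((M *ᵥ fun k => algebraMap E L (y k)) p) = (M.map π *ᵥ y) p := by
  rw [Matrix.mulVec, Matrix.mulVec, dotProduct, dotProduct, map_sum]
  refine Finset.sum_congr rfl fun i _ => ?_
  rw [Matrix.map_apply, pi_mul']

/-- the defect of the cocycle relation is small -/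
lemma defect [IsUltrametricDist L] {A₁ A₂ : Matrix α α L} {B₁ B₂ : Matrix β β L} {X Y : Matrix α β L} {t : ℝ}
    (ht : 0 ≤ t) (hA : ∀ p q, ‖A₂ p q - A₁ p q‖ ≤ t) (hB : ∀ p q, ‖B₂ p q - B₁ p q‖ ≤ t)
    (hX : ∀ p q, ‖X p q‖ ≤ 1) (hY : ∀ p q, ‖Y p q‖ ≤ 1) (p : α) (k : β) :
    ‖((A₂ * X + Y * B₂) - A₁ * X - Y * B₁) p k‖ ≤ t := by
  have e : (A₂ * X + Y * B₂) - A₁ * X - Y * B₁ = (A₂ - A₁) * X + Y * (B₂ - B₁) := by
    rw [Matrix.sub_mul, Matrix.mul_sub]
    abel
  rw [e, Matrix.add_apply, Matrix.mul_apply, Matrix.mul_apply]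
  refine (IsUltrametricDist.norm_add_le_max _ _).trans (max_le ?_ ?_)
  · refine IsUltrametricDist.norm_sum_le_of_forall_le_of_nonneg ht fun i _ => ?_
    rw [norm_mul, Matrix.sub_apply]
    calc ‖A₂ p i - A₁ p i‖ * ‖X i k‖ ≤ t * 1 := mul_le_mul (hA p i) (hX i k) (norm_nonneg _) ht
      _ = t := mul_one t
  · refine IsUltrametricDist.norm_sum_le_of_forall_le_of_nonneg ht fun i _ => ?_
    rw [norm_mul, Matrix.sub_apply]
    calc ‖Y p i‖ * ‖B₂ i k - B₁ i k‖ ≤ 1 * t := mul_le_mul (hY p i) (hB i k) (norm_nonneg _) zero_le_one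
      _ = t := one_mul t

end aux

theorem step (h1 : S_LOC) (h2 : S_APX) : S_STEP := by
  intro E _ _ _ G _ _ _ _ I hHM α β ι _ _ _ _ _ A B D f hA hB hcA hcB hf hExt η hη
  obtain ⟨ϖ, hϖ0, hϖ1⟩ := NormedField.exists_norm_lt_one E
  obtain ⟨q, hq⟩ : ∃ q : ℝ, q = ‖ϖ‖⁻¹ := ⟨_, rfl⟩
  have hq1 : 1 ≤ q := by
    rw [hq]
    exact (one_le_inv₀ hϖ0).2 hϖ1.le
  have hq0 : 0 < q := lt_of_lt_of_le one_pos hq1
  -- the constant of the local conditions
  choose C hC1 hC using fun i => h1 E G α β (fun g => A g) (fun g => B g) (D i) (f i) hA hB (hf i)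
  obtain ⟨C₁, hC₁1, hC₁⟩ : ∃ C₁ : ℝ, 1 ≤ C₁ ∧ ∀ i, C i ≤ C₁ := by
    obtain ⟨b, hb⟩ := (Set.finite_range C).bddAbove
    exact ⟨max 1 b, le_max_left _ _, fun i => (hb ⟨i, rfl⟩).trans (le_max_right _ _)⟩
  have hC₁0 : 0 < C₁ := lt_of_lt_of_le one_pos hC₁1
  obtain ⟨ε, hε, C₂, hAPX⟩ := h2 E G I hHM α β ι A B D f hA hB hcA hcB hf hExt (q * C₁) η hη
  obtain ⟨γ, hγ⟩ : ∃ γ : ℝ, γ = min (ε / (q * C₁)) (1 / (2 * C₁)) := ⟨_, rfl⟩
  have hγ0 : 0 < γ := by
    rw [hγ]
    positivity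
  have hγ1 : q * C₁ * γ ≤ ε := by
    have h3 : γ ≤ ε / (q * C₁) := by rw [hγ]; exact min_le_left _ _
    rw [le_div_iff₀ (by positivity)] at h3
    linarith
  have hγ2 : C₁ * γ < 1 := by
    have h3 : γ ≤ 1 / (2 * C₁) := by rw [hγ]; exact min_le_right _ _
    rw [le_div_iff₀ (by positivity)] at h3
    nlinarith
  have hγ3 : q * γ ≤ ε := by
    refine le_trans ?_ hγ1
    calc q * γ = q * 1 * γ := by ring
      _ ≤ q * C₁ * γ := by gcongr
  refine ⟨γ, hγ0, max 1 C₂, le_max_left _ _, ?_⟩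
  intro L _ _ _ _ R f' hcR hRI hNear hf' hfin
  obtain ⟨r, ⟨K⟩⟩ := exists_crd Pool.Agent.H122.SM.orth hϖ0 hϖ1 L
  rw [← hq] at K
  obtain ⟨n1, n2, n3, n4⟩ := hNear
  -- the block
  have hblock : ∀ g h, (R (g * h)).toBlocks₁₂ = (R g).toBlocks₁₁ * (R h).toBlocks₁₂ +
      (R g).toBlocks₁₂ * (R h).toBlocks₂₂ := by
    intro g h
    have e := Matrix.fromBlocks_multiply (R g).toBlocks₁₁ (R g).toBlocks₁₂ (R g).toBlocks₂₁ (R g).toBlocks₂₂
      (R h).toBlocks₁₁ (R h).toBlocks₁₂ (R h).toBlocks₂₁ (R h).toBlocks₂₂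
    rw [Matrix.fromBlocks_toBlocks, Matrix.fromBlocks_toBlocks] at e
    rw [map_mul, e, Matrix.toBlocks_fromBlocks₁₂]
  have hπc : ∀ j, Continuous (K.π j) := fun j =>
    (LinearMap.mkContinuous (K.π j) q (K.le j)).continuous
  -- the coordinates
  have key : ∀ j, ∃ x : Matrix α β E, (∀ p k, ‖x p k‖ ≤ C₂) ∧ ∀ g p k,
      ‖(((R g).toBlocks₁₂.map (K.π j)) - (A g * x - x * B g)) p k‖ ≤ η := by
    intro j
    refine hAPX (fun g => (R g).toBlocks₁₂.map (K.π j)) ?_ ?_ ?_ ?_ ?_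
    · intro p k
      exact (hπc j).comp (hcR (Sum.inl p) (Sum.inr k))
    · intro g p k
      rw [Matrix.map_apply]
      refine (K.le j _).trans ?_
      calc q * ‖(R g).toBlocks₁₂ p k‖ ≤ q * 1 := mul_le_mul_of_nonneg_left (n4 g p k) hq0.le
        _ ≤ q * C₁ := mul_le_mul_of_nonneg_left hC₁1 hq0.le
    · intro g h p k
      have e : ((R (g * h)).toBlocks₁₂.map (K.π j) - A g * (R h).toBlocks₁₂.map (K.π j) -
          (R g).toBlocks₁₂.map (K.π j) * B h) p k =
          K.π j (((((R g).toBlocks₁₁ * (R h).toBlocks₁₂ + (R g).toBlocks₁₂ * (R h).toBlocks₂₂)) -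
            (A g).map (algebraMap E L) * (R h).toBlocks₁₂ -
              (R g).toBlocks₁₂ * (B h).map (algebraMap E L)) p k) := by
        rw [← hblock, ← pi_matA, ← pi_matB]
        simp only [Matrix.sub_apply, Matrix.map_apply, map_sub]
      show ‖((R (g * h)).toBlocks₁₂.map (K.π j) - A g * (R h).toBlocks₁₂.map (K.π j) -
          (R g).toBlocks₁₂.map (K.π j) * B h) p k‖ ≤ ε
      rw [e]
      refine (K.le j _).trans (le_trans ?_ hγ3)
      refine mul_le_mul_of_nonneg_left ?_ hq0.le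
      exact defect hγ0.le (n1 g) (n2 h) (n4 h) (n4 g) p k
    · intro g hg
      ext p k
      rw [Matrix.map_apply, hRI g hg]
      have e : (1 : Matrix (α ⊕ β) (α ⊕ β) L).toBlocks₁₂ p k = 0 := by
        rw [Matrix.toBlocks₁₂, Matrix.of_apply]
        exact Matrix.one_apply_ne (by simp)
      rw [e, map_zero, Matrix.zero_apply]
    · intro i y hy hy1
      obtain ⟨u, hu1, hu2⟩ := hC i L (fun g => R g) (f' i) γ hγ0.le
        (lt_of_le_of_lt (mul_le_mul_of_nonneg_right (hC₁ i) hγ0.le) hγ2) ⟨n1, n2, n3, n4⟩ (hf' i) (hfin i) y hy hy1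
      refine ⟨fun p => K.π j (u p), ?_, fun d hd => ?_⟩
      · rw [pi_norm_le_iff_of_nonneg (by positivity)]
        intro p
        refine (K.le j _).trans (mul_le_mul_of_nonneg_left ?_ hq0.le)
        exact ((norm_le_pi_norm u p).trans hu1).trans (hC₁ i)
      · rw [pi_norm_le_iff_of_nonneg hε.le]
        intro p
        have e : (A d *ᵥ (fun p => K.π j (u p)) + (R d).toBlocks₁₂.map (K.π j) *ᵥ y -
            f i d • (fun p => K.π j (u p))) p =
            K.π j (((A d).map (algebraMap E L) *ᵥ u +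
              (R d).toBlocks₁₂ *ᵥ (fun k => algebraMap E L (y k)) - algebraMap E L (f i d) • u) p) := by
          rw [Pi.sub_apply, Pi.add_apply, Pi.sub_apply, Pi.add_apply, map_sub, map_add, pi_vecA, pi_vecB,
            Pi.smul_apply, Pi.smul_apply, smul_eq_mul, smul_eq_mul, pi_mul]
        rw [e]
        refine (K.le j _).trans (le_trans ?_ hγ1)
        rw [mul_assoc]
        refine mul_le_mul_of_nonneg_left ?_ hq0.le
        refine (norm_le_pi_norm _ p).trans ((hu2 d hd).trans ?_)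
        exact mul_le_mul_of_nonneg_right (hC₁ i) hγ0.le
  choose x hx1 hx2 using key
  -- the matrix over `L`
  refine ⟨Matrix.of fun p k => ∑ j, x j p k • K.e j, fun p k => ?_, fun g p k => ?_⟩
  · rw [Matrix.of_apply]
    refine IsUltrametricDist.norm_sum_le_of_forall_le_of_nonneg (by positivity) fun j _ => ?_
    rw [norm_smul]
    calc ‖x j p k‖ * ‖K.e j‖ ≤ ‖x j p k‖ * 1 := mul_le_mul_of_nonneg_left (K.e_le j) (norm_nonneg _)
      _ = ‖x j p k‖ := mul_one _
      _ ≤ C₂ := hx1 j p k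
      _ ≤ _ := le_max_right _ _
  · have e : ((R g).toBlocks₁₂ - ((A g).map (algebraMap E L) * (Matrix.of fun p k => ∑ j, x j p k • K.e j) -
        (Matrix.of fun p k => ∑ j, x j p k • K.e j) * (B g).map (algebraMap E L))) p k =
        ∑ j, (((R g).toBlocks₁₂.map (K.π j)) - (A g * x j - x j * B g)) p k • K.e j := by
      have e1 : (R g).toBlocks₁₂ p k = ∑ j, (R g).toBlocks₁₂.map (K.π j) p k • K.e j := by
        simp only [Matrix.map_apply]
        exact (K.sum _).symm
      have e2 : ((A g).map (algebraMap E L) * (Matrix.of fun p k => ∑ j, x j p k • K.e j)) p k =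
          ∑ j, (A g * x j) p k • K.e j := by
        rw [Matrix.mul_apply]
        simp only [Matrix.map_apply, Matrix.of_apply, Matrix.mul_apply, Finset.mul_sum, Finset.sum_smul]
        rw [Finset.sum_comm]
        refine Finset.sum_congr rfl fun j _ => Finset.sum_congr rfl fun i _ => ?_
        rw [mul_smul, ← Algebra.smul_def]
      have e3 : ((Matrix.of fun p k => ∑ j, x j p k • K.e j) * (B g).map (algebraMap E L)) p k =
          ∑ j, (x j * B g) p k • K.e j := by
        rw [Matrix.mul_apply]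
        simp only [Matrix.map_apply, Matrix.of_apply, Matrix.mul_apply, Finset.sum_mul, Finset.sum_smul]
        rw [Finset.sum_comm]
        refine Finset.sum_congr rfl fun j _ => Finset.sum_congr rfl fun i _ => ?_
        rw [mul_comm (x j p i) (B g i k), mul_smul, mul_comm, ← Algebra.smul_def]
      rw [Matrix.sub_apply, Matrix.sub_apply, e1, e2, e3, ← Finset.sum_sub_distrib, ← Finset.sum_sub_distrib]
      refine Finset.sum_congr rfl fun j _ => ?_
      rw [Matrix.sub_apply, Matrix.sub_apply, sub_smul, sub_smul]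
    rw [e]
    refine IsUltrametricDist.norm_sum_le_of_forall_le_of_nonneg hη.le fun j _ => ?_
    rw [norm_smul]
    calc ‖(((R g).toBlocks₁₂.map (K.π j)) - (A g * x j - x j * B g)) p k‖ * ‖K.e j‖ ≤ η * 1 :=
          mul_le_mul (hx2 j g p k) (K.e_le j) (norm_nonneg _) hη.le
      _ = η := mul_one η

end Pool.Agent.H225.RL
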