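import Pool.Agent.H499.RL.Stm

/-!
# Ribet's lemma for approximations, job SUM: a direct sum of absolutely irreducible representations is semisimple
-/

set_option autoImplicit false
set_option linter.unusedSectionVars false

namespace Pool.Agent.H643.RL

open Matrix
open Pool.Agent.H499.RL

section

variable {k G σ : Type} [Field k] [Group G] [Fintype σ] [DecidableEq σ] {d : σ → ℕ}

/-- the vectors with components in `J` only -/
def VJ (k : Type) [Field k] (d : σ → ℕ) (J : Finset σ) : Submodule k ((Σ i, Fin (d i)) → k) where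
  carrier := {x | ∀ i p, i ∉ J → x ⟨i, p⟩ = 0}
  add_mem' := by
    intro x y hx hy i p hi
    rw [Pi.add_apply, hx i p hi, hy i p hi, add_zero]
  zero_mem' := fun _ _ _ => rfl
  smul_mem' := by
    intro a x hx i p hi
    rw [Pi.smul_apply, hx i p hi, smul_zero]

theorem mem_VJ {J : Finset σ} {x : (Σ i, Fin (d i)) → k} :
    x ∈ VJ k d J ↔ ∀ i p, i ∉ J → x ⟨i, p⟩ = 0 := Iff.rfl

/-- the component -/
def pj (k : Type) [Field k] (d : σ → ℕ) (i : σ) : ((Σ i, Fin (d i)) → k) →ₗ[k] (Fin (d i) → k) where
  toFun x q := x ⟨i, q⟩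
  map_add' _ _ := rfl
  map_smul' _ _ := rfl

theorem pj_apply (i : σ) (x : (Σ i, Fin (d i)) → k) (q : Fin (d i)) : pj k d i x q = x ⟨i, q⟩ := rfl

theorem pj_bd (ρ : ∀ i, G →* Matrix (Fin (d i)) (Fin (d i)) k) (g : G) (i : σ)
    (x : (Σ i, Fin (d i)) → k) : pj k d i (bdR ρ g *ᵥ x) = ρ i g *ᵥ pj k d i x := by
  funext p
  show ∑ s, Matrix.blockDiagonal' (fun i => ρ i g) ⟨i, p⟩ s * x s = ∑ q, ρ i g p q * x ⟨i, q⟩
  rw [Fintype.sum_sigma, Finset.sum_eq_single i]
  · refine Finset.sum_congr rfl fun q _ => ?_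
    rw [Matrix.blockDiagonal'_apply_eq]
  · intro j _ hj
    refine Finset.sum_eq_zero fun q _ => ?_
    rw [Matrix.blockDiagonal'_apply_ne _ _ _ (Ne.symm hj), zero_mul]
  · intro h
    exact absurd (Finset.mem_univ i) h

theorem VJ_stable (ρ : ∀ i, G →* Matrix (Fin (d i)) (Fin (d i)) k) (J : Finset σ) (g : G)
    {x : (Σ i, Fin (d i)) → k} (hx : x ∈ VJ k d J) : bdR ρ g *ᵥ x ∈ VJ k d J := by
  intro i p hi
  have h1 := congrFun (pj_bd ρ g i x) p
  have h2 : pj k d i x = 0 := by
    funext q
    exact hx i q hi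
  rw [h2, Matrix.mulVec_zero] at h1
  exact h1

theorem stable_all {n : ℕ} (r : G →* Matrix (Fin n) (Fin n) k)
    (h : Submodule.span k (Set.range fun g => r g) = ⊤) (U : Submodule k (Fin n → k))
    (hU : ∀ g, ∀ u ∈ U, r g *ᵥ u ∈ U) (M : Matrix (Fin n) (Fin n) k) : ∀ u ∈ U, M *ᵥ u ∈ U := by
  have hM : M ∈ Submodule.span k (Set.range fun g => r g) := by
    rw [h]
    exact Submodule.mem_top
  induction hM using Submodule.span_induction with
  | mem x hx =>
    obtain ⟨g, rfl⟩ := hx
    exact hU g
  | zero =>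
    intro u _
    rw [Matrix.zero_mulVec]
    exact U.zero_mem
  | add a b _ _ iha ihb =>
    intro u hu
    rw [Matrix.add_mulVec]
    exact U.add_mem (iha u hu) (ihb u hu)
  | smul c a _ ih =>
    intro u hu
    rw [Matrix.smul_mulVec]
    exact U.smul_mem c (ih u hu)

theorem eq_top_of_ne {n : ℕ} (r : G →* Matrix (Fin n) (Fin n) k)
    (h : Submodule.span k (Set.range fun g => r g) = ⊤) (U : Submodule k (Fin n → k))
    (hU : ∀ g, ∀ u ∈ U, r g *ᵥ u ∈ U) {x : Fin n → k} (hx : x ∈ U) (hx0 : x ≠ 0) (y : Fin n → k) :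
    y ∈ U := by
  obtain ⟨q, hq⟩ : ∃ q, x q ≠ 0 := by
    by_contra hcon
    push Not at hcon
    exact hx0 (funext hcon)
  have h1 := stable_all r h U hU (Matrix.of fun i j => if j = q then y i / x q else 0) x hx
  have h2 : (Matrix.of fun i j => if j = q then y i / x q else 0) *ᵥ x = y := by
    funext i
    show ∑ j, (if j = q then y i / x q else 0) * x j = y i
    rw [Finset.sum_eq_single q]
    · rw [if_pos rfl, div_mul_cancel₀ _ hq]
    · intro j _ hj
      rw [if_neg hj, zero_mul]
    · intro h
      exact absurd (Finset.mem_univ q) h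
  rwa [h2] at h1

end

theorem sum : S_SUM := by
  classical
  intro k _ G _ σ _ _ d ρ hρ W hW
  obtain ⟨J, hJ⟩ := (Set.toFinite {J : Finset σ | Disjoint W (VJ k d J)}).exists_maximal
    ⟨∅, by
      show Disjoint W (VJ k d ∅)
      rw [Submodule.disjoint_def]
      intro x _ hx
      funext s
      exact hx s.1 s.2 (Finset.notMem_empty _)⟩
  have hJd : Disjoint W (VJ k d J) := hJ.prop
  refine ⟨VJ k d J, fun g w hw => VJ_stable ρ J g hw, hJd, ?_⟩
  rw [codisjoint_iff, eq_top_iff]
  set Z : Submodule k ((Σ i, Fin (d i)) → k) := W ⊔ VJ k d J with hZ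
  have hZs : ∀ g, ∀ z ∈ Z, bdR ρ g *ᵥ z ∈ Z := by
    intro g z hz
    obtain ⟨w, hw, v, hv, rfl⟩ := Submodule.mem_sup.1 hz
    rw [Matrix.mulVec_add]
    exact Submodule.mem_sup.2 ⟨_, hW g w hw, _, VJ_stable ρ J g hv, rfl⟩
  -- the blocks are contained in `Z`
  have hblock : ∀ i, VJ k d {i} ≤ Z := by
    intro i
    by_cases hi : i ∈ J
    · intro x hx
      refine Submodule.mem_sup_right (fun j p hj => hx j p ?_)
      rw [Finset.mem_singleton]
      rintro rfl
      exact hj hi
    · have hnd : ¬ Disjoint W (VJ k d (insert i J)) := by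
        intro hd
        have h1 := hJ.le_of_ge (show insert i J ∈ {J : Finset σ | Disjoint W (VJ k d J)} from hd)
          (Finset.subset_insert i J)
        exact hi (h1 (Finset.mem_insert_self i J))
      rw [Submodule.disjoint_def] at hnd
      push Not at hnd
      obtain ⟨w, hwW, hwV, hw0⟩ := hnd
      set x : (Σ i, Fin (d i)) → k := fun s => if s.1 = i then w s else 0 with hx
      have hxi : x ∈ VJ k d {i} := by
        intro j p hj
        rw [Finset.mem_singleton] at hj
        show (if j = i then w ⟨j, p⟩ else 0) = 0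
        rw [if_neg hj]
      have hwx : w - x ∈ VJ k d J := by
        intro j p hj
        show w ⟨j, p⟩ - (if j = i then w ⟨j, p⟩ else 0) = 0
        by_cases hji : j = i
        · rw [if_pos hji, sub_self]
        · rw [if_neg hji, sub_zero]
          refine hwV j p ?_
          rw [Finset.mem_insert]
          rintro (h | h)
          · exact hji h
          · exact hj h
      have hxZ : x ∈ Z := by
        have h1 : x = w - (w - x) := by abel
        rw [h1]
        exact Z.sub_mem (Submodule.mem_sup_left hwW) (Submodule.mem_sup_right hwx)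
      have hx0 : x ≠ 0 := by
        intro h0
        rw [h0, sub_zero] at hwx
        exact hw0 ((Submodule.disjoint_def.1 hJd) w hwW hwx)
      have hpx : pj k d i x ≠ 0 := by
        intro h0
        apply hx0
        funext s
        obtain ⟨j, p⟩ := s
        by_cases hji : j = i
        · subst hji
          exact congrFun h0 p
        · exact hxi j p (by rw [Finset.mem_singleton]; exact hji)
      set U : Submodule k (Fin (d i) → k) := (Z ⊓ VJ k d {i}).map (pj k d i) with hU
      have hUs : ∀ g, ∀ u ∈ U, ρ i g *ᵥ u ∈ U := by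
        rintro g u ⟨z, hz, rfl⟩
        rw [← pj_bd]
        exact Submodule.mem_map_of_mem ⟨hZs g z hz.1, VJ_stable ρ {i} g hz.2⟩
      intro y hy
      have hyU : pj k d i y ∈ U :=
        eq_top_of_ne (ρ i) (hρ i) U hUs (Submodule.mem_map_of_mem ⟨hxZ, hxi⟩) hpx _
      obtain ⟨z, hz, hzy⟩ := hyU
      have hzy' : z = y := by
        funext s
        obtain ⟨j, p⟩ := s
        by_cases hji : j = i
        · subst hji
          exact congrFun hzy p
        · rw [hz.2 j p (by rw [Finset.mem_singleton]; exact hji),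
            hy j p (by rw [Finset.mem_singleton]; exact hji)]
      rw [← hzy']
      exact hz.1
  intro y _
  have h1 : y = ∑ i, fun s : Σ i, Fin (d i) => if s.1 = i then y s else 0 := by
    funext s
    rw [Finset.sum_apply, Finset.sum_ite_eq, if_pos (Finset.mem_univ _)]
  rw [h1]
  refine Submodule.sum_mem _ fun i _ => hblock i ?_
  intro j p hj
  rw [Finset.mem_singleton] at hj
  show (if j = i then y ⟨j, p⟩ else 0) = 0
  rw [if_neg hj]

end Pool.Agent.H643.RL
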