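import Pool.Agent.H499.RL.Core
import Pool.Agent.H499.RL.KER
import Pool.Agent.H499.RL.STEP
import Pool.Agent.H499.RL.DSC
import Pool.Agent.H499.RL.ITER
import Pool.Agent.H499.RL.APX
import Pool.Agent.H499.RL.ND
import Pool.Agent.H499.RL.LOC
import Pool.Agent.H499.RL.SUM
import Pool.Agent.H499.RL.DEG

/-! Ribet's lemma for approximations: Galois representations. -/

set_option autoImplicit false
set_option linter.all false

namespace Pool.Agent.H499.RL

open Matrix Filter Topology Module NumberField IsDedekindDomain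
open Pool.Agent.W401.Cheb (GK IsFrob IsInert)
open Pool.Agent.H499.SM Pool.Agent.H499.CM Pool.Agent.H499.PW Pool.Agent.H499.IR

theorem t_STEP : S_STEP := Pool.Agent.H225.RL.step Pool.Agent.H267.RL.loc Pool.Agent.H34.RL.t_APX

theorem t_ND : S_ND := Pool.Agent.H389.RL.ND.nd Pool.Agent.H643.RL.sum Pool.Agent.H339.RL.deg

variable {K : Type} [Field K] [NumberField K] {ℓ : ℕ} [Fact ℓ.Prime]

/-- `Ext` of conjugate representations -/
theorem ext_conj {G k α β ι : Type} [Group G] [TopologicalSpace G] [NormedField k] [Fintype α] [DecidableEq α]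
    [Fintype β] [DecidableEq β] {A A' : G →* Matrix α α k} {B B' : G →* Matrix β β k} {I : Set G} {D : ι → Set G}
    {f : ι → G → k} (X : GL α k) (Y : GL β k) (hA : ∀ g, A g * X.val = X.val * A' g)
    (hB : ∀ g, B g * Y.val = Y.val * B' g) (h : ExtZero A B I D f) : ExtZero A' B' I D f := by
  intro c' h1 h2 h3 h4
  have hX1 : X⁻¹.val * X.val = 1 := by rw [← Units.val_mul, inv_mul_cancel, Units.val_one]
  have hX2 : X.val * X⁻¹.val = 1 := by rw [← Units.val_mul, mul_inv_cancel, Units.val_one]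
  have hY1 : Y⁻¹.val * Y.val = 1 := by rw [← Units.val_mul, inv_mul_cancel, Units.val_one]
  have hY2 : Y.val * Y⁻¹.val = 1 := by rw [← Units.val_mul, mul_inv_cancel, Units.val_one]
  have hB' : ∀ g, Y⁻¹.val * B g = B' g * Y⁻¹.val := by
    intro g
    calc Y⁻¹.val * B g = Y⁻¹.val * (B g * Y.val) * Y⁻¹.val := by
          rw [Matrix.mul_assoc, Matrix.mul_assoc, hY2, Matrix.mul_one]
      _ = _ := by rw [hB, ← Matrix.mul_assoc, hY1, Matrix.one_mul]
  have hA' : ∀ g, X⁻¹.val * A g = A' g * X⁻¹.val := by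
    intro g
    calc X⁻¹.val * A g = X⁻¹.val * (A g * X.val) * X⁻¹.val := by
          rw [Matrix.mul_assoc, Matrix.mul_assoc, hX2, Matrix.mul_one]
      _ = _ := by rw [hA, ← Matrix.mul_assoc, hX1, Matrix.one_mul]
  obtain ⟨x, hx⟩ := h (fun g => X.val * c' g * Y⁻¹.val) (fun p q => by
      have h5 : Continuous fun g => c' g := continuous_matrix h1
      have h6 : Continuous fun g => X.val * c' g * Y⁻¹.val :=
        (continuous_const.matrix_mul h5).matrix_mul continuous_const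
      exact h6.matrix_elem p q)
    (fun g g' => by
      show X.val * c' (g * g') * Y⁻¹.val = A g * (X.val * c' g' * Y⁻¹.val) + X.val * c' g * Y⁻¹.val * B g'
      rw [h2, Matrix.mul_add, Matrix.add_mul]
      congr 1
      · rw [← Matrix.mul_assoc, ← hA, ← Matrix.mul_assoc, ← Matrix.mul_assoc]
      · rw [Matrix.mul_assoc (X.val * c' g), hB']
        simp only [Matrix.mul_assoc])
    (fun g hg => by
      show X.val * c' g * Y⁻¹.val = 0
      rw [h3 g hg, Matrix.mul_zero, Matrix.zero_mul])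
    (fun i y hy => by
      obtain ⟨u, hu⟩ := h4 i (Y⁻¹.val *ᵥ y) (fun d hd => by
        show B' d *ᵥ (Y⁻¹.val *ᵥ y) = f i d • (Y⁻¹.val *ᵥ y)
        rw [Matrix.mulVec_mulVec, ← hB', ← Matrix.mulVec_mulVec, show B d *ᵥ y = f i d • y from hy d hd,
          Matrix.mulVec_smul])
      refine ⟨X.val *ᵥ u, fun d hd => ?_⟩
      have h5 := hu d hd
      show A d *ᵥ (X.val *ᵥ u) + (X.val * c' d * Y⁻¹.val) *ᵥ y = f i d • (X.val *ᵥ u)
      rw [Matrix.mulVec_mulVec, hA, ← Matrix.mulVec_mulVec, Matrix.mul_assoc, ← Matrix.mulVec_mulVec,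
        ← Matrix.mulVec_add, ← Matrix.mulVec_mulVec, h5, Matrix.mulVec_smul])
  refine ⟨X⁻¹.val * x * Y.val, fun g => ?_⟩
  have h5 : X.val * c' g * Y⁻¹.val = A g * x - x * B g := hx g
  calc c' g = X⁻¹.val * (X.val * c' g * Y⁻¹.val) * Y.val := by
        rw [Matrix.mul_assoc X.val, ← Matrix.mul_assoc X⁻¹.val, hX1, Matrix.one_mul, Matrix.mul_assoc, hY1,
          Matrix.mul_one]
    _ = A' g * (X⁻¹.val * x * Y.val) - (X⁻¹.val * x * Y.val) * B' g := by
        rw [h5, Matrix.mul_sub, Matrix.sub_mul]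
        congr 1
        · rw [← Matrix.mul_assoc, hA']
          simp only [Matrix.mul_assoc]
        · rw [Matrix.mul_assoc _ Y.val, ← hB]
          simp only [Matrix.mul_assoc]

/-- replacement of the eigenvalues by eigenvalues in a finite extension -/
theorem modify {s : ℕ} {d : Fin s → ℕ} {ρ : ∀ i, GK K →* Matrix (Fin (d i)) (Fin (d i)) (PadicAlgCl ℓ)}
    (hcont : ∀ i p q, Continuous fun g => ρ i g p q) (hint : ∀ i g p q, ‖ρ i g p q‖ ≤ 1) (D : Set (GK K))
    (h1D : (1 : GK K) ∈ D) (f : GK K → PadicAlgCl ℓ) :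
    ∃ f₁ : GK K → PadicAlgCl ℓ, FinOn D f₁ ∧ (∀ g ∈ D, ‖f₁ g‖ ≤ 1) ∧
      (∀ j, eig (fun g => ρ j g) D f₁ = eig (fun g => ρ j g) D f) ∧
      (f₁ = f ∨ ∀ j, eig (fun g => ρ j g) D f = ⊥) := by
  classical
  by_cases h : ∀ j, eig (fun g => ρ j g) D f = ⊥
  · refine ⟨fun _ => (ℓ : PadicAlgCl ℓ), ⟨⊥, inferInstance, fun g _ => ?_⟩, fun g _ => norm_ell_lt.le, fun j => ?_,
      Or.inr h⟩
    · exact natCast_mem _ ℓ
    · rw [h j, Submodule.eq_bot_iff]
      intro x hx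
      have h2 : (ρ j 1) *ᵥ x = (ℓ : PadicAlgCl ℓ) • x := hx 1 h1D
      rw [map_one, Matrix.one_mulVec] at h2
      have h3 : ‖x‖ = ‖(ℓ : PadicAlgCl ℓ)‖ * ‖x‖ := by
        conv_lhs => rw [h2]
        rw [norm_smul]
      by_contra hx0
      have h4 : 0 < ‖x‖ := norm_pos_iff.2 hx0
      have h5 : ‖(ℓ : PadicAlgCl ℓ)‖ * ‖x‖ < ‖x‖ := by
        calc ‖(ℓ : PadicAlgCl ℓ)‖ * ‖x‖ < 1 * ‖x‖ := mul_lt_mul_of_pos_right norm_ell_lt h4
          _ = ‖x‖ := one_mul _
      exact h5.ne' h3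
  · push Not at h
    obtain ⟨j, hj⟩ := h
    obtain ⟨x, hx, hx0⟩ := Submodule.exists_mem_ne_zero_of_ne_bot hj
    exact ⟨f, exists_field_eig (fin_entries (ρ j) (hcont j)) hx hx0, fun g hg => norm_eig_le (hint j) hx hx0 hg,
      fun j => rfl, Or.inl rfl⟩

/-- `Ext` depends only on the eigenvectors of the eigenvalues -/
theorem ext_modify {G k α β ι : Type} [Group G] [TopologicalSpace G] [NormedField k] [Fintype α] [DecidableEq α]
    [Fintype β] [DecidableEq β] {A : G →* Matrix α α k} {B : G →* Matrix β β k} {I : Set G} {D : ι → Set G}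
    {f f₁ : ι → G → k} (h : ∀ i, f₁ i = f i ∨ eig (fun g => B g) (D i) (f i) = ⊥) (h0 : ExtZero A B I D f) :
    ExtZero A B I D f₁ := by
  intro c h1 h2 h3 h4
  refine h0 c h1 h2 h3 fun i y hy => ?_
  rcases h i with h5 | h5
  · obtain ⟨u, hu⟩ := h4 i y (by rw [h5]; exact hy)
    exact ⟨u, fun d hd => by rw [hu d hd, h5]⟩
  · rw [h5, Submodule.mem_bot] at hy
    subst hy
    exact ⟨0, fun d _ => by rw [Matrix.mulVec_zero, Matrix.mulVec_zero, add_zero, smul_zero]⟩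

/-- **The core theorem for Galois representations.** -/
theorem galois_core {S : Set (HeightOneSpectrum (𝓞 K))} (hS : S.Finite) {s : ℕ} {d : Fin s → ℕ}
    {ρ : ∀ i, GK K →* GL (Fin (d i)) (PadicAlgCl ℓ)} (hρ : ∀ i, Gd S (ρ i)) (hirr : ∀ i, Irr (ρ i))
    {ι : Type} [Finite ι] (D : ι → Set (GK K)) (h1D : ∀ i, (1 : GK K) ∈ D i) (f : ι → GK K → PadicAlgCl ℓ)
    (T : Fin s → Prop) [DecidablePred T]
    (hext : ∀ i j, ¬ T i → T j → ExtZero (mt (ρ i)) (mt (ρ j)) (Inr S) D f) {n : ℕ} (hn : n = ∑ i, d i)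
    {t : ℝ} (ht : 0 < t) :
    ∃ ε : ℝ, 0 < ε ∧ ∀ ρ' : GK K →* GL (Fin n) (PadicAlgCl ℓ), Gd S ρ' →
      (∀ g, ‖(mt ρ' g).trace - ∑ i, (mt (ρ i) g).trace‖ ≤ ε) →
      (∀ i, ∃ f' : GK K → PadicAlgCl ℓ, (∀ g ∈ D i, ‖f' g - f i g‖ ≤ ε) ∧
        ∑ j, finrank (PadicAlgCl ℓ) (eig (fun g => mt (ρ j) g) (D i) (f i)) ≤
        finrank (PadicAlgCl ℓ) (eig (fun g => mt ρ' g) (D i) f')) →
      ∃ (J : Matrix (Fin n) (Σ j : {j // T j}, Fin (d j)) (PadicAlgCl ℓ))
        (δ : GK K → Matrix (Σ j : {j // T j}, Fin (d j)) (Σ j : {j // T j}, Fin (d j)) (PadicAlgCl ℓ)),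
        (∀ x, J *ᵥ x = 0 → x = 0) ∧ (∀ g, mt ρ' g * J = J * δ g) ∧
        ∀ g, ‖(δ g).trace - ∑ j : {j // T j}, (mt (ρ j) g).trace‖ ≤ t := by
  classical
  choose X hX1 hX2 hX3 hX4 hX5 using fun i => exists_cj (hρ i)
  set σ : ∀ i, GK K →* Matrix (Fin (d i)) (Fin (d i)) (PadicAlgCl ℓ) := fun i => cj (X i) (mt (ρ i)) with hσ
  have hcomm : ∀ i g, mt (ρ i) g * (X i).val = (X i).val * σ i g := by
    intro i g
    show mt (ρ i) g * (X i).val = (X i).val * (cj (X i) (mt (ρ i)) g)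
    rw [cj_apply, ← mul_assoc, ← mul_assoc, mul_iv, one_mul]
  have heig : ∀ i (D : Set (GK K)) f, finrank (PadicAlgCl ℓ) (eig (fun g => σ i g) D f) =
      finrank (PadicAlgCl ℓ) (eig (fun g => mt (ρ i) g) D f) := fun i D f => finrank_eig_conj (X := X i) (hcomm i)
  choose f₁ hf1 hf2 hf3 hf4 using fun i => modify (ρ := σ) hX2 hX3 (D i) (h1D i) (f i)
  have hext' : ∀ i j, ¬ T i → T j → ExtZero (σ i) (σ j) (Inr S) D f₁ := by
    intro i j hi hj
    have h1 : ExtZero (σ i) (σ j) (Inr S) D f := ext_conj (X i) (X j) (hcomm i) (hcomm j) (hext i j hi hj)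
    refine ext_modify (fun k => ?_) h1
    rcases hf4 k with h2 | h2
    · exact Or.inl h2
    · exact Or.inr (h2 j)
  obtain ⟨ε, hε, hcore⟩ := core t_ND t_STEP Pool.Agent.H596.RL.iter Pool.Agent.H389.RL.ker Pool.Agent.H97.RL.dsc
    Pool.Agent.H97.RL.dir hS σ hX2 hX3 (fun i => span_of_irr (hirr i) (X i)) D f₁ hf1 hf2 T hext' ht
  refine ⟨ε, hε, fun ρ' hρ' htr hloc => ?_⟩
  obtain ⟨Y, hY1, hY2, hY3, hY4, hY5⟩ := exists_cj hρ'
  have hcard : Fintype.card (Fin n) = Fintype.card (Σ i, Fin (d i)) := by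
    rw [Fintype.card_fin, Fintype.card_sigma, hn]
    exact Finset.sum_congr rfl fun i _ => (Fintype.card_fin _).symm
  let e : Fin n ≃ (Σ i, Fin (d i)) := Fintype.equivOfCardEq hcard
  set R : GK K →* Matrix (Σ i, Fin (d i)) (Σ i, Fin (d i)) (PadicAlgCl ℓ) := reM e (cj Y (mt ρ')) with hR
  have hYcomm : ∀ g, mt ρ' g * Y.val = Y.val * cj Y (mt ρ') g := by
    intro g
    rw [cj_apply, ← mul_assoc, ← mul_assoc, mul_iv, one_mul]
  have hReig : ∀ (D : Set (GK K)) f, finrank (PadicAlgCl ℓ) (eig (fun g => R g) D f) =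
      finrank (PadicAlgCl ℓ) (eig (fun g => mt ρ' g) D f) := by
    intro D f
    have h1 : finrank (PadicAlgCl ℓ) (eig (fun g => R g) D f) =
        finrank (PadicAlgCl ℓ) (eig (fun g => cj Y (mt ρ') g) D f) :=
      finrank_eig_reindex (fun g => cj Y (mt ρ') g) D f e
    rw [h1]
    exact finrank_eig_conj (X := Y) hYcomm
  have hsum : ∀ i, ∑ j, finrank (PadicAlgCl ℓ) (eig (fun g => σ j g) (D i) (f₁ i)) =
      ∑ j, finrank (PadicAlgCl ℓ) (eig (fun g => mt (ρ j) g) (D i) (f i)) := by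
    intro i
    refine Finset.sum_congr rfl fun j _ => ?_
    rw [hf3, heig]
  have hloc' : ∀ i, ∃ f' : GK K → PadicAlgCl ℓ, FinOn (D i) f' ∧ (∀ g ∈ D i, ‖f' g - f₁ i g‖ ≤ ε) ∧
      ∑ j, finrank (PadicAlgCl ℓ) (eig (fun g => σ j g) (D i) (f₁ i)) ≤
        finrank (PadicAlgCl ℓ) (eig (fun g => R g) (D i) f') := by
    intro i
    obtain ⟨f', h1, h2⟩ := hloc i
    rcases Nat.eq_zero_or_pos (∑ j, finrank (PadicAlgCl ℓ) (eig (fun g => σ j g) (D i) (f₁ i))) with h3 | h3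
    · refine ⟨f₁ i, hf1 i, fun g _ => ?_, ?_⟩
      · rw [sub_self, norm_zero]
        exact hε.le
      · rw [h3]
        exact Nat.zero_le _
    · have h4 : 0 < finrank (PadicAlgCl ℓ) (eig (fun g => mt ρ' g) (D i) f') := by
        rw [hsum] at h3
        exact h3.trans_le h2
      have h5 : f₁ i = f i := by
        rcases hf4 i with h6 | h6
        · exact h6
        · exfalso
          refine h3.ne' (Finset.sum_eq_zero fun j _ => ?_)
          rw [hf3, h6 j, finrank_bot]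
      obtain ⟨x, hx0⟩ := Module.finrank_pos_iff_exists_ne_zero.1 h4
      refine ⟨f', exists_field_eig (fin_entries (mt ρ') (mt_cont hρ'.cont)) x.2
        (fun h => hx0 (Subtype.ext h)), fun g hg => ?_, ?_⟩
      · rw [h5]
        exact h1 g hg
      · rw [hsum, hReig]
        exact h2
  choose f' hf'1 hf'2 hf'3 using hloc'
  have htrR : ∀ g, (R g).trace = (mt ρ' g).trace := by
    intro g
    rw [← hY5 g]
    show ∑ i, cj Y (mt ρ') g (e.symm i) (e.symm i) = ∑ i, cj Y (mt ρ') g i i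
    exact Fintype.sum_equiv e.symm _ _ fun i => rfl
  obtain ⟨J, δ, hJ1, hJ2, hJ3⟩ := hcore R (fun p q => hY2 _ _) (fun g p q => hY3 g _ _)
    (fun g hg => by
      show (cj Y (mt ρ') g).submatrix e.symm e.symm = 1
      rw [hY4 g hg, Matrix.submatrix_one_equiv])
    (fun g => by
      rw [htrR]
      have h1 : ∀ i, (σ i g).trace = (mt (ρ i) g).trace := fun i => hX5 i g
      simp only [h1]
      exact htr g) f' hf'1 hf'2 hf'3
  refine ⟨Y.val * J.submatrix e id, δ, fun x hx => ?_, fun g => ?_, fun g => ?_⟩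
  · have h1 : J.submatrix e id *ᵥ x = 0 := by
      have h2 := congrArg (fun v => Y⁻¹.val *ᵥ v) hx
      rw [Matrix.mulVec_mulVec, ← Matrix.mul_assoc, ← Units.val_mul, inv_mul_cancel, Units.val_one, Matrix.one_mul,
        Matrix.mulVec_zero] at h2
      exact h2
    refine hJ1 x ?_
    funext p
    have h3 := congrFun h1 (e.symm p)
    have h4 : (J.submatrix e id *ᵥ x) (e.symm p) = (J *ᵥ x) p := by
      show ∑ j, J (e (e.symm p)) j * x j = ∑ j, J p j * x j
      rw [Equiv.apply_symm_apply]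
    rw [h4] at h3
    exact h3
  · have h1 : cj Y (mt ρ') g * J.submatrix e id = (R g * J).submatrix e id := by
      have h2 : cj Y (mt ρ') g = (R g).submatrix e e := by
        ext i j
        show cj Y (mt ρ') g i j = cj Y (mt ρ') g (e.symm (e i)) (e.symm (e j))
        rw [Equiv.symm_apply_apply, Equiv.symm_apply_apply]
      rw [h2, Matrix.submatrix_mul_equiv]
    rw [← Matrix.mul_assoc, hYcomm, Matrix.mul_assoc, Matrix.mul_assoc, h1, hJ2 g]
    rfl
  · have h1 : ∀ i, (σ i g).trace = (mt (ρ i) g).trace := fun i => hX5 i g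
    have h2 := hJ3 g
    simp only [h1] at h2
    exact h2

end Pool.Agent.H499.RL
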