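import Pool.Agent.H499.SM.Crd

/-!
# Ribet's lemma for approximations: statements of the jobs (helper499)

Goal (project RL). `ρ_1, …, ρ_s` are absolutely irreducible `ℓ`-adic representations. If `ρ'` is any representation
whose traces are near to those of `ρ_1 ⊕ … ⊕ ρ_s` and `Ext¹(ρ_j, ρ_i) = 0` (with local conditions) for all `i ∈ A`,
`j ∉ A`, then `ρ'` has a stable subspace near to `⊕_{j ∉ A} ρ_j`.

All the jobs are elementary; matrices, norms (`‖M i j‖ ≤ t` for all entries; `|M|` in the paper proofs is the maximum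
of the norms of the entries, it is submultiplicative since the norm is ultrametric) and modules. `R₁₁, R₁₂, R₂₁, R₂₂`
are the blocks `(R g).toBlocks₁₁` … of `R g : Matrix (α ⊕ β) (α ⊕ β) L`.
-/

set_option autoImplicit false

namespace Pool.Agent.H499.RL

open Matrix Filter Topology
open Pool.Agent.H499.SM (HMFin)

/-- stable subspaces have stable complements -/
def SS {G k ν : Type} [Group G] [Field k] [Fintype ν] [DecidableEq ν] (ρ : G →* Matrix ν ν k) : Prop :=
  ∀ W : Submodule k (ν → k), (∀ g, ∀ w ∈ W, ρ g *ᵥ w ∈ W) →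
    ∃ W' : Submodule k (ν → k), (∀ g, ∀ w ∈ W', ρ g *ᵥ w ∈ W') ∧ IsCompl W W'

/-- the vectors `x` with `A d x = f d x` for all `d ∈ D` -/
def eig {G k ν : Type} [Field k] [Fintype ν] (A : G → Matrix ν ν k) (D : Set G) (f : G → k) :
    Submodule k (ν → k) where
  carrier := {x | ∀ d ∈ D, A d *ᵥ x = f d • x}
  add_mem' := by
    intro x y hx hy d hd
    rw [Matrix.mulVec_add, hx d hd, hy d hd, smul_add]
  zero_mem' := fun d _ => by rw [Matrix.mulVec_zero, smul_zero]
  smul_mem' := by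
    intro a x hx d hd
    rw [Matrix.mulVec_smul, hx d hd, smul_comm]

/-- the direct sum of representations -/
def bdR {G k σ : Type} [Group G] [Field k] [Fintype σ] [DecidableEq σ] {d : σ → ℕ}
    (ρ : ∀ i, G →* Matrix (Fin (d i)) (Fin (d i)) k) :
    G →* Matrix (Σ i, Fin (d i)) (Σ i, Fin (d i)) k where
  toFun g := Matrix.blockDiagonal' fun i => ρ i g
  map_one' := by
    simp only [map_one]
    exact Matrix.blockDiagonal'_one
  map_mul' g h := by
    simp only [map_mul]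
    exact Matrix.blockDiagonal'_mul _ _

/-- **The extensions of `B` by `A`** which are continuous, trivial on `I` and satisfy the local conditions
`(D i, f i)` are split: every continuous `c` with `c (g h) = A g c h + c g B h`, `c = 0` on `I`, such that for all
`i` and all eigenvectors `y` of `B` (on `D i`, with eigenvalues `f i`) there is a vector `u` such that `(u, y)` is an
eigenvector of the extension, is of the form `A g x - x B g`. -/
def ExtZero {G k α β ι : Type} [Group G] [TopologicalSpace G] [NormedField k] [Fintype α] [DecidableEq α]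
    [Fintype β] [DecidableEq β] (A : G →* Matrix α α k) (B : G →* Matrix β β k) (I : Set G) (D : ι → Set G)
    (f : ι → G → k) : Prop :=
  ∀ c : G → Matrix α β k, (∀ p q, Continuous fun g => c g p q) → (∀ g h, c (g * h) = A g * c h + c g * B h) →
    (∀ g ∈ I, c g = 0) →
    (∀ i, ∀ y ∈ eig (fun g => B g) (D i) (f i), ∃ u : α → k, ∀ d ∈ D i, A d *ᵥ u + c d *ᵥ y = f i d • u) →
    ∃ x : Matrix α β k, ∀ g, c g = A g * x - x * B g

/-- `R` is near to an extension of `B` by `A` -/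
def Near {G k α β : Type} [NormedField k] (A : G → Matrix α α k) (B : G → Matrix β β k)
    (R : G → Matrix (α ⊕ β) (α ⊕ β) k) (γ : ℝ) : Prop :=
  (∀ g p q, ‖(R g).toBlocks₁₁ p q - A g p q‖ ≤ γ) ∧ (∀ g p q, ‖(R g).toBlocks₂₂ p q - B g p q‖ ≤ γ) ∧
    (∀ g p q, ‖(R g).toBlocks₂₁ p q‖ ≤ γ) ∧ ∀ g p q, ‖(R g).toBlocks₁₂ p q‖ ≤ 1

/-- **Job SUM.** A direct sum of absolutely irreducible representations is semisimple.

Paper proof. The coordinate subspace `V_i` of `Σ i, Fin (d i) → k` is stable and isomorphic to `k ^ d_i` with the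
action by `ρ i`; a stable subspace of `k ^ d_i` is stable under the span of the `ρ i g`, all matrices, so it is `0` or
everything. So the module `V` over the monoid algebra is the sum of the simple (or zero) submodules `V_i`, and it is
semisimple (`isSemisimpleModule_of_isSemisimpleModule_submodule'` or `sSup_simples`…), so stable subspaces have stable
complements. (Or by hand: choose `J ⊆ σ` maximal with `W ∩ ⨁_{i ∈ J} V_i = 0`.) -/
def S_SUM : Prop :=
  ∀ (k : Type) [Field k] (G : Type) [Group G] (σ : Type) [Fintype σ] [DecidableEq σ] (d : σ → ℕ)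
    (ρ : ∀ i, G →* Matrix (Fin (d i)) (Fin (d i)) k),
    (∀ i, Submodule.span k (Set.range fun g => ρ i g) = ⊤) → SS (bdR ρ)

/-- **Job DEG.** A bounded representation degenerates to its semisimplification.

Paper proof. Call a matrix bounded if its entries are in `ϖ ^ (-N) O` for some `N`; every single matrix is bounded.
(1) Claim: for every `ρ : G →* Matrix ν ν k` with uniformly bounded entries (`∃ N, ∀ g i j, ϖ ^ N * ρ g i j ∈ O`) there
is `σ : G →* Matrix ν ν k` with `SS σ` such that for every `M` there is `X ∈ GL` with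
`X⁻¹ ρ(g) X - σ(g) ∈ ϖ ^ M Mat(O)` for all `g`. Induction on the cardinality of `ν`: if `SS ρ` take `σ = ρ`. Otherwise
there is a stable subspace `W ≠ 0, V`. In a basis adapted to `W`, `Y⁻¹ ρ Y = (ρ₁ β; 0 ρ₂)`, still uniformly bounded. By
induction there are `σ₁, σ₂`; `σ = Y (σ₁ ⊕ σ₂) Y⁻¹` is `SS` (direct sum of two; or use the module version
`IsSemisimpleModule`), and with `X₁, X₂` for `M` large and `t = ϖ ^ N'`, `N'` large depending on `X₁, X₂`, conjugation
by `diag (X₁, t X₂)` gives `(X₁⁻¹ ρ₁ X₁, t X₁⁻¹ β X₂; 0, X₂⁻¹ ρ₂ X₂)`; take `X = Y diag (X₁, t X₂) Y⁻¹`.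
(2) `tr σ g - tr ρ g ∈ ϖ ^ M O` for all `M`, so it is zero (separatedness), so `σ` and `ρ₀` have the same traces and are
isomorphic: `Pool.Graph.R_pool_sql_team_seeded_ab47071d.TH623.SA.Iso`, theorem `Pool.Agent.TH623.SA.rep_iso`
(`team-store fetch /workdir/pool Pool/Graph/R_pool_sql_team_seeded_ab47071d/TH623/SA/Iso.lean`). `Z⁻¹ σ Z = ρ₀`,
and `X Z` for large `M` has the property required. -/
def S_DEG : Prop :=
  ∀ (k : Type) [Field k] [CharZero k] (G : Type) [Group G] (ν : Type) [Fintype ν] [DecidableEq ν]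
    (ρ ρ₀ : G →* Matrix ν ν k), SS ρ₀ → (∀ g, (ρ g).trace = (ρ₀ g).trace) →
  ∀ (O : Subring k) (ϖ : k), ϖ ∈ O → ϖ ≠ 0 → (∀ x : k, ∃ N : ℕ, ϖ ^ N * x ∈ O) →
    (∀ x : k, (∀ M : ℕ, ∃ y ∈ O, x = ϖ ^ M * y) → x = 0) → (∀ g i j, ρ g i j ∈ O) → ∀ M : ℕ,
    ∃ X : GL ν k, ∀ g i j, ∃ y ∈ O,
      (((X⁻¹ : GL ν k) : Matrix ν ν k) * ρ g * (X : Matrix ν ν k) - ρ₀ g) i j = ϖ ^ M * y

/-- **Job ND.** Representations with traces near to those of `⊕ ρ_i` are conjugate to a representation near to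
`⊕ ρ_i` (from `S_SUM` and `S_DEG`; no continuity).

Paper proof. Suppose that there are `γ > 0` and integral `ρ'_m`, `m = 0, 1, …`, with traces within `1 / (m + 1)` of
those of `ρ₀ = ⊕ ρ_i` and without such an `X`. Let `𝓤` be a nonprincipal ultrafilter on `ℕ` (`hyperfilter ℕ`),
`R` the ring of the bounded sequences in `L`, `𝔪` the ideal of the sequences with `x_m → 0` along `𝓤`, and `k = R / 𝔪`.
It is a field: if `x ∉ 𝔪` there is `c > 0` with `‖x_m‖ ≥ c` for `𝓤`-almost all `m` and the sequence `x_m⁻¹` there (`0`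
elsewhere) is an inverse; it has characteristic zero (constants; `‖(j : L)‖ > 0` for `0 < j`). Let `O ⊆ k` be the
image of the sequences with norms at most `1`, `ϖ` (a constant with `0 < ‖ϖ‖ < 1`) satisfies the hypotheses of
`S_DEG` (if `x = ϖ ^ M y_M`, `y_M ∈ O` for all `M`, then `‖x_m‖ ≤ 2 ‖ϖ‖ ^ M` for `𝓤`-almost all `m`, so `x ∈ 𝔪`).
The group is `G* = (ℕ → G)` with `ρ* g = [ρ'_m (g_m)]`, `ρ_i* g = [ρ_i (g_m)]`. `ρ*` and `⊕ ρ_i*` have the same traces.
The matrices `ρ_i* g` generate `Mat (k)`: the constant sequences give `k`-linear combinations which are the matrix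
units. By `S_SUM` and `S_DEG` there is `X* ∈ GL (k)` with `X*⁻¹ ρ* X* - ⊕ ρ_i* ∈ ϖ ^ M Mat(O)`, `2 ‖ϖ‖ ^ M < γ`.
Lift `X*` and `X*⁻¹` to bounded sequences `Y_m`, `Z_m` of matrices; `Z_m Y_m - 1 → 0` along `𝓤`, so `Y_m` is
invertible for `𝓤`-almost all `m` with `Y_m⁻¹ - Z_m → 0`. For `𝓤`-almost all `m` the matrix `X = Y_m` has the required
property for ALL `g ∈ G`, because otherwise choose `g_m` for which it fails, and the sequence `g = (g_m)` gives a
contradiction. -/
def S_ND : Prop :=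
  ∀ (L : Type) [NormedField L] [IsUltrametricDist L] [CharZero L], (∃ ϖ : L, 0 < ‖ϖ‖ ∧ ‖ϖ‖ < 1) →
  ∀ (G : Type) [Group G] (σ : Type) [Fintype σ] [DecidableEq σ] (d : σ → ℕ)
    (ρ : ∀ i, G →* Matrix (Fin (d i)) (Fin (d i)) L), (∀ i g p q, ‖ρ i g p q‖ ≤ 1) →
    (∀ i, Submodule.span L (Set.range fun g => ρ i g) = ⊤) → ∀ γ : ℝ, 0 < γ →
  ∃ ε : ℝ, 0 < ε ∧ ∀ ρ' : G →* Matrix (Σ i, Fin (d i)) (Σ i, Fin (d i)) L, (∀ g p q, ‖ρ' g p q‖ ≤ 1) →
    (∀ g, ‖(ρ' g).trace - ∑ i, (ρ i g).trace‖ ≤ ε) →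
    ∃ X : GL (Σ i, Fin (d i)) L, ∀ g p q, ‖(((X⁻¹ : GL (Σ i, Fin (d i)) L) :
      Matrix (Σ i, Fin (d i)) (Σ i, Fin (d i)) L) * ρ' g * (X : Matrix (Σ i, Fin (d i)) (Σ i, Fin (d i)) L) -
        bdR ρ g) p q‖ ≤ γ

/-- **Job LOC.** Eigenvectors of matrices near to a block triangular matrix, uniformly in the extension `L` of `E`.

Paper proof. Over `E`: let `W` be a complement of `eig A D f`. There is `c₁` such that for `w ∈ W` and `t ≥ 0` with
`‖A d w - f d w‖ ≤ t` for all `d ∈ D` we have `‖w‖ ≤ c₁ t` (compactness, as `compl_bound` in `Pool.Agent.H499.SM.Bnd`,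
where `f = 1`). Let `P_A : Matrix α α E` be the matrix of the projection to `eig A D f` along `W`; so `A P_A = f P_A` on
`D` and (*) `‖x - P_A x‖ ≤ c₁ t` if `‖A d x - f d x‖ ≤ t` for all `d ∈ D`. In the same way `P_B`. By
`Pool.Agent.H499.SM.exists_crd` (with `Pool.Agent.H122.SM.orth : S_ORTH`, module `Pool.Agent.H499.SM.ORTH`) there are
coordinates of `L` over `E` with the constant `q = ‖ϖ‖⁻¹` independent of `L`, and (*) holds over `L` with `c₁ q`
(apply it to the coordinates, `co_mulVec`, `norm_le`). Let `c₃ = max 1 (c₁ q)` (for `A` and `B`), `C = c₃ ²`.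
Let `v = (u, w) ∈ eig R D f'`. From `R₂₁ u + R₂₂ w = f' w` we get `‖B w - f w‖ ≤ γ ‖v‖`, so `‖w - P_B w‖ ≤ c₃ γ ‖v‖`;
from `R₁₁ u + R₁₂ w = f' u`, `‖A u - f u‖ ≤ max (γ ‖v‖) ‖w‖`, so `‖u - P_A u‖ ≤ c₃ max (γ ‖v‖) ‖w‖`. As `c₃ ² γ < 1`,
`‖v‖ ≤ c₃ max ‖P_A u‖ ‖P_B w‖`. So `v ↦ (P_A u, P_B w)` is injective on `eig R D f'`; its values are in the
product of the ranges of `P_A` and `P_B` over `L`, of dimension `finrank (eig A) + finrank (eig B)`, so it is
bijective by the hypothesis on the dimensions. Let `(u, w)` be the vector with `P_A u = 0`, `P_B w = y`. Then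
`‖u‖, ‖w‖ ≤ c₃`, `‖w - y‖ ≤ c₃ ² γ`, and
`A u + R₁₂ y - f u = (R₁₁ u + R₁₂ w - f' u) - (R₁₁ - A) u + (f' - f) u - R₁₂ (w - y)` has norm at most `c₃ ² γ`. -/
def S_LOC : Prop :=
  ∀ (E : Type) [NontriviallyNormedField E] [ProperSpace E] [IsUltrametricDist E] (G α β : Type) [Fintype α]
    [DecidableEq α] [Fintype β] [DecidableEq β] (A : G → Matrix α α E) (B : G → Matrix β β E) (D : Set G)
    (f : G → E), (∀ g p q, ‖A g p q‖ ≤ 1) → (∀ g p q, ‖B g p q‖ ≤ 1) → (∀ d ∈ D, ‖f d‖ ≤ 1) →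
  ∃ C : ℝ, 1 ≤ C ∧ ∀ (L : Type) [NormedField L] [NormedAlgebra E L] [FiniteDimensional E L] [IsUltrametricDist L]
    (R : G → Matrix (α ⊕ β) (α ⊕ β) L) (f' : G → L) (γ : ℝ), 0 ≤ γ → C * γ < 1 →
    Near (fun g => (A g).map (algebraMap E L)) (fun g => (B g).map (algebraMap E L)) R γ →
    (∀ d ∈ D, ‖f' d - algebraMap E L (f d)‖ ≤ γ) →
    Module.finrank E (eig A D f) + Module.finrank E (eig B D f) ≤ Module.finrank L (eig R D f') →
    ∀ y ∈ eig B D f, ‖y‖ ≤ 1 → ∃ u : α → L, ‖u‖ ≤ C ∧ ∀ d ∈ D,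
      ‖(A d).map (algebraMap E L) *ᵥ u + (R d).toBlocks₁₂ *ᵥ (fun k => algebraMap E L (y k)) -
        algebraMap E L (f d) • u‖ ≤ C * γ

/-- **Job APX.** Approximate extensions are near to split extensions, if the extensions are split.

Paper proof. Suppose not; for `m = 1, 2, …` let `c_m` be a counterexample with `ε = 1 / m`, `C = m`. Let
`z_m g = c_m g * B g⁻¹`, with values in `V = α → β → E`, on which `G` acts by `X ↦ A g * X * B g⁻¹`, an isometric
continuous action. They are approximate cocycles, and by `Pool.Agent.H230.SM.t_LIM : S_LIM` (module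
`Pool.Agent.H499.SM.LIM`; statement in `Pool.Agent.H499.SM.Stm`) there is a cocycle `z` with `‖z_m g - z g‖ ≤ η'` for
all `g`, for `𝓤`-almost all `m`, for every `η' > 0`. Put `c g = z g * B g`. It satisfies the local conditions: for an
eigenvector `y` of `B` (multiply it by a scalar so that `‖y‖ ≤ 1`) take the limit along `𝓤` of the vectors `u_m` with
`‖u_m‖ ≤ T` (compact ball), as in `Pool.Agent.H499.SM.approx` (module `Pool.Agent.H499.SM.Defs`). So
`c g = A g x - x B g` for some `x`, and for `𝓤`-almost all `m` we have `m ≥ |x|` and `|c_m - c| ≤ η`, a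
contradiction. -/
def S_APX : Prop :=
  ∀ (E : Type) [NontriviallyNormedField E] [ProperSpace E] [IsUltrametricDist E] (G : Type) [Group G]
    [TopologicalSpace G] [IsTopologicalGroup G] [CompactSpace G] (I : Set G), HMFin G I →
  ∀ (α β ι : Type) [Fintype α] [DecidableEq α] [Fintype β] [DecidableEq β] [Finite ι] (A : G →* Matrix α α E)
    (B : G →* Matrix β β E) (D : ι → Set G) (f : ι → G → E), (∀ g p q, ‖A g p q‖ ≤ 1) → (∀ g p q, ‖B g p q‖ ≤ 1) →
    (∀ p q, Continuous fun g => A g p q) → (∀ p q, Continuous fun g => B g p q) → (∀ i, ∀ d ∈ D i, ‖f i d‖ ≤ 1) →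
    ExtZero A B I D f → ∀ T η : ℝ, 0 < η →
  ∃ ε : ℝ, 0 < ε ∧ ∃ C : ℝ, ∀ c : G → Matrix α β E, (∀ p q, Continuous fun g => c g p q) →
    (∀ g p q, ‖c g p q‖ ≤ T) → (∀ g h p q, ‖(c (g * h) - A g * c h - c g * B h) p q‖ ≤ ε) → (∀ g ∈ I, c g = 0) →
    (∀ i, ∀ y ∈ eig (fun g => B g) (D i) (f i), ‖y‖ ≤ 1 → ∃ u : α → E, ‖u‖ ≤ T ∧ ∀ d ∈ D i,
      ‖A d *ᵥ u + c d *ᵥ y - f i d • u‖ ≤ ε) →
    ∃ x : Matrix α β E, (∀ p q, ‖x p q‖ ≤ C) ∧ ∀ g p q, ‖(c g - (A g * x - x * B g)) p q‖ ≤ η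

/-- **Job STEP** (from `S_LOC` and `S_APX`). The upper right block of a representation near to `A ⊕ B` is near to
a coboundary, uniformly in the extension `L`.

Paper proof. Take coordinates of `L` over `E` with constant `q = ‖ϖ‖⁻¹` (`Pool.Agent.H499.SM.exists_crd`,
`Pool.Agent.H122.SM.orth`; structure `Crd`, `e_le`, `sum`, `le`). Let `c_j g` be the matrix of the `j`-th coordinates of
`R₁₂ g`, `|c_j g| ≤ q`. From `R₁₂(g h) = R₁₁(g) R₁₂(h) + R₁₂(g) R₂₂(h)` we get `|R₁₂(g h) - A(g) R₁₂(h) - R₁₂(g) B(h)| ≤ γ`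
and so `|c_j(g h) - A(g) c_j(h) - c_j(g) B(h)| ≤ q γ`; `c_j = 0` on `I`; continuous. For `y ∈ eig B (D i) (f i)` with
`‖y‖ ≤ 1` let `u` be the vector of `S_LOC`, its coordinates `u_j` satisfy `‖u_j‖ ≤ q C₁`,
`‖A u_j + c_j(d) y - f u_j‖ ≤ q C₁ γ` (`C₁` the maximum of the constants of `S_LOC` for the finitely many `i`). Apply
`S_APX` with `T = max q (q C₁)` and `η`, which gives `ε`, `C`; let `γ` be so small that `q C₁ γ ≤ ε`, `q γ ≤ ε`,
`C₁ γ < 1`. Then `x = ∑ e_j x_j` has the required properties. -/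
def S_STEP : Prop :=
  ∀ (E : Type) [NontriviallyNormedField E] [ProperSpace E] [IsUltrametricDist E] (G : Type) [Group G]
    [TopologicalSpace G] [IsTopologicalGroup G] [CompactSpace G] (I : Set G), HMFin G I →
  ∀ (α β ι : Type) [Fintype α] [DecidableEq α] [Fintype β] [DecidableEq β] [Finite ι] (A : G →* Matrix α α E)
    (B : G →* Matrix β β E) (D : ι → Set G) (f : ι → G → E), (∀ g p q, ‖A g p q‖ ≤ 1) → (∀ g p q, ‖B g p q‖ ≤ 1) →
    (∀ p q, Continuous fun g => A g p q) → (∀ p q, Continuous fun g => B g p q) → (∀ i, ∀ d ∈ D i, ‖f i d‖ ≤ 1) →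
    ExtZero A B I D f → ∀ η : ℝ, 0 < η →
  ∃ γ : ℝ, 0 < γ ∧ ∃ C : ℝ, 1 ≤ C ∧ ∀ (L : Type) [NormedField L] [NormedAlgebra E L] [FiniteDimensional E L]
    [IsUltrametricDist L] (R : G →* Matrix (α ⊕ β) (α ⊕ β) L) (f' : ι → G → L),
    (∀ p q, Continuous fun g => R g p q) → (∀ g ∈ I, R g = 1) →
    Near (fun g => (A g).map (algebraMap E L)) (fun g => (B g).map (algebraMap E L)) (fun g => R g) γ →
    (∀ i, ∀ d ∈ D i, ‖f' i d - algebraMap E L (f i d)‖ ≤ γ) →
    (∀ i, Module.finrank E (eig (fun g => A g) (D i) (f i)) + Module.finrank E (eig (fun g => B g) (D i) (f i)) ≤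
      Module.finrank L (eig (fun g => R g) (D i) (f' i))) →
    ∃ x : Matrix α β L, (∀ p q, ‖x p q‖ ≤ C) ∧ ∀ g p q,
      ‖((R g).toBlocks₁₂ - ((A g).map (algebraMap E L) * x - x * (B g).map (algebraMap E L))) p q‖ ≤ η

/-- **Job ITER.** Iterated conjugation to a block lower triangular representation.

Paper proof. Let `γ₀ = min γ ‖ϖ‖ / C ^ 3`, `γ' = C γ₀`, so `γ' ≤ γ` and `C ² γ' ≤ ‖ϖ‖`. Construct `R_0 = R`, `x_k`, `R_k`
with `P R_k`, `|R_k,₁₁ - A|, |R_k,₂₂ - B| ≤ γ'`, `|R_k,₂₁| ≤ γ₀`, `|R_k,₁₂| ≤ 1`: let `x_k` be the matrix of the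
hypothesis for `R_k` (`Near` with `γ' ≤ γ`) and `R_{k+1} = T⁻¹ R_k T`, `T = (ϖ, -x_k; 0, 1)`, with the blocks
`R₁₁ + x R₂₁`, `ϖ⁻¹ (R₁₂ - R₁₁ x + x R₂₂ - x R₂₁ x)`, `ϖ R₂₁`, `R₂₂ - R₂₁ x` (`x = x_k`, `R = R_k`). The second is
`ϖ⁻¹ ([R₁₂ - (A x - x B)] - (R₁₁ - A) x + x (R₂₂ - B) - x R₂₁ x)`, of norm at most
`‖ϖ‖⁻¹ max (‖ϖ‖, γ' C, γ' C ²) ≤ 1`; the others are clear. With `P_k = (ϖ ^ k, X_k; 0, 1)`, `X_0 = 0`,
`X_{k+1} = X_k - ϖ ^ k x_k`, we have `R P_k = P_k R_k`. The second block column says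
`R₁₁ X_k + R₁₂ = ϖ ^ k R_k,₁₂ + X_k (R₂₁ X_k + R₂₂)`. The sequence `X_k` converges (ultrametric, complete), the limit
`X` has the required property. -/
def S_ITER : Prop :=
  ∀ (F : Type) [NormedField F] [CompleteSpace F] [IsUltrametricDist F] (G : Type) [Group G] (α β : Type) [Fintype α]
    [DecidableEq α] [Fintype β] [DecidableEq β] (A : G → Matrix α α F) (B : G → Matrix β β F),
    (∀ g p q, ‖A g p q‖ ≤ 1) → (∀ g p q, ‖B g p q‖ ≤ 1) →
  ∀ P : (G →* Matrix (α ⊕ β) (α ⊕ β) F) → Prop,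
    (∀ R, P R → ∀ (X : GL (α ⊕ β) F) (R' : G →* Matrix (α ⊕ β) (α ⊕ β) F),
      (∀ g, R g * (X : Matrix (α ⊕ β) (α ⊕ β) F) = (X : Matrix (α ⊕ β) (α ⊕ β) F) * R' g) → P R') →
  ∀ (ϖ : F), ϖ ≠ 0 → ‖ϖ‖ < 1 → ∀ γ C : ℝ, 0 < γ → 1 ≤ C →
    (∀ R, P R → Near A B (fun g => R g) γ → ∃ x : Matrix α β F, (∀ p q, ‖x p q‖ ≤ C) ∧
      ∀ g p q, ‖((R g).toBlocks₁₂ - (A g * x - x * B g)) p q‖ ≤ ‖ϖ‖) →
    ∀ R, P R → Near A B (fun g => R g) (min γ ‖ϖ‖ / C ^ 3) → ∃ X : Matrix α β F, (∀ p q, ‖X p q‖ ≤ C) ∧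
      ∀ g, (R g).toBlocks₁₁ * X + (R g).toBlocks₁₂ = X * ((R g).toBlocks₂₁ * X + (R g).toBlocks₂₂)

/-- **Job KER.** The dimension of the space of the solutions of a (possibly infinite) system of linear equations
does not change under field extensions.

Paper proof. `≤`: linearly independent solutions over `E` are solutions over `L` and linearly independent over `L`
(rank of a matrix, or `LinearIndependent.map'`/base change). `≥`: the row space of the system is spanned by finitely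
many rows, so one may assume that it is one matrix `M : Matrix (Fin r) ν E`, and the rank of a matrix does not
change (`Matrix.rank_map` or minors). See also `Pool.Agent.H499.SM.finrank_inv` (module `Pool.Agent.H499.SM.Desc`), where
the case `M d = ρ d - 1` is proved by a direct argument. -/
def S_KER : Prop :=
  ∀ (E L : Type) [Field E] [Field L] [Algebra E L] (D ν : Type) [Fintype ν] [DecidableEq ν] (M : D → Matrix ν ν E)
    (U : Submodule E (ν → E)) (V : Submodule L (ν → L)), (∀ x, x ∈ U ↔ ∀ d, M d *ᵥ x = 0) →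
    (∀ x, x ∈ V ↔ ∀ d, (M d).map (algebraMap E L) *ᵥ x = 0) → Module.finrank E U = Module.finrank L V

/-- **Job DSC.** Descent of the vanishing of `Ext`.

Paper proof. Let `c` be as in the definition of `ExtZero` over `E`. Its image over `L` is continuous and satisfies the
equations. Local conditions: let `y ∈ L ^ β` be an eigenvector of `B` on `D i`. Write `y = ∑_k λ_k y_k` with `λ_k ∈ L`
linearly independent over `E` and `y_k ∈ E ^ β` (a basis of the span of the coordinates of `y`). The `y_k` are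
eigenvectors of `B` over `E`, so there are `u_k`, and `u = ∑ λ_k u_k` has the required property. So `c g = A g x - x B g`
with `x` over `L`. Choose an `E`-linear map `π : L → E` with `π 1 = 1` and apply it to the entries: `π (x)` is a matrix
over `E` with `c g = A g π(x) - π(x) B g`. -/
def S_DSC : Prop :=
  ∀ (E L : Type) [NormedField E] [NormedField L] [NormedAlgebra E L] (G : Type) [Group G] [TopologicalSpace G]
    (α β ι : Type) [Fintype α] [DecidableEq α] [Fintype β] [DecidableEq β] (A : G →* Matrix α α E)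
    (B : G →* Matrix β β E) (A' : G →* Matrix α α L) (B' : G →* Matrix β β L)
    (I : Set G) (D : ι → Set G) (f : ι → G → E) (f' : ι → G → L),
    (∀ g, A' g = (A g).map (algebraMap E L)) → (∀ g, B' g = (B g).map (algebraMap E L)) →
    (∀ i, ∀ d ∈ D i, f' i d = algebraMap E L (f i d)) → ExtZero A' B' I D f' → ExtZero A B I D f

/-- **Job DIR.** `Ext` of direct sums.

Paper proof. The blocks `c_ij g p q = c g ⟨i, p⟩ ⟨j, q⟩` satisfy the conditions for `A i` and `B j`: for an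
eigenvector `y` of `B j` the vector with the only component `y` at `j` is an eigenvector of `bdR B`; take the
`i`-th component of `u`. So `c_ij g = A i g x_ij - x_ij B j g`; the matrix with the blocks `x_ij` has the required
property. -/
def S_DIR : Prop :=
  ∀ (k : Type) [NormedField k] (G : Type) [Group G] [TopologicalSpace G] (σ τ ι : Type) [Fintype σ] [DecidableEq σ]
    [Fintype τ] [DecidableEq τ] (a : σ → ℕ) (b : τ → ℕ) (A : ∀ i, G →* Matrix (Fin (a i)) (Fin (a i)) k)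
    (B : ∀ j, G →* Matrix (Fin (b j)) (Fin (b j)) k) (I : Set G) (D : ι → Set G) (f : ι → G → k),
    (∀ i j, ExtZero (A i) (B j) I D f) → ExtZero (bdR A) (bdR B) I D f

end Pool.Agent.H499.RL
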